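import Mathlib
import Pool.Agent.TH410.KV.CubMain
import Pool.Agent.H98R2.Ev.T12a

set_option autoImplicit false
set_option linter.unusedSectionVars false

/-! Properties whose minimal members have few non-isolated vertices are containment properties. -/

namespace Pool.Agent.V5helper66.Karp

open Finset Pool.Agent.H98R2.Ev Pool.Agent.H98R2.Nb Pool.Agent.TH410.KV

variable {n : ℕ}

/-- two embeddings differ by a permutation -/
theorem exists_perm {k : ℕ} (f g : Fin k ↪ Fin n) :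
    ∃ σ : Fin n ≃ Fin n, ∀ x, σ (f x) = g x := by
  classical
  let e : {y // y ∈ Set.range f} ≃ {y // y ∈ Set.range g} :=
    (Equiv.ofInjective f f.injective).symm.trans (Equiv.ofInjective g g.injective)
  refine ⟨e.extendSubtype, fun x => ?_⟩
  rw [Equiv.extendSubtype_apply_of_mem e (f x) ⟨x, rfl⟩]
  have h1 : (Equiv.ofInjective f f.injective).symm ⟨f x, ⟨x, rfl⟩⟩ = x :=
    (Equiv.symm_apply_eq _).2 rfl
  change ((Equiv.ofInjective g g.injective) ((Equiv.ofInjective f f.injective).symm ⟨f x, _⟩) :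
    Fin n) = g x
  rw [h1]
  rfl

/-- the graphs on at most `b` vertices whose images have the property -/
def fam (P : SimpleGraph (Fin n) → Prop) (b : ℕ) : Pool.Agent.TH410.KV.Fam :=
  {F | F.1 ≤ b ∧ ∃ f : Fin F.1 ↪ Fin n, P (F.2.map f)}

theorem map_le {k : ℕ} {F : SimpleGraph (Fin k)} {G : SimpleGraph (Fin n)} (f : Fin k ↪ Fin n)
    (h : ∀ x y, F.Adj x y → G.Adj (f x) (f y)) : F.map f ≤ G := by
  intro a b hab
  rw [SimpleGraph.map_adj] at hab
  obtain ⟨x, y, hxy, rfl, rfl⟩ := hab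
  exact h x y hxy

theorem has_fam_iff (P : SimpleGraph (Fin n) → Prop) (b : ℕ)
    (hmono : ∀ G H : SimpleGraph (Fin n), G ≤ H → P G → P H)
    (hiso : ∀ (σ : Fin n ≃ Fin n) (G : SimpleGraph (Fin n)), P G → P (G.map σ.toEmbedding))
    (hloc : ∀ G : SimpleGraph (Fin n), P G → ∃ H ≤ G, P H ∧ H.support.ncard ≤ b)
    (G : SimpleGraph (Fin n)) : Has (fam P b) G ↔ P G := by
  classical
  constructor
  · rintro ⟨F, ⟨_, f, hf⟩, ⟨g⟩⟩
    let g' : Fin F.1 ↪ Fin n := ⟨g, g.injective⟩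
    obtain ⟨σ, hσ⟩ := exists_perm f g'
    have h1 := hiso σ _ hf
    refine hmono _ _ ?_ h1
    rw [SimpleGraph.map_map]
    have e1 : (⇑σ.toEmbedding ∘ ⇑f) = ⇑g' := funext hσ
    rw [e1]
    exact map_le g' fun x y hxy => g.toHom.map_adj hxy
  · intro hG
    obtain ⟨H, hH1, hH2, hH3⟩ := hloc G hG
    have hfin : H.support.Finite := Set.toFinite _
    let e : Fin H.support.ncard ≃ H.support := by
      refine (Finite.equivFinOfCardEq ?_).symm
      rw [Nat.card_coe_set_eq]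
    let f : Fin H.support.ncard ↪ Fin n := e.toEmbedding.trans (Function.Embedding.subtype _)
    have hmap : (H.comap f).map f = H := by
      apply le_antisymm
      · exact map_le _ fun x y hxy => hxy
      · intro a c hac
        have ha : a ∈ H.support := ⟨c, hac⟩
        have hc : c ∈ H.support := ⟨a, hac.symm⟩
        rw [SimpleGraph.map_adj]
        have e1 : f (e.symm ⟨a, ha⟩) = a := by
          change ((e (e.symm ⟨a, ha⟩) : H.support) : Fin n) = a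
          rw [Equiv.apply_symm_apply]
        have e2 : f (e.symm ⟨c, hc⟩) = c := by
          change ((e (e.symm ⟨c, hc⟩) : H.support) : Fin n) = c
          rw [Equiv.apply_symm_apply]
        refine ⟨e.symm ⟨a, ha⟩, e.symm ⟨c, hc⟩, ?_, e1, e2⟩
        change H.Adj (f _) (f _)
        rw [e1, e2]
        exact hac
    refine ⟨⟨H.support.ncard, H.comap f⟩, ⟨hH3, f, by rw [hmap]; exact hH2⟩, ?_⟩
    exact ⟨⟨⟨f, fun {x y} hxy => hH1 hxy⟩, f.injective⟩⟩

/-- from families to properties with small minimal members -/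
theorem local_evasive (b : ℕ) (hn : 2 ≤ n)
    (hfam : ∀ 𝓕 : Pool.Agent.TH410.KV.Fam, 𝓕.Nonempty →
      (∀ F ∈ 𝓕, F.1 ≤ b) → (∀ F ∈ 𝓕, ¬ F.2.Colorable 1) →
      ¬ NE (univ : Finset (EV (Fin n))) (fun S => ¬ Has 𝓕 (toG S)))
    (P : SimpleGraph (Fin n) → Prop)
    (hmono : ∀ G H : SimpleGraph (Fin n), G ≤ H → P G → P H)
    (hiso : ∀ (σ : Fin n ≃ Fin n) (G : SimpleGraph (Fin n)), P G → P (G.map σ.toEmbedding))
    (hex : ∃ G : SimpleGraph (Fin n), P G) (hne : ∃ G : SimpleGraph (Fin n), ¬ P G)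
    (hloc : ∀ G : SimpleGraph (Fin n), P G → ∃ H ≤ G, P H ∧ H.support.ncard ≤ b)
    (s : Finset (Sym2 (Fin n)) → SimpleGraph (Fin n) → Sym2 (Fin n))
    (hs : ∀ (Q : Finset (Sym2 (Fin n))) (G H : SimpleGraph (Fin n)),
        (∀ e ∈ Q, (e ∈ G.edgeSet ↔ e ∈ H.edgeSet)) → s Q G = s Q H) :
    ∃ G H : SimpleGraph (Fin n),
      (∀ e ∈ (fun Q : Finset (Sym2 (Fin n)) => insert (s Q G) Q)^[n.choose 2 - 1]
            (∅ : Finset (Sym2 (Fin n))),
          (e ∈ G.edgeSet ↔ e ∈ H.edgeSet)) ∧ P G ∧ ¬ P H := by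
  by_contra hbad
  have hNE := ne_of_strategy n hn P s hs hbad
  have h1 : (fun S : Finset (EV (Fin n)) => ¬ P (toG S)) =
      (fun S => ¬ Has (fam P b) (toG S)) := by
    funext S
    rw [has_fam_iff P b hmono hiso hloc]
  rw [h1] at hNE
  refine hfam (fam P b) ?_ (fun F hF => hF.1) ?_ hNE
  · obtain ⟨G, hG⟩ := hex
    obtain ⟨F, hF, _⟩ := (has_fam_iff P b hmono hiso hloc G).2 hG
    exact ⟨F, hF⟩
  · rintro F ⟨_, f, hf⟩ ⟨C⟩
    obtain ⟨G, hG⟩ := hne
    apply hG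
    refine hmono _ _ ?_ hf
    refine map_le _ fun x y hxy => ?_
    exact absurd (Subsingleton.elim _ _) (C.valid hxy)

theorem compl_map (σ : Fin n ≃ Fin n) (G : SimpleGraph (Fin n)) :
    (G.map σ.toEmbedding)ᶜ = (Gᶜ).map σ.toEmbedding := by
  ext a b
  obtain ⟨a, rfl⟩ := σ.surjective a
  obtain ⟨b, rfl⟩ := σ.surjective b
  rw [SimpleGraph.compl_adj]
  change σ.toEmbedding a ≠ σ.toEmbedding b ∧ ¬ (G.map σ.toEmbedding).Adj (σ.toEmbedding a) (σ.toEmbedding b) ↔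
    (Gᶜ.map σ.toEmbedding).Adj (σ.toEmbedding a) (σ.toEmbedding b)
  rw [SimpleGraph.map_adj_apply, SimpleGraph.map_adj_apply, SimpleGraph.compl_adj]
  simp

/-- the same with the dual form of the hypothesis -/
theorem local_evasive_dual (b : ℕ) (hn : 2 ≤ n)
    (hfam : ∀ 𝓕 : Pool.Agent.TH410.KV.Fam, 𝓕.Nonempty →
      (∀ F ∈ 𝓕, F.1 ≤ b) → (∀ F ∈ 𝓕, ¬ F.2.Colorable 1) →
      ¬ NE (univ : Finset (EV (Fin n))) (fun S => ¬ Has 𝓕 (toG S)))
    (P : SimpleGraph (Fin n) → Prop)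
    (hmono : ∀ G H : SimpleGraph (Fin n), G ≤ H → P G → P H)
    (hiso : ∀ (σ : Fin n ≃ Fin n) (G : SimpleGraph (Fin n)), P G → P (G.map σ.toEmbedding))
    (hex : ∃ G : SimpleGraph (Fin n), P G) (hne : ∃ G : SimpleGraph (Fin n), ¬ P G)
    (hloc : ∀ G : SimpleGraph (Fin n), ¬ P G → ∃ H, G ≤ H ∧ ¬ P H ∧ Hᶜ.support.ncard ≤ b)
    (s : Finset (Sym2 (Fin n)) → SimpleGraph (Fin n) → Sym2 (Fin n))
    (hs : ∀ (Q : Finset (Sym2 (Fin n))) (G H : SimpleGraph (Fin n)),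
        (∀ e ∈ Q, (e ∈ G.edgeSet ↔ e ∈ H.edgeSet)) → s Q G = s Q H) :
    ∃ G H : SimpleGraph (Fin n),
      (∀ e ∈ (fun Q : Finset (Sym2 (Fin n)) => insert (s Q G) Q)^[n.choose 2 - 1]
            (∅ : Finset (Sym2 (Fin n))),
          (e ∈ G.edgeSet ↔ e ∈ H.edgeSet)) ∧ P G ∧ ¬ P H := by
  refine dual_strategy n P (fun s hs => ?_) s hs
  refine local_evasive b hn hfam (fun G => ¬ P Gᶜ) ?_ ?_ ?_ ?_ ?_ s hs
  · intro G H hGH hG hH
    exact hG (hmono _ _ (compl_le_compl hGH) hH)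
  · intro σ G hG hH
    apply hG
    rw [compl_map] at hH
    have h2 := hiso σ.symm _ hH
    rw [SimpleGraph.map_map] at h2
    have e1 : (⇑σ.symm.toEmbedding ∘ ⇑σ.toEmbedding) = id := by
      funext a
      simp
    rw [e1, SimpleGraph.map_id] at h2
    exact h2
  · obtain ⟨G, hG⟩ := hne
    exact ⟨Gᶜ, by rwa [compl_compl]⟩
  · obtain ⟨G, hG⟩ := hex
    exact ⟨Gᶜ, by rw [compl_compl, not_not]; exact hG⟩
  · intro G hG
    obtain ⟨H, h1, h2, h3⟩ := hloc _ hG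
    refine ⟨Hᶜ, ?_, ?_, h3⟩
    · rw [← compl_compl G]
      exact compl_le_compl h1
    · rwa [compl_compl]

end Pool.Agent.V5helper66.Karp
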