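import Mathlib
import Pool.Agent.V5helper66.Karp.Local

set_option autoImplicit false
set_option linter.unusedSectionVars false

/-! Properties with a member of small chromatic number: reduction to families. -/

namespace Pool.Agent.V5helper66.Karp

open Finset Pool.Agent.H98R2.Ev Pool.Agent.H98R2.Nb Pool.Agent.TH410.KV

variable {n : ℕ}

/-- from families to properties, with a colourable member -/
theorem col_evasive (b r : ℕ) (hn : 2 ≤ n)
    (hfam : ∀ 𝓕 : Pool.Agent.TH410.KV.Fam, (∀ F ∈ 𝓕, F.1 ≤ b) → (∀ F ∈ 𝓕, ¬ F.2.Colorable 1) →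
      (∃ F ∈ 𝓕, F.2.Colorable r) →
      ¬ NE (univ : Finset (EV (Fin n))) (fun S => ¬ Has 𝓕 (toG S)))
    (P : SimpleGraph (Fin n) → Prop)
    (hmono : ∀ G H : SimpleGraph (Fin n), G ≤ H → P G → P H)
    (hiso : ∀ (σ : Fin n ≃ Fin n) (G : SimpleGraph (Fin n)), P G → P (G.map σ.toEmbedding))
    (hne : ∃ G : SimpleGraph (Fin n), ¬ P G)
    (hcol : ∃ G : SimpleGraph (Fin n), P G ∧ G.Colorable r)
    (hloc : ∀ G : SimpleGraph (Fin n), P G → ∃ H ≤ G, P H ∧ H.support.ncard ≤ b)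
    (s : Finset (Sym2 (Fin n)) → SimpleGraph (Fin n) → Sym2 (Fin n))
    (hs : ∀ (Q : Finset (Sym2 (Fin n))) (G H : SimpleGraph (Fin n)),
        (∀ e ∈ Q, (e ∈ G.edgeSet ↔ e ∈ H.edgeSet)) → s Q G = s Q H) :
    ∃ G H : SimpleGraph (Fin n),
      (∀ e ∈ (fun Q : Finset (Sym2 (Fin n)) => insert (s Q G) Q)^[n.choose 2 - 1]
            (∅ : Finset (Sym2 (Fin n))),
          (e ∈ G.edgeSet ↔ e ∈ H.edgeSet)) ∧ P G ∧ ¬ P H := by
  by_contra hbad
  have hNE := ne_of_strategy n hn P s hs hbad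
  have h1 : (fun S : Finset (EV (Fin n)) => ¬ P (toG S)) =
      (fun S => ¬ Has (fam P b) (toG S)) := by
    funext S
    rw [has_fam_iff P b hmono hiso hloc]
  rw [h1] at hNE
  refine hfam (fam P b) (fun F hF => hF.1) ?_ ?_ hNE
  · rintro F ⟨_, f, hf⟩ ⟨C⟩
    obtain ⟨G, hG⟩ := hne
    apply hG
    refine hmono _ _ ?_ hf
    refine map_le _ fun x y hxy => ?_
    exact absurd (Subsingleton.elim _ _) (C.valid hxy)
  · obtain ⟨G, hG, hGc⟩ := hcol
    obtain ⟨F, hF, ⟨f⟩⟩ := (has_fam_iff P b hmono hiso hloc G).2 hG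
    obtain ⟨C⟩ := hGc
    exact ⟨F, hF, ⟨C.comp f.toHom⟩⟩

/-- the dual form -/
theorem col_evasive_dual (b r : ℕ) (hn : 2 ≤ n)
    (hfam : ∀ 𝓕 : Pool.Agent.TH410.KV.Fam, (∀ F ∈ 𝓕, F.1 ≤ b) → (∀ F ∈ 𝓕, ¬ F.2.Colorable 1) →
      (∃ F ∈ 𝓕, F.2.Colorable r) →
      ¬ NE (univ : Finset (EV (Fin n))) (fun S => ¬ Has 𝓕 (toG S)))
    (P : SimpleGraph (Fin n) → Prop)
    (hmono : ∀ G H : SimpleGraph (Fin n), G ≤ H → P G → P H)
    (hiso : ∀ (σ : Fin n ≃ Fin n) (G : SimpleGraph (Fin n)), P G → P (G.map σ.toEmbedding))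
    (hex : ∃ G : SimpleGraph (Fin n), P G)
    (hcol : ∃ G : SimpleGraph (Fin n), ¬ P G ∧ Gᶜ.Colorable r)
    (hloc : ∀ G : SimpleGraph (Fin n), ¬ P G → ∃ H, G ≤ H ∧ ¬ P H ∧ Hᶜ.support.ncard ≤ b)
    (s : Finset (Sym2 (Fin n)) → SimpleGraph (Fin n) → Sym2 (Fin n))
    (hs : ∀ (Q : Finset (Sym2 (Fin n))) (G H : SimpleGraph (Fin n)),
        (∀ e ∈ Q, (e ∈ G.edgeSet ↔ e ∈ H.edgeSet)) → s Q G = s Q H) :
    ∃ G H : SimpleGraph (Fin n),
      (∀ e ∈ (fun Q : Finset (Sym2 (Fin n)) => insert (s Q G) Q)^[n.choose 2 - 1]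
            (∅ : Finset (Sym2 (Fin n))),
          (e ∈ G.edgeSet ↔ e ∈ H.edgeSet)) ∧ P G ∧ ¬ P H := by
  refine dual_strategy n P (fun s hs => ?_) s hs
  refine col_evasive b r hn hfam (fun G => ¬ P Gᶜ) ?_ ?_ ?_ ?_ ?_ s hs
  · intro G H hGH hG hH
    exact hG (hmono _ _ (compl_le_compl hGH) hH)
  · intro σ G hG hH
    apply hG
    rw [compl_map] at hH
    have h2 := hiso σ.symm _ hH
    rw [SimpleGraph.map_map] at h2
    have e1 : (⇑σ.symm.toEmbedding ∘ ⇑σ.toEmbedding) = id := by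
      funext a
      simp
    rw [e1, SimpleGraph.map_id] at h2
    exact h2
  · obtain ⟨G, hG⟩ := hex
    exact ⟨Gᶜ, by rw [compl_compl, not_not]; exact hG⟩
  · obtain ⟨G, hG, hGc⟩ := hcol
    exact ⟨Gᶜ, by rwa [compl_compl], hGc⟩
  · intro G hG
    obtain ⟨H, h1, h2, h3⟩ := hloc _ hG
    refine ⟨Hᶜ, ?_, ?_, h3⟩
    · rw [← compl_compl G]
      exact compl_le_compl h1
    · rwa [compl_compl]

/-- large numbers have a large prime power divisor -/
theorem exists_primePow (b n : ℕ) (hn : (b + 1) ^ (b + 1) < n) :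
    ∃ p a : ℕ, p.Prime ∧ 1 ≤ a ∧ b ≤ p ^ a ∧ ∃ m, n = m * p ^ a ∧ ¬ p ∣ m := by
  have hn0 : n ≠ 0 := by omega
  by_contra hcon
  push Not at hcon
  have h1 : ∀ p ∈ n.primeFactors, p ^ n.factorization p ≤ b := by
    intro p hp
    have hpp := Nat.prime_of_mem_primeFactors hp
    by_contra hlt
    push Not at hlt
    have hdvd := Nat.ordProj_dvd n p
    obtain ⟨m, hm⟩ := hdvd
    have ha : 1 ≤ n.factorization p :=
      (hpp.factorization_pos_of_dvd hn0 (Nat.dvd_of_mem_primeFactors hp))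
    have hnd := Nat.not_dvd_ordCompl hpp hn0
    exact hnd (hcon p (n.factorization p) hpp ha hlt.le (n / p ^ n.factorization p)
      (Nat.div_mul_cancel (Nat.ordProj_dvd n p)).symm)
  have h2 : n = ∏ p ∈ n.primeFactors, p ^ n.factorization p := by
    conv_lhs => rw [← Nat.prod_factorization_pow_eq_self hn0]
    rfl
  have h3 : n ≤ b ^ n.primeFactors.card := by
    conv_lhs => rw [h2]
    exact Finset.prod_le_pow_card _ _ _ h1
  have h4 : n.primeFactors ⊆ range (b + 1) := by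
    intro p hp
    have hpp := Nat.prime_of_mem_primeFactors hp
    have ha : 1 ≤ n.factorization p :=
      (hpp.factorization_pos_of_dvd hn0 (Nat.dvd_of_mem_primeFactors hp))
    rw [mem_range]
    have h5 : p ^ 1 ≤ p ^ n.factorization p := Nat.pow_le_pow_right hpp.pos ha
    rw [pow_one] at h5
    have := h1 p hp
    omega
  have h5 := card_le_card h4
  rw [card_range] at h5
  have h6 : b ^ n.primeFactors.card ≤ (b + 1) ^ (b + 1) :=
    (Nat.pow_le_pow_left (Nat.le_succ b) _).trans (Nat.pow_le_pow_right (by omega) h5)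
  omega

/-- the prime power for the asymptotic form -/
theorem exists_block (b r n : ℕ) (hb1 : 1 ≤ b)
    (hn : (r ^ 2 * b + b ^ 2 + b + 1) ^ (r ^ 2 * b + b ^ 2 + b + 1) < n)
    (hr : ∀ p M : ℕ, p.Prime → 2 ≤ M → M < r → n ≠ M * p) :
    ∃ p c M : ℕ, p.Prime ∧ 1 ≤ c ∧ b ≤ p ^ c ∧ n = M * p ^ c ∧ 1 ≤ M ∧ (M = 1 ∨ r ≤ M) := by
  obtain ⟨p, a, hp, ha, hb, m, hm, _⟩ := exists_primePow (r ^ 2 * b + b ^ 2 + b) n hn
  have hn0 : n ≠ 0 := by omega
  have hm0 : m ≠ 0 := by
    rintro rfl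
    rw [zero_mul] at hm
    exact hn0 hm
  by_cases h1 : m = 1 ∨ r ≤ m
  · exact ⟨p, a, m, hp, ha, (by omega : b ≤ r ^ 2 * b + b ^ 2 + b).trans hb, hm, by omega, h1⟩
  · push Not at h1
    obtain ⟨h1, h2⟩ := h1
    have ha2 : 2 ≤ a := by
      by_contra hcon
      have h3 : a = 1 := by omega
      subst h3
      rw [pow_one] at hm
      exact hr p m hp (by omega) h2 hm
    rcases Nat.lt_or_ge p r with hpr | hpr
    · have hex : ∃ j, r ≤ m * p ^ j := by
        refine ⟨r, ?_⟩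
        have h3 : r < p ^ r := Nat.lt_pow_self hp.one_lt
        have h4 : 1 * p ^ r ≤ m * p ^ r := Nat.mul_le_mul_right _ (by omega)
        omega
      set j := Nat.find hex with hj
      have hj1 : r ≤ m * p ^ j := Nat.find_spec hex
      have hj0 : j ≠ 0 := by
        intro h
        rw [h, pow_zero, mul_one] at hj1
        omega
      have hj2 : ¬ r ≤ m * p ^ (j - 1) := Nat.find_min hex (by omega)
      push Not at hj2
      have h3 : p ^ (j - 1) < r := lt_of_le_of_lt (Nat.le_mul_of_pos_left _ (by omega)) hj2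
      have h4 : p ^ j = p ^ (j - 1) * p := by
        rw [← pow_succ]
        congr 1
        omega
      have h5 : p ^ j < r ^ 2 := by
        rw [h4, pow_two]
        exact Nat.mul_lt_mul'' h3 hpr
      have hja : j < a := by
        by_contra hcon
        push Not at hcon
        have h6 : p ^ a ≤ p ^ j := Nat.pow_le_pow_right hp.pos hcon
        have h7 : r ^ 2 * 1 ≤ r ^ 2 * b := Nat.mul_le_mul_left _ hb1
        omega
      refine ⟨p, a - j, m * p ^ j, hp, by omega, ?_, ?_, ?_, Or.inr hj1⟩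
      · by_contra hcon
        push Not at hcon
        have h6 : p ^ a = p ^ (a - j) * p ^ j := by
          rw [← pow_add]
          congr 1
          omega
        have h7 : p ^ (a - j) * p ^ j ≤ b * r ^ 2 := Nat.mul_le_mul hcon.le h5.le
        rw [← h6] at h7
        have h8 : r ^ 2 * b + b ^ 2 + b ≤ b * r ^ 2 := hb.trans h7
        nlinarith
      · rw [hm, mul_assoc, ← pow_add]
        congr 2
        omega
      · exact Nat.pos_of_ne_zero (Nat.mul_ne_zero hm0 (pow_ne_zero _ hp.ne_zero))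
    · refine ⟨p, a - 1, m * p, hp, by omega, ?_, ?_, ?_, Or.inr ?_⟩
      · by_contra hcon
        push Not at hcon
        have h6 : p ^ a = p ^ (a - 1) * p := by
          rw [← pow_succ]
          congr 1
          omega
        have h7 : p ^ 1 ≤ p ^ (a - 1) := Nat.pow_le_pow_right hp.pos (by omega)
        rw [pow_one] at h7
        have h8 : p ^ (a - 1) * p ≤ p ^ (a - 1) * p ^ (a - 1) := Nat.mul_le_mul_left _ h7
        have h9 : p ^ (a - 1) * p ^ (a - 1) ≤ b * b := Nat.mul_le_mul hcon.le hcon.le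
        rw [← h6] at h8
        have h10 : r ^ 2 * b + b ^ 2 + b ≤ b * b := (hb.trans h8).trans h9
        nlinarith
      · rw [hm, mul_assoc, ← pow_succ']
        congr 2
        omega
      · exact Nat.pos_of_ne_zero (Nat.mul_ne_zero hm0 hp.ne_zero)
      · exact hpr.trans (Nat.le_mul_of_pos_left _ (by omega))

end Pool.Agent.V5helper66.Karp
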