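import Mathlib

set_option autoImplicit false

/-! A primality test for the numbers `2 * 3 ^ K + 1`, arranged for evaluation by the kernel. -/

namespace Pool.Agent.V5helper66.Karp

/-- evaluate the argument first -/
def force {α : Type} (f : ℕ → α) : ℕ → α
  | 0 => f 0
  | n + 1 => f (n + 1)

theorem force_eq {α : Type} (f : ℕ → α) (n : ℕ) : force f n = f n := by
  cases n <;> rfl

/-- `2 ^ i` times the map `x ↦ x ^ 3 mod p` -/
def cub (p : ℕ) : ℕ → ℕ → ℕ
  | 0, x => x * x % p * x % p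
  | i + 1, x => force (cub p i) (cub p i x)

/-- `cub` for all exponents of a list -/
def cubs (p : ℕ) : List ℕ → ℕ → ℕ
  | [], x => x
  | i :: l, x => force (cubs p l) (cub p i x)

theorem cub_spec (p : ℕ) (i : ℕ) : ∀ x : ℕ, ((cub p i x : ℕ) : ZMod p) = (x : ZMod p) ^ (3 ^ (2 ^ i)) := by
  induction i with
  | zero =>
    intro x
    simp only [cub, ZMod.natCast_mod, Nat.cast_mul, pow_zero, pow_one]
    ring
  | succ i ih =>
    intro x
    rw [cub, force_eq, ih, ih, ← pow_mul, ← pow_add]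
    congr 2
    rw [pow_succ]
    ring

theorem cubs_spec (p : ℕ) (l : List ℕ) : ∀ x : ℕ,
    ((cubs p l x : ℕ) : ZMod p) = (x : ZMod p) ^ (3 ^ (l.map (fun i => 2 ^ i)).sum) := by
  induction l with
  | nil => intro x; simp [cubs]
  | cons i l ih =>
    intro x
    rw [cubs, force_eq, ih, cub_spec, ← pow_mul, ← pow_add, List.map_cons, List.sum_cons]

/-- the test -/
def test (p y : ℕ) : Bool :=
  force (fun z => (z != 1) && (z * y % p == p - 1)) (y * y % p)

theorem prime_of_test (K a : ℕ) (l : List ℕ) (hl : (l.map (fun i => 2 ^ i)).sum + 1 = K)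
    (h : test (2 * 3 ^ K + 1) (cubs (2 * 3 ^ K + 1) l a) = true) : (2 * 3 ^ K + 1).Prime := by
  set p := 2 * 3 ^ K + 1 with hp
  set y := cubs p l a with hy
  have hy' : (y : ZMod p) = (a : ZMod p) ^ (3 ^ (K - 1)) := by
    rw [hy, cubs_spec]
    congr 2
    omega
  rw [test, force_eq, Bool.and_eq_true, bne_iff_ne, beq_iff_eq] at h
  obtain ⟨h1, h2⟩ := h
  have hp2 : 2 < p := by
    have : 1 ≤ 3 ^ K := Nat.one_le_pow _ _ (by norm_num)
    have h3 : K ≠ 0 := by omega
    have h4 : 3 ^ 1 ≤ 3 ^ K := Nat.pow_le_pow_right (by norm_num) (Nat.one_le_iff_ne_zero.2 h3)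
    omega
  have e1 : (y : ZMod p) ^ 3 = -1 := by
    have h3 : ((y * y % p * y % p : ℕ) : ZMod p) = ((p - 1 : ℕ) : ZMod p) := by rw [h2]
    rw [ZMod.natCast_mod, Nat.cast_mul, ZMod.natCast_mod, Nat.cast_mul,
      Nat.cast_sub (by omega), ZMod.natCast_self, Nat.cast_one, zero_sub] at h3
    rw [← h3]
    ring
  have e2 : (y : ZMod p) ^ 2 ≠ 1 := by
    intro h3
    apply h1
    have h4 : ((y * y % p : ℕ) : ZMod p) = ((1 : ℕ) : ZMod p) := by
      rw [ZMod.natCast_mod, Nat.cast_mul, Nat.cast_one, ← h3]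
      ring
    have h5 := (ZMod.natCast_eq_natCast_iff' _ _ _).1 h4
    rwa [Nat.mod_mod, Nat.mod_eq_of_lt (by omega : 1 < p)] at h5
  have hne : (-1 : ZMod p) ≠ 1 := by
    intro h3
    have : Fact (2 < p) := ⟨hp2⟩
    exact ZMod.neg_one_ne_one h3
  obtain ⟨k, rfl⟩ : ∃ k, K = k + 1 := ⟨K - 1, by omega⟩
  rw [Nat.add_sub_cancel] at hy'
  have hp1 : p - 1 = 2 * 3 ^ (k + 1) := by omega
  refine lucas_primality p (a : ZMod p) ?_ ?_
  · rw [hp1, show 2 * 3 ^ (k + 1) = 3 ^ k * (3 * 2) by ring, pow_mul, ← hy', pow_mul, e1]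
    norm_num
  · intro r hr hd
    rw [hp1] at hd ⊢
    have h3 : r = 2 ∨ r = 3 := by
      rcases (Nat.Prime.dvd_mul hr).1 hd with h | h
      · exact Or.inl ((Nat.prime_dvd_prime_iff_eq hr Nat.prime_two).1 h)
      · exact Or.inr ((Nat.prime_dvd_prime_iff_eq hr Nat.prime_three).1 (hr.dvd_of_dvd_pow h))
    rcases h3 with rfl | rfl
    · rw [Nat.mul_div_cancel_left _ (by norm_num), pow_succ, pow_mul, ← hy', e1]
      exact hne
    · rw [show 2 * 3 ^ (k + 1) = 3 * (3 ^ k * 2) by ring, Nat.mul_div_cancel_left _ (by norm_num),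
        pow_mul, ← hy']
      exact e2

end Pool.Agent.V5helper66.Karp
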