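import Mathlib
import Pool.Agent.V5helper66.Karp.PT

set_option autoImplicit false

/-! Twenty-one primes `2 * 3 ^ K + 1`; every residue modulo `2 ^ 16` is a sum of some of them. -/

namespace Pool.Agent.V5helper66.Karp

/-- the exponents -/
def Ks : List ℕ := [30, 54, 57, 60, 65, 132, 180, 320, 696, 782, 822, 897, 1252, 1454, 4217, 5480,
  6225, 7842, 12096, 13782, 17720]

/-- the primes -/
def ell (K : ℕ) : ℕ := 2 * 3 ^ K + 1

/-- adding `s` modulo `P` to the members of a set of residues given by its bits -/
def step (P r s : ℕ) : ℕ := r ||| ((r <<< s) ||| (r >>> (P - s)))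

/-- the residues of the subset sums, given by the bits -/
def mask (P : ℕ) : List ℕ → ℕ
  | [] => 1
  | K :: L => step P (mask P L) (ell K % P) % 2 ^ P

theorem mask_spec (P : ℕ) (hP : 0 < P) (L : List ℕ) : ∀ i, i < P → (mask P L).testBit i = true →
    ∃ L' : List ℕ, L'.Sublist L ∧ (L'.map ell).sum % P = i := by
  induction L with
  | nil =>
    intro i hi h
    refine ⟨[], List.Sublist.refl _, ?_⟩
    rw [mask] at h
    have : i = 0 := by
      by_contra hne
      rw [Nat.testBit_one_eq_true_iff_self_eq_zero] at h
      exact hne h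
    subst this
    simp
  | cons K L ih =>
    intro i hi h
    rw [mask, Nat.testBit_mod_two_pow, step, Nat.testBit_or, Nat.testBit_or,
      Nat.testBit_shiftLeft, Nat.testBit_shiftRight] at h
    simp only [Bool.and_eq_true, Bool.or_eq_true, decide_eq_true_eq] at h
    obtain ⟨_, h | ⟨h1, h2⟩ | h⟩ := h
    · obtain ⟨L', h1, h2⟩ := ih i hi h
      exact ⟨L', h1.cons _, h2⟩
    · obtain ⟨L', h3, h4⟩ := ih _ (by omega) h2
      refine ⟨K :: L', h3.cons_cons _, ?_⟩
      rw [List.map_cons, List.sum_cons, Nat.add_mod, h4]
      have : ell K % P + (i - ell K % P) = i := by omega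
      rw [this, Nat.mod_eq_of_lt hi]
    · have hs : ell K % P < P := Nat.mod_lt _ hP
      set s := ell K % P with hs'
      by_cases hlt : P - s + i < P
      · obtain ⟨L', h3, h4⟩ := ih _ hlt h
        refine ⟨K :: L', h3.cons_cons _, ?_⟩
        rw [List.map_cons, List.sum_cons, Nat.add_mod, h4, ← hs']
        have : s + (P - s + i) = P + i := by omega
        rw [this, Nat.add_mod_left, Nat.mod_eq_of_lt hi]
      · exfalso
        have hm : ∀ (L : List ℕ) (j : ℕ), P ≤ j → (mask P L).testBit j = false := by
          intro L j hj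
          cases L with
          | nil =>
            rw [mask]
            have : j ≠ 0 := by omega
            by_contra hc
            rw [Bool.not_eq_false, Nat.testBit_one_eq_true_iff_self_eq_zero] at hc
            exact this hc
          | cons K L =>
            rw [mask, Nat.testBit_mod_two_pow]
            simp only [Bool.and_eq_false_imp, decide_eq_true_eq]
            intro h
            omega
        rw [hm L _ (by omega)] at h
        exact absurd h (by simp)

theorem mask_Ks : mask 65536 Ks = 2 ^ 65536 - 1 := by decide +kernel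

theorem cover (n : ℕ) : ∃ L' : List ℕ, L'.Sublist Ks ∧ (L'.map ell).sum ≡ n [MOD 65536] := by
  obtain ⟨L', h1, h2⟩ := mask_spec 65536 (by norm_num) Ks (n % 65536) (Nat.mod_lt _ (by norm_num))
    (by
      rw [mask_Ks, Nat.testBit_two_pow_sub_one]
      exact decide_eq_true (Nat.mod_lt _ (by norm_num)))
  exact ⟨L', h1, h2⟩

end Pool.Agent.V5helper66.Karp
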