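import Mathlib
import Pool.Agent.TH410.KV.CubMain
import Pool.Agent.V5helper66.Karp.Cover

set_option autoImplicit false
set_option linter.unusedSectionVars false

/-! The contradiction for families of small graphs: all blocks are fields of characteristic 2 or
prime blocks `ZMod (2 * 3 ^ K + 1)`. -/

namespace Pool.Agent.V5helper66.Karp

open Finset Pool.Agent.H98R2.Ev Pool.Agent.H98R2.Nb Pool.Agent.TH410.KV

/-- if `w` and `-1` generate the units there is only one class of differences -/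
theorem zc_eq_xi (q : ℕ) [Fact q.Prime] {𝓕 : Pool.Agent.TH410.KV.Fam} {b : ℕ}
    (hb : ∀ F : 𝓕, F.1.1 ≤ b) (F₀ : 𝓕) {ℓ : ℕ} [Fact ℓ.Prime] (hℓ : b ^ 2 < ℓ) (w : (ZMod ℓ)ˣ)
    (hw : Subgroup.closure {w, (-1 : (ZMod ℓ)ˣ)} = ⊤) :
    zc q hb hℓ w = cl q (xi : TY 𝓕) := by
  classical
  unfold zc
  rw [Finset.sum_eq_single (∅ : Finset (Om ℓ w))]
  · rw [card_empty, pow_zero, one_smul, ct_empty]
  · intro T _ hT
    obtain ⟨ω, hω⟩ := nonempty_iff_ne_empty.2 hT
    rw [cl_zero q _ F₀, smul_zero]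
    have hbl : b ≤ ℓ := by nlinarith
    refine ⟨fun x => ((x : ℕ) : ZMod ℓ), ?_, ?_⟩
    · intro x _ y _ hxy
      have h1 := (ZMod.natCast_eq_natCast_iff' _ _ _).1 hxy
      have h2 : (x : ℕ) < ℓ := lt_of_lt_of_le x.2 ((hb F₀).trans hbl)
      have h3 : (y : ℕ) < ℓ := lt_of_lt_of_le y.2 ((hb F₀).trans hbl)
      rw [Nat.mod_eq_of_lt h2, Nat.mod_eq_of_lt h3] at h1
      exact Fin.ext h1
    · intro x _ y _ hxy
      have hne : ((x : ℕ) : ZMod ℓ) ≠ ((y : ℕ) : ZMod ℓ) := by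
        intro h
        have h1 := (ZMod.natCast_eq_natCast_iff' _ _ _).1 h
        have h2 : (x : ℕ) < ℓ := lt_of_lt_of_le x.2 ((hb F₀).trans hbl)
        have h3 : (y : ℕ) < ℓ := lt_of_lt_of_le y.2 ((hb F₀).trans hbl)
        rw [Nat.mod_eq_of_lt h2, Nat.mod_eq_of_lt h3] at h1
        exact hxy.ne (Fin.ext h1)
      refine ⟨hne, Units.mk0 (((y : ℕ) : ZMod ℓ) - ((x : ℕ) : ZMod ℓ)) (sub_ne_zero.2 hne.symm),
        by simp, ?_⟩
      have hs : ∀ α β : Om ℓ w, α = β := by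
        intro α β
        induction α using QuotientGroup.induction_on
        induction β using QuotientGroup.induction_on
        rw [QuotientGroup.eq, hw]
        exact Subgroup.mem_top _
      rw [hs (QuotientGroup.mk _) ω]
      exact hω
  · intro h
    exact absurd (mem_univ _) h

/-- an element of order `3 ^ K` and `-1` generate the units modulo `2 * 3 ^ K + 1` -/
theorem closure_top {ℓ K : ℕ} [Fact ℓ.Prime] (hℓ : ℓ = 2 * 3 ^ K + 1) (w : (ZMod ℓ)ˣ)
    (hord : orderOf w = 3 ^ K) : Subgroup.closure {w, (-1 : (ZMod ℓ)ˣ)} = ⊤ := by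
  have hl : ℓ.Prime := Fact.out
  have hcard : Nat.card (ZMod ℓ)ˣ = 2 * 3 ^ K := by
    rw [Nat.card_eq_fintype_card, ZMod.card_units_eq_totient, Nat.totient_prime hl, hℓ]
    rfl
  set C := Subgroup.closure {w, (-1 : (ZMod ℓ)ˣ)} with hC
  have h1 : w ∈ C := Subgroup.subset_closure (by simp)
  have h2 : (-1 : (ZMod ℓ)ˣ) ∈ C := Subgroup.subset_closure (by simp)
  have hn1 : orderOf (-1 : (ZMod ℓ)ˣ) = 2 := by
    refine orderOf_eq_prime (by simp) ?_
    intro h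
    have h3 : (-1 : ZMod ℓ) = 1 := by
      have := congrArg (fun u : (ZMod ℓ)ˣ => (u : ZMod ℓ)) h
      simpa using this
    have h4 : 2 < ℓ := by
      have h5 : 1 ≤ 3 ^ K := Nat.one_le_pow _ _ (by norm_num)
      omega
    have : Fact (2 < ℓ) := ⟨h4⟩
    exact ZMod.neg_one_ne_one h3
  have d1 : 3 ^ K ∣ Nat.card C := by
    rw [← hord]
    have := orderOf_dvd_natCard (⟨w, h1⟩ : C)
    rwa [Subgroup.orderOf_mk] at this
  have d2 : 2 ∣ Nat.card C := by
    rw [← hn1]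
    have := orderOf_dvd_natCard (⟨-1, h2⟩ : C)
    rwa [Subgroup.orderOf_mk] at this
  have d3 : 2 * 3 ^ K ∣ Nat.card C :=
    Nat.Coprime.mul_dvd_of_dvd_of_dvd (Nat.Coprime.pow_right _ (by norm_num)) d2 d1
  apply Subgroup.eq_top_of_card_eq
  apply le_antisymm
  · exact Subgroup.card_le_card_group C
  · rw [hcard]
    exact Nat.le_of_dvd Nat.card_pos d3

/-- the contradiction for one number of vertices -/
theorem no_ne' {p q : ℕ} [Fact p.Prime] [Fact q.Prime] (hq : q = 2 ∨ q = 3) {I b : ℕ}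
    {𝓕 : Pool.Agent.TH410.KV.Fam} (hb : ∀ F : 𝓕, F.1.1 ≤ b)
    (h0 : ∀ F : 𝓕, ¬ F.1.2.Colorable (q ^ I))
    (F₀ : 𝓕) (hcs : F₀.1.2.Colorable (q ^ (I + 1))) (c : ℕ) (hc : 1 ≤ c) (hbc : b ≤ p ^ c)
    (e : ℕ) (he : I + 1 ≤ q ^ e) (a : ℕ)
    (M₀ k M j₀ M₂ : ℕ) (hM₀ : 1 ≤ M₀) (hM : M = M₀ + j₀ * (q ^ (q ^ e) - 1)) (hM₂ : M₂ ≤ M)
    (ℓ : Fin k → ℕ) [∀ j, Fact (ℓ j).Prime] (hinj : Function.Injective ℓ)
    (hℓb : ∀ j, b ^ 2 < ℓ j) (hℓp : ∀ j, p ^ (c + 1) < ℓ j)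
    (w : ∀ j, (ZMod (ℓ j))ˣ) (hord : ∀ j, w j ^ (q ^ a) = 1)
    (z : AA 𝓕 q) (hz : ∀ j, zc q hb (hℓb j) (w j) = z)
    (hL : Lb 𝓕 q (cl q (xi : TY 𝓕) ^ M₀ * z ^ k) ≠ 0) (n : ℕ)
    (hn : n = p ^ c * (M + (p - 1) * M₂) + ∑ j, ℓ j)
    (hne : NE (univ : Finset (EV (Fin n))) (fun S => ¬ Has 𝓕 (toG S))) : False := by
  classical
  have hp : p.Prime := Fact.out
  have hqp : q.Prime := Fact.out
  let F : Fin M → Type := fun i => GaloisField p (c + (if (i : ℕ) < M₂ then 1 else 0))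
  have hfin : ∀ i, Fintype (F i) := fun i => Fintype.ofFinite _
  have hFcard : ∀ i, Nat.card (F i) = p ^ (c + (if (i : ℕ) < M₂ then 1 else 0)) := by
    intro i
    exact GaloisField.card p _ (by omega)
  have hFcard' : ∀ i, Nat.card (F i) = p ^ c ∨ Nat.card (F i) = p ^ (c + 1) := by
    intro i
    rw [hFcard]
    split_ifs
    · exact Or.inr rfl
    · exact Or.inl rfl
  have hFb : ∀ i, b ≤ Nat.card (F i) := by
    intro i
    rcases hFcard' i with h | h <;> rw [h]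
    · exact hbc
    · exact hbc.trans (Nat.pow_le_pow_right hp.pos (Nat.le_succ c))
  have hemb : ∀ i, Nonempty (Fin b ↪ F i) := by
    intro i
    apply Function.Embedding.nonempty_of_card_le
    rw [Fintype.card_fin, ← Nat.card_eq_fintype_card]
    exact hFb i
  have hcard : Fintype.card (Fin n) = Fintype.card (VB F ℓ) := by
    rw [Fintype.card_fin, Fintype.card_sum, Fintype.card_sigma, Fintype.card_sigma]
    simp only [ZMod.card]
    rw [hn, ← size_sum p c M M₂ hp.one_le hM₂]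
    congr 1
    refine Finset.sum_congr rfl fun i _ => ?_
    rw [← Nat.card_eq_fintype_card, hFcard]
  let E : Fin n ≃ VB F ℓ := Fintype.equivOfCardEq hcard
  have hNE2 := ne_map15 (ev15 E) _ _ hne
  rw [Finset.map_univ_equiv] at hNE2
  have hNE3 : NE (univ : Finset (EV (VB F ℓ))) (fun S => ¬ Has 𝓕 (toG S)) := by
    have h1 : (fun S : Finset (EV (VB F ℓ)) => ¬ Has 𝓕 (toG S)) =
        (fun S => ¬ Has 𝓕 (toG (S.map (ev15 E).symm.toEmbedding))) := by
      funext S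
      have h1 : toG (S.map (ev15 E).symm.toEmbedding) = (toG S).map E.symm.toEmbedding :=
        toG_map15 E.symm S
      rw [h1]
      apply propext
      rw [not_iff_not]
      exact ⟨fun h => Has.mono' h ⟨(SimpleGraph.Iso.map E.symm (toG S)).toCopy⟩,
        fun h => Has.mono' h ⟨(SimpleGraph.Iso.map E.symm (toG S)).symm.toCopy⟩⟩
    rw [h1]
    exact hNE2
  have hpc : 0 < p ^ c - 1 := by
    have h1 : p ^ 1 ≤ p ^ c := Nat.pow_le_pow_right hp.pos hc
    rw [pow_one] at h1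
    have := hp.two_le
    omega
  have hpc1 : p ^ c ≤ p ^ (c + 1) := Nat.pow_le_pow_right hp.pos (Nat.le_succ c)
  have hcop : ∀ j, Nat.Coprime ((p ^ c - 1) * (p ^ (c + 1) - 1)) (ℓ j) := by
    intro j
    have h1 := hℓp j
    have hpr : (ℓ j).Prime := Fact.out
    refine Nat.Coprime.mul_left ?_ ?_
    · rw [Nat.coprime_comm, hpr.coprime_iff_not_dvd]
      intro h
      have := Nat.le_of_dvd hpc h
      omega
    · rw [Nat.coprime_comm, hpr.coprime_iff_not_dvd]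
      intro h
      have := Nat.le_of_dvd (by omega) h
      omega
  have hcrit := crit_c (F := F) p q a 𝓕 F₀.1 F₀.2
    (fun H hH h => h0 ⟨H, hH⟩ (h.mono (Nat.one_le_pow _ _ hqp.pos)))
    (fun i => (hb F₀).trans (hFb i)) ((p ^ c - 1) * (p ^ (c + 1) - 1))
    (Nat.mul_pos hpc (by omega)) hcop
    (fun i => by
      rcases hFcard' i with h | h <;> rw [h]
      · exact Dvd.intro _ rfl
      · exact Dvd.intro_left _ rfl)
    hinj w hord hNE3
  have hcnt := count_eq (F := F) q hb hℓb hemb w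
  rw [(ZMod.intCast_zmod_eq_zero_iff_dvd _ q).2 hcrit] at hcnt
  apply hL
  have hX : ∀ H : 𝓕, univ ∉ (xi : TY 𝓕).1 H := by
    intro H hH
    have h2 : univ ∈ ((J q)^[0] (xi : TY 𝓕)).1 H := hH
    have hne : NeZero q := ⟨hqp.ne_zero⟩
    rw [xi_iter, pow_zero] at h2
    exact h0 H (h2.mono (Nat.one_le_pow _ _ hqp.pos))
  have hnt : Nontrivial (AA 𝓕 q) := nontrivial_AA q _ hX
  have hch : CharP (AA 𝓕 q) q := charP_AA q
  have hneq : NeZero q := ⟨hqp.ne_zero⟩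
  have hDe : (De q ^ (I + 1)) (cl q (xi : TY 𝓕)) = 0 := by
    rw [De_cl q hq]
    exact cl_zero q _ F₀ ((xi_iter q (I + 1) F₀).2 hcs)
  have hper := pow_period q hDe he
  have hX2 : cl q (xi : TY 𝓕) ^ M = cl q (xi : TY 𝓕) ^ M₀ := by
    rw [hM]
    exact pow_add_period (Nat.one_le_pow _ _ hqp.pos) hper M₀ hM₀ j₀
  rw [Fintype.card_fin, hX2, Finset.prod_congr rfl (fun j _ => hz j), prod_const, card_univ,
    Fintype.card_fin] at hcnt
  exact hcnt.symm

end Pool.Agent.V5helper66.Karp
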