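import Mathlib
import Pool.Agent.V5helper66.Karp.PT

set_option autoImplicit false

/-! Some primes of the form `2 * 3 ^ K + 1`. -/

namespace Pool.Agent.V5helper66.Karp

theorem prime_30 : (2 * 3 ^ 30 + 1).Prime :=
  prime_of_test 30 10 [0, 2, 3, 4] (by decide) (by decide +kernel)

theorem prime_54 : (2 * 3 ^ 54 + 1).Prime :=
  prime_of_test 54 10 [0, 2, 4, 5] (by decide) (by decide +kernel)

theorem prime_57 : (2 * 3 ^ 57 + 1).Prime :=
  prime_of_test 57 5 [3, 4, 5] (by decide) (by decide +kernel)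

theorem prime_60 : (2 * 3 ^ 60 + 1).Prime :=
  prime_of_test 60 11 [0, 1, 3, 4, 5] (by decide) (by decide +kernel)

theorem prime_65 : (2 * 3 ^ 65 + 1).Prime :=
  prime_of_test 65 5 [6] (by decide) (by decide +kernel)

theorem prime_132 : (2 * 3 ^ 132 + 1).Prime :=
  prime_of_test 132 17 [0, 1, 7] (by decide) (by decide +kernel)

theorem prime_180 : (2 * 3 ^ 180 + 1).Prime :=
  prime_of_test 180 5 [0, 1, 4, 5, 7] (by decide) (by decide +kernel)

theorem prime_320 : (2 * 3 ^ 320 + 1).Prime :=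
  prime_of_test 320 5 [0, 1, 2, 3, 4, 5, 8] (by decide) (by decide +kernel)

theorem prime_696 : (2 * 3 ^ 696 + 1).Prime :=
  prime_of_test 696 14 [0, 1, 2, 4, 5, 7, 9] (by decide) (by decide +kernel)

theorem prime_782 : (2 * 3 ^ 782 + 1).Prime :=
  prime_of_test 782 10 [0, 2, 3, 8, 9] (by decide) (by decide +kernel)

theorem prime_822 : (2 * 3 ^ 822 + 1).Prime :=
  prime_of_test 822 10 [0, 2, 4, 5, 8, 9] (by decide) (by decide +kernel)

theorem prime_897 : (2 * 3 ^ 897 + 1).Prime :=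
  prime_of_test 897 5 [7, 8, 9] (by decide) (by decide +kernel)

theorem prime_1252 : (2 * 3 ^ 1252 + 1).Prime :=
  prime_of_test 1252 5 [0, 1, 5, 6, 7, 10] (by decide) (by decide +kernel)

theorem prime_1454 : (2 * 3 ^ 1454 + 1).Prime :=
  prime_of_test 1454 11 [0, 2, 3, 5, 7, 8, 10] (by decide) (by decide +kernel)

theorem prime_4217 : (2 * 3 ^ 4217 + 1).Prime :=
  prime_of_test 4217 5 [3, 4, 5, 6, 12] (by decide) (by decide +kernel)

theorem prime_5480 : (2 * 3 ^ 5480 + 1).Prime :=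
  prime_of_test 5480 11 [0, 1, 2, 5, 6, 8, 10, 12] (by decide) (by decide +kernel)

theorem prime_6225 : (2 * 3 ^ 6225 + 1).Prime :=
  prime_of_test 6225 11 [4, 6, 11, 12] (by decide) (by decide +kernel)

theorem prime_7842 : (2 * 3 ^ 7842 + 1).Prime :=
  prime_of_test 7842 10 [0, 5, 7, 9, 10, 11, 12] (by decide) (by decide +kernel)

theorem prime_12096 : (2 * 3 ^ 12096 + 1).Prime :=
  prime_of_test 12096 5 [0, 1, 2, 3, 4, 5, 8, 9, 10, 11, 13] (by decide) (by decide +kernel)

theorem prime_13782 : (2 * 3 ^ 13782 + 1).Prime :=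
  prime_of_test 13782 10 [0, 2, 4, 6, 7, 8, 10, 12, 13] (by decide) (by decide +kernel)

theorem prime_17720 : (2 * 3 ^ 17720 + 1).Prime :=
  prime_of_test 17720 5 [0, 1, 2, 4, 5, 8, 10, 14] (by decide) (by decide +kernel)


end Pool.Agent.V5helper66.Karp
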