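import Mathlib
import Pool.Agent.V5helper66.Karp.Fam
import Pool.Agent.V5helper66.Karp.Primes

set_option autoImplicit false
set_option linter.unusedSectionVars false

/-! Containing a member of a family of graphs with at most 65536 vertices. -/

namespace Pool.Agent.V5helper66.Karp

open Finset Pool.Agent.H98R2.Ev Pool.Agent.H98R2.Nb Pool.Agent.TH410.KV

theorem Ks_prime : ∀ K ∈ Ks, (ell K).Prime := by
  intro K hK
  unfold ell
  simp only [Ks, List.mem_cons, List.not_mem_nil, or_false] at hK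
  rcases hK with rfl | rfl | rfl | rfl | rfl | rfl | rfl | rfl | rfl | rfl | rfl | rfl | rfl | rfl |
    rfl | rfl | rfl | rfl | rfl | rfl | rfl
  · exact prime_30
  · exact prime_54
  · exact prime_57
  · exact prime_60
  · exact prime_65
  · exact prime_132
  · exact prime_180
  · exact prime_320
  · exact prime_696
  · exact prime_782
  · exact prime_822
  · exact prime_897
  · exact prime_1252
  · exact prime_1454
  · exact prime_4217
  · exact prime_5480
  · exact prime_6225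
  · exact prime_7842
  · exact prime_12096
  · exact prime_13782
  · exact prime_17720

theorem Ks_nodup : Ks.Nodup := by decide

theorem Ks_bounds : ∀ K ∈ Ks, 30 ≤ K ∧ K ≤ 17720 := by decide

theorem ell_inj {K K' : ℕ} (h : ell K = ell K') : K = K' := by
  unfold ell at h
  have h1 : 3 ^ K = 3 ^ K' := by omega
  exact Nat.pow_right_injective (le_refl 2 |>.trans (by norm_num)) h1

theorem ell_big {K : ℕ} (h : 30 ≤ K) : 65536 ^ 2 < ell K := by
  have h1 : 3 ^ 30 ≤ 3 ^ K := Nat.pow_le_pow_right (by norm_num) h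
  have h2 : 65536 ^ 2 < 2 * 3 ^ 30 + 1 := by norm_num
  unfold ell
  omega

theorem sum_get (f : ℕ → ℕ) (L : List ℕ) :
    (L.map f).sum = ∑ j : Fin L.length, f (L.get j) := by
  induction L with
  | nil => rfl
  | cons a L ih =>
    rw [List.map_cons, List.sum_cons, ih]
    exact (Fin.sum_univ_succ (fun j : Fin (L.length + 1) => f ((a :: L).get j))).symm

/-- **Families of graphs with at most 65536 vertices.** -/
theorem fam_small : ∃ n₀ : ℕ, ∀ n : ℕ, n₀ ≤ n → ∀ 𝓕 : Pool.Agent.TH410.KV.Fam, 𝓕.Nonempty →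
    (∀ F ∈ 𝓕, F.1 ≤ 65536) → (∀ F ∈ 𝓕, ¬ F.2.Colorable 1) →
    ¬ NE (univ : Finset (EV (Fin n))) (fun S => ¬ Has 𝓕 (toG S)) := by
  classical
  set D : ℕ := 3 ^ 3 ^ 3 - 1 with hD
  set SM : ℕ := (Ks.map ell).sum with hSM
  refine ⟨SM + 65536 * (3 * D + 2), fun n hn 𝓕 hne hb h1 hNE => ?_⟩
  have h2p : Fact (Nat.Prime 2) := ⟨Nat.prime_two⟩
  have h3p : Fact (Nat.Prime 3) := ⟨Nat.prime_three⟩
  have hb' : ∀ F : 𝓕, F.1.1 ≤ 65536 := fun F => hb F.1 F.2
  -- the number of colours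
  have hex : ∃ i, ∃ F ∈ 𝓕, F.2.Colorable (3 ^ i) := by
    obtain ⟨F, hF⟩ := hne
    refine ⟨11, F, hF, ?_⟩
    have h3 : F.2.Colorable (Fintype.card (Fin F.1)) := F.2.colorable_of_fintype
    rw [Fintype.card_fin] at h3
    exact h3.mono ((hb F hF).trans (by norm_num))
  obtain ⟨F₀, hF₀, hcol⟩ := Nat.find_spec hex
  have hle : Nat.find hex ≤ 11 := by
    refine Nat.find_min' hex ?_
    obtain ⟨F, hF⟩ := hne
    refine ⟨F, hF, ?_⟩
    have h3 : F.2.Colorable (Fintype.card (Fin F.1)) := F.2.colorable_of_fintype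
    rw [Fintype.card_fin] at h3
    exact h3.mono ((hb F hF).trans (by norm_num))
  have hpos : Nat.find hex ≠ 0 := by
    intro h0
    rw [h0, pow_zero] at hcol
    exact h1 F₀ hF₀ hcol
  obtain ⟨I, hI⟩ := Nat.exists_eq_succ_of_ne_zero hpos
  have h0' : ∀ F : 𝓕, ¬ F.1.2.Colorable (3 ^ I) := by
    intro F hF
    exact Nat.find_min hex (by omega : I < Nat.find hex) ⟨F.1, F.2, hF⟩
  rw [hI] at hcol
  have hI11 : I + 1 ≤ 3 ^ 3 := by
    have : I + 1 ≤ 11 := by omega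
    exact this.trans (by norm_num)
  -- the prime blocks
  obtain ⟨L', hL1, hL2⟩ := cover n
  have hmem : ∀ K ∈ L', K ∈ Ks := fun K hK => hL1.subset hK
  have hnd : L'.Nodup := Ks_nodup.sublist hL1
  set k := L'.length with hk
  have hk21 : k ≤ 21 := hL1.length_le
  set σ := (L'.map ell).sum with hσ
  have hσS : σ ≤ SM := (hL1.map ell).sum_le_sum (fun _ _ => Nat.zero_le _)
  have hσn : σ ≤ n := by omega
  obtain ⟨R, hR⟩ := (Nat.modEq_iff_dvd' hσn).1 hL2
  have hD21 : 21 ≤ D := by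
    rw [hD]
    norm_num
  have hRbig : 2 * (1 * D) + (D + 1 - k) ≤ R := by
    by_contra hcon
    push Not at hcon
    have h3 : 65536 * R ≤ 65536 * (3 * D + 1) := Nat.mul_le_mul_left _ (by omega)
    omega
  obtain ⟨M, j₀, M₂, hM1, hM2, hM3⟩ := choose_M 1 D (D + 1 - k) R le_rfl (by omega)
    (Nat.coprime_one_left _) hRbig
  let ℓ : Fin k → ℕ := fun j => ell (L'.get j)
  have hℓmem : ∀ j : Fin k, L'.get j ∈ Ks := fun j => hmem _ (List.get_mem _ _)
  have hℓP : ∀ j, Fact (ℓ j).Prime := fun j => ⟨Ks_prime _ (hℓmem j)⟩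
  have hℓb : ∀ j, 65536 ^ 2 < ℓ j := fun j => ell_big (Ks_bounds _ (hℓmem j)).1
  have hinj : Function.Injective ℓ := by
    intro i j h
    exact hnd.injective_get (ell_inj h)
  have hw : ∀ j, ∃ w : (ZMod (ℓ j))ˣ, orderOf w = 3 ^ (L'.get j) := by
    intro j
    refine exists_order (ℓ j) _ ?_
    change _ ∣ 2 * 3 ^ (L'.get j) + 1 - 1
    rw [Nat.add_sub_cancel]
    exact Dvd.intro_left _ rfl
  choose w hw using hw
  have hU : ∀ H : 𝓕, univ ∉ (xi : TY 𝓕).1 H := by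
    intro H hH
    have h2 : univ ∈ ((J 3)^[0] (xi : TY 𝓕)).1 H := hH
    rw [xi_iter, pow_zero] at h2
    exact h1 H.1 H.2 h2
  have hnt : Nontrivial (AA 𝓕 3) := nontrivial_AA 3 _ hU
  have hch : CharP (AA 𝓕 3) 3 := charP_AA 3
  have hDe : (De 3 ^ (I + 1)) (cl 3 (xi : TY 𝓕)) = 0 := by
    rw [De_cl 3 (Or.inr rfl)]
    exact cl_zero 3 _ ⟨F₀, hF₀⟩ ((xi_iter 3 (I + 1) ⟨F₀, hF₀⟩).2 hcol)
  have hper := pow_period 3 hDe hI11
  have hL : Lb 𝓕 3 (cl 3 (xi : TY 𝓕) ^ (D + 1 - k) * cl 3 (xi : TY 𝓕) ^ k) ≠ 0 := by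
    rw [← pow_add, Nat.sub_add_cancel (by omega : k ≤ D + 1),
      pow_eq_self (Nat.one_le_pow _ _ (by norm_num)) hper (D + 1) (by omega)
        (by
          have h3 : D + 1 ≡ 0 + 1 [MOD D] :=
            Nat.ModEq.add_right _ ((Nat.modEq_zero_iff_dvd).2 dvd_rfl)
          rw [zero_add] at h3
          exact h3), Lb_cl 3 _ hU]
    exact one_ne_zero
  have hσF : σ = ∑ j : Fin k, ℓ j := sum_get ell L'
  refine no_ne' (p := 2) (q := 3) (Or.inr rfl) hb' h0' ⟨F₀, hF₀⟩ hcol 16 (by norm_num) (by norm_num)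
    3 hI11 17720 (D + 1 - k) k M j₀ M₂ (by omega) hM1 hM3 ℓ hinj hℓb
    (fun j => lt_trans (by norm_num) (hℓb j)) w
    (fun j => ?_) (cl 3 (xi : TY 𝓕)) (fun j => ?_) hL n ?_ hNE
  · refine orderOf_dvd_iff_pow_eq_one.1 ?_
    rw [hw]
    exact pow_dvd_pow _ (Ks_bounds _ (hℓmem j)).2
  · exact zc_eq_xi 3 hb' ⟨F₀, hF₀⟩ (hℓb j) (w j)
      (closure_top (ℓ := ℓ j) (K := L'.get j) rfl (w j) (hw j))
  · rw [← hσF]
    have h3 : (2 : ℕ) ^ 16 = 65536 := by norm_num
    have h4 : (2 : ℕ) - 1 = 1 := rfl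
    rw [h3, h4, ← hM2]
    omega

end Pool.Agent.V5helper66.Karp
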