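import Mathlib
import Pool.Agent.Helper923.PNTQ

set_option autoImplicit false

/-! Primes in a residue class in `(X, 2 X]`, lower bound. -/

namespace Pool.Agent.V5helper66.Karp

open Finset Filter Topology ArithmeticFunction

/-- the primes in `(X, 2 X]` congruent to `a` modulo `q` -/
def PI (q a X : ℕ) : Finset ℕ :=
  (Ioc X (2 * X)).filter (fun p => p.Prime ∧ p ≡ a [MOD q])

theorem class_sum_le (q a X : ℕ) (hX : 1 ≤ X) :
    ∑ k ∈ Ioc X (2 * X), vonMangoldt.residueClass (a : ZMod q) k ≤
      ((PI q a X).card : ℝ) * Real.log (2 * X) +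
        (Chebyshev.psi ((2 * X : ℕ) : ℝ) - Chebyshev.theta ((2 * X : ℕ) : ℝ)) := by
  classical
  have h1 : ∀ k ∈ Ioc X (2 * X), vonMangoldt.residueClass (a : ZMod q) k ≤
      (if k.Prime ∧ k ≡ a [MOD q] then Real.log (2 * X) else 0) +
        (vonMangoldt k - if k.Prime then Real.log k else 0) := by
    intro k hk
    rw [mem_Ioc] at hk
    have hk0 : (0 : ℝ) < k := by
      have : 0 < k := by omega
      exact_mod_cast this
    have hk2 : (k : ℝ) ≤ 2 * X := by exact_mod_cast hk.2
    have hl : Real.log k ≤ Real.log (2 * X) := Real.log_le_log hk0 hk2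
    have h2 := vonMangoldt.residueClass_le (a : ZMod q) k
    by_cases hp : k.Prime
    · rw [if_pos hp, vonMangoldt_apply_prime hp]
      by_cases hc : k ≡ a [MOD q]
      · rw [if_pos ⟨hp, hc⟩]
        rw [vonMangoldt_apply_prime hp] at h2
        linarith
      · rw [if_neg (fun h => hc h.2)]
        have h3 : vonMangoldt.residueClass (a : ZMod q) k = 0 := by
          apply Set.indicator_of_notMem
          intro h
          exact hc ((ZMod.natCast_eq_natCast_iff _ _ _).1 h)
        rw [h3]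
        simp
    · rw [if_neg hp, if_neg (fun h => hp h.1), sub_zero, zero_add]
      exact h2
  refine (sum_le_sum h1).trans ?_
  rw [sum_add_distrib]
  apply add_le_add
  · rw [← sum_filter, sum_const, nsmul_eq_mul]
    exact le_of_eq rfl
  · have h3 : Chebyshev.psi ((2 * X : ℕ) : ℝ) - Chebyshev.theta ((2 * X : ℕ) : ℝ) =
        ∑ k ∈ Ioc 0 (2 * X), (vonMangoldt k - if k.Prime then Real.log k else 0) := by
      rw [sum_sub_distrib, ← sum_filter]
      unfold Chebyshev.psi Chebyshev.theta
      rw [Nat.floor_natCast]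
    rw [h3]
    apply sum_le_sum_of_subset_of_nonneg
    · intro k hk
      rw [mem_Ioc] at hk ⊢
      omega
    · intro k _ _
      by_cases hp : k.Prime
      · rw [if_pos hp, vonMangoldt_apply_prime hp, sub_self]
      · rw [if_neg hp, sub_zero]
        exact vonMangoldt_nonneg

theorem ap_lower (q a : ℕ) (hq : 0 < q) (ha : a.Coprime q) :
    ∃ X₀ : ℕ, ∀ X : ℕ, X₀ ≤ X →
      (X : ℝ) / (2 * q.totient) ≤ ((PI q a X).card : ℝ) * Real.log (2 * X) := by
  classical
  have hne : NeZero q := ⟨hq.ne'⟩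
  have hφ : (0 : ℝ) < (q.totient : ℝ) := by exact_mod_cast Nat.totient_pos.2 hq
  have hu : IsUnit ((a : ℕ) : ZMod q) := (ZMod.isUnit_iff_coprime a q).2 ha
  set S : ℕ → ℝ := fun N => ∑ k ∈ Icc 1 N, vonMangoldt.residueClass (a : ZMod q) k with hS
  have h0 := (Pool.Agent.Helper923.H403.PNT602.pnt_residueClass hu).comp
    tendsto_natCast_atTop_atTop
  set c : ℝ := (q.totient : ℝ)⁻¹ with hc
  have hc0 : 0 < c := inv_pos.2 hφ
  have h1 := h0.eventually (Ioo_mem_nhds (show c - c / 24 < c by linarith)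
    (show c < c + c / 24 by linarith))
  have h2 : Tendsto (fun x : ℝ => Chebyshev.psi x / x - Chebyshev.theta x / x) atTop (𝓝 0) := by
    have := Pool.Agent.Helper923.H403.PNT602.psi_div_tendsto.sub
      Pool.Agent.Helper923.H403.PNT602.theta_div_tendsto
    rwa [sub_self] at this
  have h3 := (h2.comp tendsto_natCast_atTop_atTop).eventually
    (gt_mem_nhds (show (0 : ℝ) < c / 16 by linarith))
  obtain ⟨N₁, hN₁⟩ := eventually_atTop.1 h1
  obtain ⟨N₂, hN₂⟩ := eventually_atTop.1 h3
  refine ⟨max (max N₁ N₂) 1, fun X hX => ?_⟩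
  have hX1 : N₁ ≤ X := ((le_max_left _ _).trans (le_max_left _ _)).trans hX
  have hX2 : N₂ ≤ X := ((le_max_right _ _).trans (le_max_left _ _)).trans hX
  have hX3 : 1 ≤ X := (le_max_right _ _).trans hX
  have hX0 : (0 : ℝ) < X := by exact_mod_cast hX3
  have e1 := hN₁ X hX1
  have e2 := hN₁ (2 * X) (by omega)
  have e3 := hN₂ (2 * X) (by omega)
  simp only [Function.comp, Nat.floor_natCast, Set.mem_Ioo] at e1 e2 e3
  have f1 : S X < (c + c / 24) * X := by
    have := e1.2
    rwa [div_lt_iff₀ hX0] at this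
  have hX20 : (0 : ℝ) < ((2 * X : ℕ) : ℝ) := by push_cast; linarith
  have f2 : (c - c / 24) * ((2 * X : ℕ) : ℝ) < S (2 * X) := by
    have := e2.1
    rwa [lt_div_iff₀ hX20] at this
  have f3 : Chebyshev.psi ((2 * X : ℕ) : ℝ) - Chebyshev.theta ((2 * X : ℕ) : ℝ) <
      c / 16 * ((2 * X : ℕ) : ℝ) := by
    rw [← sub_div, div_lt_iff₀ hX20] at e3
    exact e3
  have f4 : S (2 * X) - S X = ∑ k ∈ Ioc X (2 * X), vonMangoldt.residueClass (a : ZMod q) k := by
    have : Icc 1 (2 * X) = Icc 1 X ∪ Ioc X (2 * X) := by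
      ext k
      simp only [mem_Icc, mem_union, mem_Ioc]
      omega
    have hd : Disjoint (Icc 1 X) (Ioc X (2 * X)) := by
      rw [Finset.disjoint_left]
      intro k hk hk'
      rw [mem_Icc] at hk
      rw [mem_Ioc] at hk'
      omega
    rw [hS]
    simp only
    rw [this, sum_union hd]
    ring
  have f5 := class_sum_le q a X hX3
  rw [← f4] at f5
  have f6 : (X : ℝ) / (2 * q.totient) = c * X / 2 := by
    rw [hc]
    field_simp
  rw [f6]
  push_cast at f2 f3 f5
  nlinarith

end Pool.Agent.V5helper66.Karp
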