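import Mathlib
import Pool.Agent.Helper602.MK.J3
import Pool.Agent.V5helper66.Karp.ApLow

set_option autoImplicit false

/-! Primes in a residue class in `(X, 2 X]`, upper bounds. -/

namespace Pool.Agent.V5helper66.Karp

open Finset

theorem exists_inj (Q c X : ℕ) (S : Finset ℕ)
    (hS : ∀ p ∈ S, X < p ∧ p ≤ 2 * X ∧ p ≡ c [MOD Q]) :
    ∃ a : ℕ, ∃ f : ℕ → ℕ, Set.InjOn f S ∧ (∀ p ∈ S, f p < X / Q + 1 ∧ a + f p * Q = p) := by
  classical
  rcases S.eq_empty_or_nonempty with rfl | hne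
  · exact ⟨0, id, by simp, by simp⟩
  set a := S.min' hne with ha
  have haS : a ∈ S := S.min'_mem hne
  refine ⟨a, fun p => (p - a) / Q, ?_, ?_⟩
  · intro p hp p' hp' h
    have key : ∀ x ∈ S, a + (x - a) / Q * Q = x := by
      intro x hx
      have hax : a ≤ x := S.min'_le x hx
      have hd : Q ∣ x - a := by
        have h1 : a ≡ x [MOD Q] := (hS a haS).2.2.trans (hS x hx).2.2.symm
        exact (Nat.modEq_iff_dvd' hax).1 h1
      rw [Nat.div_mul_cancel hd]
      omega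
    have h1 := key p hp
    have h2 := key p' hp'
    simp only at h
    rw [← h1, ← h2, h]
  · intro x hx
    have hax : a ≤ x := S.min'_le x hx
    have hd : Q ∣ x - a := by
      have h1 : a ≡ x [MOD Q] := (hS a haS).2.2.trans (hS x hx).2.2.symm
      exact (Nat.modEq_iff_dvd' hax).1 h1
    refine ⟨?_, ?_⟩
    · rw [Nat.lt_succ_iff]
      apply Nat.div_le_div_right
      have h1 := (hS a haS).1
      have h2 := (hS x hx).2.1
      omega
    · rw [Nat.div_mul_cancel hd]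
      omega

/-- the trivial bound -/
theorem class_card_le (Q c X : ℕ) (hQ : 1 ≤ Q) (S : Finset ℕ)
    (hS : ∀ p ∈ S, X < p ∧ p ≤ 2 * X ∧ p ≡ c [MOD Q]) : S.card ≤ X / Q + 1 := by
  classical
  obtain ⟨a, f, hf, h⟩ := exists_inj Q c X S hS
  have h1 : S.card ≤ (range (X / Q + 1)).card := by
    refine card_le_card_of_injOn f ?_ hf
    intro p hp
    rw [Finset.mem_coe, mem_range]
    exact (h p hp).1
  rwa [card_range] at h1

theorem ap_upper : ∃ C : ℝ, 1 ≤ C ∧ ∀ (Q c X : ℕ), 1 ≤ Q → 2 ≤ X / Q + 1 →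
    ((PI Q c X).card : ℝ) ≤ C * ((Q : ℝ) / (Nat.totient Q : ℝ)) * ((X / Q + 1 : ℕ) : ℝ) /
      Real.log ((X / Q + 1 : ℕ) : ℝ) := by
  classical
  obtain ⟨C, hC, h⟩ := Pool.Agent.Helper602.MK.BTLib.brun_titchmarsh
  refine ⟨C, hC, fun Q c X hQ hX => ?_⟩
  have hS : ∀ p ∈ PI Q c X, X < p ∧ p ≤ 2 * X ∧ p ≡ c [MOD Q] := by
    intro p hp
    unfold PI at hp
    rw [mem_filter, mem_Ioc] at hp
    exact ⟨hp.1.1, hp.1.2, hp.2.2⟩
  obtain ⟨a, f, hf, h1⟩ := exists_inj Q c X _ hS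
  refine le_trans ?_ (h a Q (X / Q + 1) hQ hX)
  have h2 : (PI Q c X).card ≤ ((range (X / Q + 1)).filter (fun k => (a + k * Q).Prime)).card := by
    refine card_le_card_of_injOn f ?_ hf
    intro p hp
    rw [Finset.mem_coe, mem_filter, mem_range]
    refine ⟨(h1 p hp).1, ?_⟩
    rw [(h1 p hp).2]
    unfold PI at hp
    rw [Finset.mem_coe, mem_filter] at hp
    exact hp.2.1
  exact_mod_cast h2

end Pool.Agent.V5helper66.Karp
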