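import Mathlib
import Pool.Agent.TH410.KV.CubMain

set_option autoImplicit false
set_option linter.unusedSectionVars false

/-! The criterion for equal field blocks together with a permutation of the blocks. -/

namespace Pool.Agent.V5helper66.Karp

open Finset Pool.Agent.H98R2.Ev Pool.Agent.H98R2.Nb Pool.Agent.TH410.KV

section Perm

variable {ι F : Type} [Field F]

/-- independent translations of the blocks -/
def trb (t : ι → F) : Equiv.Perm (ι × F) :=
  Equiv.prodShear (Equiv.refl ι) (fun i => Equiv.addRight (t i))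

theorem trb_apply (t : ι → F) (i : ι) (x : F) : trb t (i, x) = (i, x + t i) := rfl

/-- a permutation of the blocks composed with multiplications -/
def cyb (τ : Equiv.Perm ι) (μ : ι → Fˣ) : Equiv.Perm (ι × F) :=
  Equiv.prodShear τ (fun i => Units.mulLeft (μ i))

theorem cyb_apply (τ : Equiv.Perm ι) (μ : ι → Fˣ) (i : ι) (x : F) :
    cyb τ μ (i, x) = (τ i, (μ i : F) * x) := rfl

theorem trb_pow (t : ι → F) (m : ℕ) (i : ι) (x : F) :
    ((trb t) ^ m) (i, x) = (i, x + m * t i) := by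
  induction m with
  | zero => simp
  | succ m ih =>
    rw [pow_succ', Equiv.Perm.mul_apply, ih, trb_apply]
    push_cast
    rw [add_mul, one_mul, add_assoc]

theorem cyb_pow (τ : Equiv.Perm ι) (μ : ι → Fˣ) (m : ℕ) (i : ι) (x : F) :
    ((cyb τ μ) ^ m) (i, x) = ((τ ^ m) i, (∏ j ∈ range m, (μ ((τ ^ j) i) : F)) * x) := by
  induction m with
  | zero => simp
  | succ m ih =>
    rw [pow_succ', Equiv.Perm.mul_apply, ih, cyb_apply, prod_range_succ, pow_succ' τ,
      Equiv.Perm.mul_apply]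
    congr 1
    ring

theorem conj_trb (τ : Equiv.Perm ι) (μ : ι → Fˣ) (t : ι → F) :
    (cyb τ μ)⁻¹ * trb t * cyb τ μ = trb (fun i => ((μ i)⁻¹ : Fˣ) * t (τ i)) := by
  apply Equiv.ext
  rintro ⟨i, x⟩
  rw [Equiv.Perm.mul_apply, Equiv.Perm.mul_apply, Equiv.Perm.inv_eq_iff_eq, cyb_apply, trb_apply,
    trb_apply, cyb_apply]
  congr 1
  rw [mul_add, ← mul_assoc, Units.mul_inv, one_mul]

theorem inv_pow {V : Type} {s : Equiv.Perm V} {G : SimpleGraph V} (h : Inv s G) (m : ℕ) :
    Inv (s ^ m) G := by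
  induction m with
  | zero => intro x y hxy; exact hxy
  | succ m ih =>
    intro x y hxy
    rw [pow_succ', Equiv.Perm.mul_apply, Equiv.Perm.mul_apply]
    exact h _ _ (ih x y hxy)

theorem cross_all {G : SimpleGraph (ι × F)} (hG : ∀ t : ι → F, Inv (trb t) G) {i j : ι}
    (hij : i ≠ j) {x y : F} (h : G.Adj (i, x) (j, y)) (x' y' : F) :
    G.Adj (i, x') (j, y') := by
  classical
  have h1 := hG (fun k => if k = i then x' - x else y' - y) _ _ h
  rw [trb_apply, trb_apply, if_pos rfl, if_neg hij.symm] at h1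
  simpa using h1

theorem inner_all {G : SimpleGraph (ι × F)} (hG : ∀ t : ι → F, Inv (trb t) G) {i : ι}
    {s : Equiv.Perm (ι × F)} {g : Fˣ} (hg : ∀ u : Fˣ, ∃ k : ℕ, u = g ^ k)
    (hs : Inv s G) (hsi : ∀ x, s (i, x) = (i, (g : F) * x)) {x y : F} (h : G.Adj (i, x) (i, y))
    (x' y' : F) (hne : x' ≠ y') : G.Adj (i, x') (i, y') := by
  classical
  have hxy : x ≠ y := fun h' => h.ne (by rw [h'])
  have h1 := hG (fun _ => -x) _ _ h
  rw [trb_apply, trb_apply] at h1
  have h2 : ∀ k : ℕ, (s ^ k) (i, (0 : F)) = (i, 0) ∧ ∀ z, (s ^ k) (i, z) = (i, (g : F) ^ k * z) := by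
    intro k
    have h3 : ∀ z, (s ^ k) (i, z) = (i, (g : F) ^ k * z) := by
      induction k with
      | zero => intro z; simp
      | succ k ih =>
        intro z
        rw [pow_succ', Equiv.Perm.mul_apply, ih, hsi, pow_succ']
        congr 1
        ring
    exact ⟨by rw [h3, mul_zero], h3⟩
  obtain ⟨k, hk⟩ := hg (Units.mk0 ((y' - x') / (y - x))
    (div_ne_zero (sub_ne_zero.2 hne.symm) (sub_ne_zero.2 hxy.symm)))
  have hk' : (y' - x') / (y - x) = (g : F) ^ k := by
    have := congrArg (fun u : Fˣ => (u : F)) hk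
    simpa using this
  have h4 := inv_pow hs k _ _ h1
  rw [(h2 k).2, (h2 k).2] at h4
  have h5 := hG (fun _ => x') _ _ h4
  rw [trb_apply, trb_apply] at h5
  have e1 : (g : F) ^ k * (x + -x) + x' = x' := by ring
  have e2 : (g : F) ^ k * (y + -x) + x' = y' := by
    rw [← hk']
    have : y - x ≠ 0 := sub_ne_zero.2 hxy.symm
    field_simp
    ring
  rwa [e1, e2] at h5

end Perm

section Has

variable {ι F : Type} {𝓕 : Pool.Agent.TH410.KV.Fam}

theorem has_of_complete (F₀ : 𝓕) [Fintype F] (hb : F₀.1.1 ≤ Fintype.card F)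
    (G : SimpleGraph (ι × F)) (i : ι) (h : ∀ x y : F, x ≠ y → G.Adj (i, x) (i, y)) : Has 𝓕 G := by
  have hemb : Nonempty (Fin F₀.1.1 ↪ F) :=
    Function.Embedding.nonempty_of_card_le (by rwa [Fintype.card_fin])
  obtain ⟨e⟩ := hemb
  refine ⟨F₀.1, F₀.2, ⟨⟨⟨fun x => (i, e x), fun {x y} hxy => h _ _ ?_⟩, ?_⟩⟩⟩
  · intro h'
    exact hxy.ne (e.injective h')
  · intro x y hxy
    exact e.injective (Prod.mk.inj hxy).2

theorem has_comap_iff [Fintype F] (hb : ∀ H : 𝓕, H.1.1 ≤ Fintype.card F) (H : SimpleGraph ι) :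
    Has 𝓕 (H.comap (Prod.fst : ι × F → ι)) ↔ Bad (fun _ : ι => (xi : TY 𝓕)) H := by
  classical
  constructor
  · rintro ⟨K, hK, ⟨f⟩⟩
    refine ⟨⟨K, hK⟩, fun x => (f x).1, fun v => ?_, fun x y hxy _ => ?_⟩
    · intro x hx y hy hxy
      rw [mem_filter] at hx hy
      have h1 : H.Adj (f x).1 (f y).1 := f.toHom.map_adj hxy
      have hx2 : (f x).1 = v := hx.2
      have hy2 : (f y).1 = v := hy.2
      rw [hx2, hy2] at h1
      exact H.loopless.irrefl _ h1
    · exact f.toHom.map_adj hxy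
  · rintro ⟨K, κ, h1, h2⟩
    have hemb : Nonempty (Fin K.1.1 ↪ F) :=
      Function.Embedding.nonempty_of_card_le (by rw [Fintype.card_fin]; exact hb K)
    obtain ⟨e⟩ := hemb
    refine ⟨K.1, K.2, ⟨⟨⟨fun x => (κ x, e x), fun {x y} hxy => ?_⟩, ?_⟩⟩⟩
    · change H.Adj (κ x) (κ y)
      refine h2 x y hxy (fun h => ?_)
      exact h1 (κ x) x (by simp) y (by simp [h]) hxy
    · intro x y hxy
      exact e.injective (Prod.mk.inj hxy).2

end Has

section Crit

variable {ι F : Type} [Fintype ι] [DecidableEq ι] [Field F] [Fintype F] [DecidableEq F]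
  {Ω : Type} [Fintype Ω] [DecidableEq Ω]

/-- **The criterion.** -/
theorem crit_tau (p q : ℕ) [Fact p.Prime] [Fact q.Prime] [CharP F p]
    {𝓕 : Pool.Agent.TH410.KV.Fam} (F₀ : 𝓕) (hb : ∀ H : 𝓕, H.1.1 ≤ Fintype.card F)
    (h0 : ∀ H ∈ 𝓕, ¬ H.2.Colorable 1) (τ : Equiv.Perm ι) (μ : ι → Fˣ) (g : Fˣ)
    (hg : ∀ u : Fˣ, ∃ k : ℕ, u = g ^ k)
    (hμ : ∀ i, ∃ m : ℕ, (τ ^ m) i = i ∧ ∏ j ∈ range m, μ ((τ ^ j) i) = g)
    (orb : EV ι → Ω) (horb : ∀ e, orb (ev15 τ e) = orb e) (hsurj : Function.Surjective orb)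
    (htr : ∀ e e', orb e = orb e' → ∃ k : ℕ, e'.1 = Sym2.map (τ ^ k : Equiv.Perm ι) e.1)
    (hne : NE (univ : Finset (EV (ι × F))) (fun S => ¬ Has 𝓕 (toG S))) :
    ∑ A : Finset Ω, ind q (fun _ : ι => (xi : TY 𝓕)) (toG (pre orb A)) * (-1) ^ A.card = 0 := by
  classical
  have key : ∀ A : Finset Ω, ∀ i j : ι, i ≠ j → ∀ h : ¬ (s(i, j) : Sym2 ι).IsDiag,
      ((toG (pre orb A)).Adj i j ↔ orb ⟨s(i, j), h⟩ ∈ A) := by
    intro A i j _ h
    rw [toG_adj]
    constructor
    · rintro ⟨h', h1⟩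
      rwa [mem_pre] at h1
    · intro h1
      exact ⟨h, by rwa [mem_pre]⟩
  have hcrit := GC.graph_criterion (V := ι × F) (fun G => ¬ Has 𝓕 G)
    (fun G G' hGG' hP h => hP (Has.mono' h (SimpleGraph.IsContained.of_le hGG')))
    (fun s G hP h => hP (Has.mono' h ⟨(SimpleGraph.Iso.map s G).symm.toCopy⟩))
    (not_has_bot' h0) hne p q 0 (fun t : ι → F => trb t) (cyb τ μ) 1
    (by
      intro s t
      apply Equiv.ext
      rintro ⟨i, x⟩
      rw [Equiv.Perm.mul_apply, Equiv.Perm.mul_apply, trb_apply, trb_apply, trb_apply, trb_apply]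
      congr 1
      ring)
    (by
      intro t
      apply Equiv.ext
      rintro ⟨i, x⟩
      rw [trb_pow, CharP.cast_eq_zero, zero_mul, add_zero, Equiv.Perm.one_apply])
    (by simp) (by intro t; simp)
    (by
      intro G hG t
      rw [conj_trb]
      exact hG _)
    (by
      intro G _ hG
      simpa using hG)
    (fun A : Finset Ω => (toG (pre orb A)).comap Prod.fst)
    (by
      intro A B
      constructor
      · intro h ω hω
        obtain ⟨⟨e, he⟩, rfl⟩ := hsurj ω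
        induction e using Sym2.ind with
        | _ i j =>
        have hij : i ≠ j := fun h' => he (Sym2.mk_isDiag_iff.2 h')
        have h1 : ((toG (pre orb A)).comap (Prod.fst : ι × F → ι)).Adj (i, 0) (j, 0) :=
          (key A i j hij he).2 hω
        exact (key B i j hij he).1 (h h1)
      · intro h x y hxy
        change (toG (pre orb A)).Adj x.1 y.1 at hxy
        change (toG (pre orb B)).Adj x.1 y.1
        have hij : x.1 ≠ y.1 := hxy.ne
        have he : ¬ (s(x.1, y.1) : Sym2 ι).IsDiag := fun h' => hij (Sym2.mk_isDiag_iff.1 h')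
        exact (key B _ _ hij he).2 (h ((key A _ _ hij he).1 hxy)))
    (fun A t x y hxy => hxy)
    (by
      rintro A ⟨i, x⟩ ⟨j, y⟩ hxy
      change (toG (pre orb A)).Adj i j at hxy
      change (toG (pre orb A)).Adj (τ i) (τ j)
      have hij : i ≠ j := hxy.ne
      have he : ¬ (s(i, j) : Sym2 ι).IsDiag := fun h' => hij (Sym2.mk_isDiag_iff.1 h')
      have hij' : τ i ≠ τ j := fun h' => hij (τ.injective h')
      have he' : ¬ (s(τ i, τ j) : Sym2 ι).IsDiag := fun h' => hij' (Sym2.mk_isDiag_iff.1 h')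
      rw [key A _ _ hij' he']
      rw [key A _ _ hij he] at hxy
      have e1 : (⟨s(τ i, τ j), he'⟩ : EV ι) = ev15 τ ⟨s(i, j), he⟩ := rfl
      rw [e1, horb]
      exact hxy)
    (fun A x y hxy => hxy)
    (by
      intro G hP hG1 hG2 _
      have hinner : ∀ i (x y : F), ¬ G.Adj (i, x) (i, y) := by
        intro i x y hxy
        obtain ⟨m, hm1, hm2⟩ := hμ i
        refine hP (has_of_complete F₀ (hb F₀) G i fun x' y' hne' => ?_)
        refine inner_all hG1 hg (inv_pow hG2 m) (fun z => ?_) hxy x' y' hne'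
        rw [cyb_pow, hm1, ← hm2]
        simp
      refine ⟨univ.filter (fun ω => ∃ (i j : ι) (h : ¬ (s(i, j) : Sym2 ι).IsDiag),
        orb ⟨s(i, j), h⟩ = ω ∧ ∃ x y : F, G.Adj (i, x) (j, y)), ?_⟩
      ext ⟨i, x⟩ ⟨j, y⟩
      change (toG (pre orb _)).Adj i j ↔ _
      constructor
      · intro hxy
        have hij : i ≠ j := hxy.ne
        have he : ¬ (s(i, j) : Sym2 ι).IsDiag := fun h' => hij (Sym2.mk_isDiag_iff.1 h')
        rw [key _ _ _ hij he, mem_filter] at hxy
        obtain ⟨_, i', j', he', ho, x', y', hadj⟩ := hxy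
        obtain ⟨k, hk⟩ := htr _ _ ho
        change s(i, j) = Sym2.map _ s(i', j') at hk
        rw [Sym2.map_mk] at hk
        have h1 := inv_pow hG2 k _ _ hadj
        rw [cyb_pow, cyb_pow] at h1
        rcases Sym2.eq_iff.1 hk with ⟨h2, h3⟩ | ⟨h2, h3⟩
        · rw [← h2, ← h3] at h1
          exact cross_all hG1 hij h1 x y
        · rw [← h2, ← h3] at h1
          exact (cross_all hG1 hij.symm h1 y x).symm
      · intro hxy
        have hij : i ≠ j := by
          rintro rfl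
          exact hinner i x y hxy
        have he : ¬ (s(i, j) : Sym2 ι).IsDiag := fun h' => hij (Sym2.mk_isDiag_iff.1 h')
        rw [key _ _ _ hij he, mem_filter]
        exact ⟨mem_univ _, i, j, he, rfl, x, y, hxy⟩)
  have h1 := (ZMod.intCast_zmod_eq_zero_iff_dvd _ q).2 hcrit
  rw [Int.cast_sum] at h1
  rw [← h1]
  refine Finset.sum_congr rfl fun A _ => ?_
  unfold ind
  have h2 := has_comap_iff (F := F) (𝓕 := 𝓕) hb (toG (pre orb A))
  by_cases h3 : Bad (fun _ : ι => (xi : TY 𝓕)) (toG (pre orb A))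
  · rw [if_pos h3, zero_mul, if_neg (not_not.2 (h2.2 h3)), Int.cast_zero]
  · rw [if_neg h3, one_mul, if_pos (fun h => h3 (h2.1 h))]
    push_cast
    rfl

/-- transport of the decision tree -/
theorem ne_transport {n : ℕ} {V : Type} [Fintype V] [DecidableEq V] (hn : n = Fintype.card V)
    (𝓕 : Pool.Agent.TH410.KV.Fam)
    (hne : NE (univ : Finset (EV (Fin n))) (fun S => ¬ Has 𝓕 (toG S))) :
    NE (univ : Finset (EV V)) (fun S => ¬ Has 𝓕 (toG S)) := by
  classical
  let E : Fin n ≃ V := Fintype.equivOfCardEq (by rw [Fintype.card_fin, hn])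
  have hNE2 := ne_map15 (ev15 E) _ _ hne
  rw [Finset.map_univ_equiv] at hNE2
  have h1 : (fun S : Finset (EV V) => ¬ Has 𝓕 (toG S)) =
      (fun S => ¬ Has 𝓕 (toG (S.map (ev15 E).symm.toEmbedding))) := by
    funext S
    have h1 : toG (S.map (ev15 E).symm.toEmbedding) = (toG S).map E.symm.toEmbedding :=
      toG_map15 E.symm S
    rw [h1]
    apply propext
    rw [not_iff_not]
    exact ⟨fun h => Has.mono' h ⟨(SimpleGraph.Iso.map E.symm (toG S)).toCopy⟩,
      fun h => Has.mono' h ⟨(SimpleGraph.Iso.map E.symm (toG S)).symm.toCopy⟩⟩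
  rw [h1]
  exact hNE2

end Crit

end Pool.Agent.V5helper66.Karp
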