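import Mathlib

set_option autoImplicit false

/-! The prime factors of the Fermat numbers have a convergent sum of reciprocals. -/

namespace Pool.Agent.V5helper66.Karp

open Finset

theorem sum_inv_le (K : Finset ℕ) (hK : ∀ k ∈ K, 1 ≤ k) (c : ℕ) (hc : 1 ≤ c)
    (hcard : K.card ≤ c) : ∑ k ∈ K, (1 : ℝ) / k ≤ 2 + Real.log c := by
  classical
  have hc0 : (0 : ℝ) < c := by exact_mod_cast hc
  rw [← sum_filter_add_sum_filter_not K (fun k => k ≤ c)]
  have h1 : ∑ k ∈ K.filter (fun k => k ≤ c), (1 : ℝ) / k ≤ 1 + Real.log c := by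
    refine le_trans ?_ (harmonic_le_one_add_log c)
    rw [harmonic_eq_sum_Icc]
    push_cast
    have h2 : ∑ k ∈ K.filter (fun k => k ≤ c), (1 : ℝ) / k ≤ ∑ k ∈ Icc 1 c, (1 : ℝ) / k := by
      apply sum_le_sum_of_subset_of_nonneg
      · intro k hk
        rw [mem_filter] at hk
        rw [mem_Icc]
        exact ⟨hK k hk.1, hk.2⟩
      · intro k _ _
        positivity
    refine h2.trans (le_of_eq (sum_congr rfl fun k _ => ?_))
    rw [one_div]
  have h3 : ∑ k ∈ K.filter (fun k => ¬ k ≤ c), (1 : ℝ) / k ≤ 1 := by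
    have h4 : ∑ k ∈ K.filter (fun k => ¬ k ≤ c), (1 : ℝ) / k ≤
        ∑ k ∈ K.filter (fun k => ¬ k ≤ c), (1 : ℝ) / c := by
      apply sum_le_sum
      intro k hk
      rw [mem_filter] at hk
      apply one_div_le_one_div_of_le hc0
      have : c ≤ k := by omega
      exact_mod_cast this
    refine h4.trans ?_
    rw [sum_const, nsmul_eq_mul, mul_one_div, div_le_one hc0]
    have h5 : (K.filter (fun k => ¬ k ≤ c)).card ≤ c := (card_filter_le _ _).trans hcard
    exact_mod_cast h5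
  linarith

theorem card_fermat (j : ℕ) : (Nat.fermatNumber j).primeFactors.card ≤ 2 ^ j := by
  have h1 : 2 ^ (Nat.fermatNumber j).primeFactors.card ≤ ∏ p ∈ (Nat.fermatNumber j).primeFactors, p :=
    Finset.pow_card_le_prod _ _ _ fun p hp => (Nat.prime_of_mem_primeFactors hp).two_le
  have h2 : ∏ p ∈ (Nat.fermatNumber j).primeFactors, p ≤ Nat.fermatNumber j :=
    Nat.le_of_dvd (by have := Nat.three_le_fermatNumber j; omega) (Nat.prod_primeFactors_dvd _)
  have h3 : Nat.fermatNumber j < 2 ^ (2 ^ j + 1) := by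
    unfold Nat.fermatNumber
    rw [pow_succ]
    have h4 : 1 < 2 ^ 2 ^ j := Nat.one_lt_pow (pow_ne_zero _ (by norm_num)) (by norm_num)
    omega
  have h5 := (Nat.pow_lt_pow_iff_right (by norm_num : 1 < 2)).1 (lt_of_le_of_lt (h1.trans h2) h3)
  omega

theorem fermat_sum (j : ℕ) (hj : 2 ≤ j) :
    ∑ l ∈ (Nat.fermatNumber j).primeFactors, (1 : ℝ) / ((l : ℝ) - 1) ≤
      ((j : ℝ) + 2) / 2 ^ (j + 2) := by
  classical
  set S := (Nat.fermatNumber j).primeFactors with hS
  have hk : ∀ l ∈ S, ∃ k : ℕ, 1 ≤ k ∧ l = k * 2 ^ (j + 2) + 1 := by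
    intro l hl
    have hp := Nat.prime_of_mem_primeFactors hl
    have hd := Nat.dvd_of_mem_primeFactors hl
    have h2 : l ≠ 2 := by
      rintro rfl
      have := Nat.odd_fermatNumber j
      rw [Nat.odd_iff] at this
      omega
    obtain ⟨k, hk⟩ := Nat.fermat_primeFactors_one_lt j l (by omega) hp hd
    refine ⟨k, ?_, hk⟩
    rcases Nat.eq_zero_or_pos k with rfl | h
    · rw [zero_mul, zero_add] at hk
      exact absurd hk hp.one_lt.ne'
    · exact h
  choose! κ hκ1 hκ2 using hk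
  have hinj : Set.InjOn κ S := by
    intro a ha b hb h
    rw [hκ2 a ha, hκ2 b hb, h]
  have h1 : ∑ l ∈ S, (1 : ℝ) / ((l : ℝ) - 1) = (1 / 2 ^ (j + 2)) * ∑ k ∈ S.image κ, (1 : ℝ) / k := by
    rw [sum_image hinj, mul_sum]
    refine sum_congr rfl fun l hl => ?_
    have h2 : (l : ℝ) = κ l * 2 ^ (j + 2) + 1 := by exact_mod_cast hκ2 l hl
    rw [h2, add_sub_cancel_right]
    have h3 : (0 : ℝ) < κ l := by exact_mod_cast hκ1 l hl
    field_simp
  rw [h1]
  have h4 : ∑ k ∈ S.image κ, (1 : ℝ) / k ≤ 2 + Real.log ((2 ^ j : ℕ) : ℝ) := by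
    refine sum_inv_le _ ?_ _ (Nat.one_le_two_pow) ?_
    · intro k hk
      rw [mem_image] at hk
      obtain ⟨l, hl, rfl⟩ := hk
      exact hκ1 l hl
    · exact card_image_le.trans (card_fermat j)
  have h5 : Real.log ((2 ^ j : ℕ) : ℝ) ≤ j := by
    push_cast
    rw [Real.log_pow]
    have h6 : Real.log 2 ≤ 1 := by
      have := Real.log_two_lt_d9
      linarith
    have h7 : (0 : ℝ) ≤ j := Nat.cast_nonneg j
    nlinarith
  have h8 : (0 : ℝ) < 1 / 2 ^ (j + 2) := by positivity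
  calc 1 / 2 ^ (j + 2) * ∑ k ∈ S.image κ, (1 : ℝ) / k ≤ 1 / 2 ^ (j + 2) * (2 + j) :=
        mul_le_mul_of_nonneg_left (by linarith) h8.le
    _ = _ := by ring

theorem fermat_tail (J : ℕ) (hJ : 2 ≤ J) (e : ℕ) (he : J ≤ e) :
    ∑ j ∈ Ico J e, ∑ l ∈ (Nat.fermatNumber j).primeFactors, (1 : ℝ) / ((l : ℝ) - 1) ≤
      ((J : ℝ) + 3) / 2 ^ (J + 1) - ((e : ℝ) + 3) / 2 ^ (e + 1) := by
  induction e, he using Nat.le_induction with
  | base => simp
  | succ e he ih =>
    rw [sum_Ico_succ_top he]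
    have h1 := fermat_sum e (hJ.trans he)
    have h2 : ((e : ℝ) + 3) / 2 ^ (e + 1) - ((e + 1 : ℕ) + 3 : ℝ) / 2 ^ (e + 1 + 1) =
        ((e : ℝ) + 2) / 2 ^ (e + 2) := by
      have e1 : (2 : ℝ) ^ (e + 1 + 1) = 2 ^ (e + 1) * 2 := pow_succ _ _
      have e2 : (2 : ℝ) ^ (e + 2) = 2 ^ (e + 1) * 2 := pow_succ _ _
      rw [e2]
      push_cast
      field_simp
      ring
    linarith

/-- the primes which divide one of the Fermat numbers `F_j`, `J ≤ j < e` -/
def FP (J e : ℕ) : Finset ℕ := (Ico J e).biUnion fun j => (Nat.fermatNumber j).primeFactors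

theorem fp_card (J e : ℕ) : (FP J e).card ≤ 2 ^ e := by
  unfold FP
  refine card_biUnion_le.trans ?_
  calc ∑ j ∈ Ico J e, (Nat.fermatNumber j).primeFactors.card ≤ ∑ j ∈ Ico J e, 2 ^ j :=
        sum_le_sum fun j _ => card_fermat j
    _ ≤ ∑ j ∈ range e, 2 ^ j := by
        apply sum_le_sum_of_subset
        intro j hj
        rw [mem_Ico] at hj
        rw [mem_range]
        exact hj.2
    _ ≤ 2 ^ e := by
        have := Nat.geomSum_eq (le_refl 2) e
        rw [this]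
        have h : 1 ≤ 2 ^ e := Nat.one_le_two_pow
        have e1 : (2 : ℕ) - 1 = 1 := rfl
        rw [e1, Nat.div_one]
        omega

theorem fp_sum (J : ℕ) (hJ : 2 ≤ J) (e : ℕ) :
    ∑ l ∈ FP J e, (1 : ℝ) / ((l : ℝ) - 1) ≤ ((J : ℝ) + 3) / 2 ^ (J + 1) := by
  classical
  rcases le_or_gt J e with he | he
  · have h1 : ∑ l ∈ FP J e, (1 : ℝ) / ((l : ℝ) - 1) ≤
        ∑ j ∈ Ico J e, ∑ l ∈ (Nat.fermatNumber j).primeFactors, (1 : ℝ) / ((l : ℝ) - 1) := by
      unfold FP
      rw [sum_biUnion]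
      intro i _ j _ hij
      exact (Nat.coprime_fermatNumber_fermatNumber hij).disjoint_primeFactors
    have h2 := fermat_tail J hJ e he
    have h3 : (0 : ℝ) ≤ ((e : ℝ) + 3) / 2 ^ (e + 1) := by positivity
    linarith
  · have h1 : FP J e = ∅ := by
      unfold FP
      rw [Ico_eq_empty (by omega), biUnion_empty]
    rw [h1, sum_empty]
    positivity

end Pool.Agent.V5helper66.Karp
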