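import Mathlib
import Pool.Agent.V5helper66.Karp.ApUp
import Pool.Agent.V5helper66.Karp.Ferm

set_option autoImplicit false

/-! Primes `p` in `(X, 2 X]` with `p - 1` coprime to `2 ^ 2 ^ e - 1`. -/

namespace Pool.Agent.V5helper66.Karp

open Finset Filter Topology

/-- `2 ^ 2 ^ J - 1`, the product of the first `J` Fermat numbers -/
def qJ (J : ℕ) : ℕ := 2 ^ 2 ^ J - 1

theorem qJ_prod (J : ℕ) : qJ J = ∏ k ∈ range J, Nat.fermatNumber k := by
  rw [Nat.prod_fermatNumber]
  unfold qJ Nat.fermatNumber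
  rfl

theorem qJ_pos (J : ℕ) : 0 < qJ J := by
  unfold qJ
  have h4 : 1 < 2 ^ 2 ^ J := Nat.one_lt_pow (pow_ne_zero _ (by norm_num)) (by norm_num)
  omega

theorem two_coprime (J : ℕ) : Nat.Coprime 2 (qJ J) := by
  rw [Nat.coprime_two_left, qJ_prod]
  exact Finset.prod_induction _ Odd (fun a b ha hb => ha.mul hb) odd_one
    (fun k _ => Nat.odd_fermatNumber k)

theorem fp_coprime (J e l : ℕ) (hl : l ∈ FP J e) : l.Prime ∧ Nat.Coprime (qJ J) l := by
  unfold FP at hl
  rw [mem_biUnion] at hl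
  obtain ⟨j, hj, hl⟩ := hl
  rw [mem_Ico] at hj
  have hp := Nat.prime_of_mem_primeFactors hl
  refine ⟨hp, ?_⟩
  rw [qJ_prod]
  apply Nat.Coprime.prod_left
  intro k hk
  rw [mem_range] at hk
  exact Nat.Coprime.coprime_dvd_right (Nat.dvd_of_mem_primeFactors hl)
    (Nat.coprime_fermatNumber_fermatNumber (by omega))

/-- the good primes -/
def GP' (J e X : ℕ) : Finset ℕ :=
  (PI (qJ J) 2 X).filter (fun p => ∀ l ∈ FP J e, ¬ l ∣ p - 1)

theorem gp_coprime (J e X p : ℕ) (hp : p ∈ GP' J e X) :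
    p.Prime ∧ X < p ∧ p ≤ 2 * X ∧ Nat.Coprime (p - 1) (2 ^ 2 ^ e - 1) := by
  classical
  unfold GP' PI at hp
  rw [mem_filter, mem_filter, mem_Ioc] at hp
  obtain ⟨⟨⟨h1, h2⟩, h3, h4⟩, h5⟩ := hp
  refine ⟨h3, h1, h2, ?_⟩
  rw [Nat.coprime_iff_gcd_eq_one]
  by_contra hg
  obtain ⟨l, hl, hld⟩ := Nat.exists_prime_and_dvd hg
  have hl1 : l ∣ p - 1 := hld.trans (Nat.gcd_dvd_left _ _)
  have hl2 : l ∣ qJ e := hld.trans (Nat.gcd_dvd_right _ _)
  rw [qJ_prod] at hl2
  obtain ⟨k, hk, hlk⟩ := (Prime.dvd_finset_prod_iff hl.prime _).1 hl2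
  rw [mem_range] at hk
  rcases lt_or_ge k J with hkJ | hkJ
  · have h6 : l ∣ qJ J := by
      rw [qJ_prod]
      exact hlk.trans (dvd_prod_of_mem _ (mem_range.2 hkJ))
    have h7 : p ≡ 2 [MOD l] := h4.of_dvd h6
    have h8 : p ≡ 1 [MOD l] := by
      have := (Nat.modEq_iff_dvd' h3.one_le).2 hl1
      exact this.symm
    have h9 : 1 ≡ 2 [MOD l] := h8.symm.trans h7
    have h10 : l ∣ 2 - 1 := (Nat.modEq_iff_dvd' (by norm_num)).1 h9
    have := Nat.le_of_dvd (by norm_num) h10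
    have := hl.two_le
    omega
  · refine h5 l ?_ hl1
    unfold FP
    rw [mem_biUnion]
    refine ⟨k, mem_Ico.2 ⟨hkJ, hk⟩, ?_⟩
    rw [Nat.mem_primeFactors]
    exact ⟨hl, hlk, by have := Nat.three_le_fermatNumber k; omega⟩

/-- the primes of the class which are `1` modulo `l` -/
theorem one_class {C : ℝ} (hC : 1 ≤ C) (hBT : ∀ (Q c X : ℕ), 1 ≤ Q → 2 ≤ X / Q + 1 →
      ((PI Q c X).card : ℝ) ≤ C * ((Q : ℝ) / (Nat.totient Q : ℝ)) * ((X / Q + 1 : ℕ) : ℝ) /
        Real.log ((X / Q + 1 : ℕ) : ℝ))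
    (q l X : ℕ) (hq : 0 < q) (hl : l.Prime) (hql : Nat.Coprime q l) (hX : 2 ≤ X) :
    (((PI q 2 X).filter (fun p => l ∣ p - 1)).card : ℝ) ≤
      4 * C * X / ((q.totient : ℝ) * Real.log X) * (1 / ((l : ℝ) - 1)) + (Real.sqrt X + 1) := by
  classical
  have hφ : (0 : ℝ) < (q.totient : ℝ) := by exact_mod_cast Nat.totient_pos.2 hq
  have hl1 : (0 : ℝ) < (l : ℝ) - 1 := by
    have : (1 : ℝ) < l := by exact_mod_cast hl.one_lt
    linarith
  have hX0 : (0 : ℝ) < X := by
    have : 0 < X := by omega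
    exact_mod_cast this
  have hlogX : 0 < Real.log X := by
    apply Real.log_pos
    have : 1 < X := by omega
    exact_mod_cast this
  have hsq : 0 ≤ Real.sqrt X := Real.sqrt_nonneg _
  obtain ⟨c, hc1, hc2⟩ := Nat.chineseRemainder hql 2 1
  have hsub : (PI q 2 X).filter (fun p => l ∣ p - 1) ⊆ PI (q * l) c X := by
    intro p hp
    unfold PI at hp ⊢
    rw [mem_filter, mem_filter] at hp
    obtain ⟨⟨h1, h2, h3⟩, h4⟩ := hp
    rw [mem_filter]
    refine ⟨h1, h2, ?_⟩
    rw [← Nat.modEq_and_modEq_iff_modEq_mul hql]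
    refine ⟨h3.trans hc1.symm, ?_⟩
    have := (Nat.modEq_iff_dvd' h2.one_le).2 h4
    exact this.symm.trans hc2.symm
  have hQ : 1 ≤ q * l := Nat.mul_pos hq hl.pos
  have hQ0 : (0 : ℝ) < ((q * l : ℕ) : ℝ) := by exact_mod_cast hQ
  have hcard : (((PI q 2 X).filter (fun p => l ∣ p - 1)).card : ℝ) ≤ ((PI (q * l) c X).card : ℝ) := by
    exact_mod_cast card_le_card hsub
  rcases le_or_gt ((q * l) ^ 2) X with hcase | hcase
  · -- the theorem of Brun and Titchmarsh
    have h1 : q * l ≤ X / (q * l) := by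
      rw [Nat.le_div_iff_mul_le hQ]
      nlinarith
    have h2 : 2 ≤ X / (q * l) + 1 := by omega
    have h3 := hBT (q * l) c X hQ h2
    have h4 : (((q * l : ℕ).totient : ℕ) : ℝ) = (q.totient : ℝ) * ((l : ℝ) - 1) := by
      rw [Nat.totient_mul hql, Nat.totient_prime hl, Nat.cast_mul, Nat.cast_sub hl.one_le,
        Nat.cast_one]
    set N' := X / (q * l) + 1 with hN'
    have h5 : (X : ℝ) < (N' : ℝ) * ((q * l : ℕ) : ℝ) := by
      have : X < N' * (q * l) := by
        rw [hN', mul_comm]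
        exact Nat.lt_mul_div_succ X hQ
      exact_mod_cast this
    have h6 : (N' : ℝ) * ((q * l : ℕ) : ℝ) ≤ 2 * X := by
      have h7 : N' * (q * l) ≤ 2 * X := by
        rw [hN', add_mul, one_mul]
        have := Nat.div_mul_le_self X (q * l)
        have h8 : q * l ≤ X := by nlinarith
        omega
      exact_mod_cast h7
    have hN1 : (X : ℝ) ≤ (N' : ℝ) ^ 2 := by
      have h8 : X ≤ N' ^ 2 := by
        have h9 : X < N' * (q * l) := by exact_mod_cast h5
        have h10 : q * l ≤ N' := by omega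
        nlinarith
      exact_mod_cast h8
    have hlogN : Real.log X ≤ 2 * Real.log N' := by
      have := Real.log_le_log hX0 hN1
      rwa [Real.log_pow, Nat.cast_ofNat] at this
    have hlN0 : 0 < Real.log N' := by linarith
    have h11 : C * (((q * l : ℕ) : ℝ) / (Nat.totient (q * l) : ℝ)) * (N' : ℝ) / Real.log N' ≤
        4 * C * X / ((q.totient : ℝ) * Real.log X) * (1 / ((l : ℝ) - 1)) := by
      rw [h4]
      have h12 : C * (((q * l : ℕ) : ℝ) / ((q.totient : ℝ) * ((l : ℝ) - 1))) * (N' : ℝ) /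
          Real.log N' = (C / ((q.totient : ℝ) * ((l : ℝ) - 1))) *
            (((N' : ℝ) * ((q * l : ℕ) : ℝ)) / Real.log N') := by
        field_simp
      have h13 : 4 * C * X / ((q.totient : ℝ) * Real.log X) * (1 / ((l : ℝ) - 1)) =
          (C / ((q.totient : ℝ) * ((l : ℝ) - 1))) * (4 * X / Real.log X) := by
        field_simp
      rw [h12, h13]
      apply mul_le_mul_of_nonneg_left _ (by positivity)
      rw [div_le_div_iff₀ hlN0 hlogX]
      nlinarith
    have h14 : (0 : ℝ) ≤ Real.sqrt X + 1 := by linarith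
    linarith
  · have h1 : (PI (q * l) c X).card ≤ X / (q * l) + 1 := by
      refine class_card_le (q * l) c X hQ _ ?_
      intro p hp
      unfold PI at hp
      rw [mem_filter, mem_Ioc] at hp
      exact ⟨hp.1.1, hp.1.2, hp.2.2⟩
    have h2 : (((X / (q * l) : ℕ)) : ℝ) ≤ Real.sqrt X := by
      apply Real.le_sqrt_of_sq_le
      have h3 : (X / (q * l)) ^ 2 ≤ X := by
        have h4 : X / (q * l) < q * l := by
          rw [Nat.div_lt_iff_lt_mul hQ]
          nlinarith
        have h5 := Nat.div_mul_le_self X (q * l)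
        nlinarith
      exact_mod_cast h3
    have h3 : ((PI (q * l) c X).card : ℝ) ≤ (((X / (q * l) : ℕ)) : ℝ) + 1 := by exact_mod_cast h1
    have h4 : 0 ≤ 4 * C * X / ((q.totient : ℝ) * Real.log X) * (1 / ((l : ℝ) - 1)) := by
      have : 0 < C := by linarith
      positivity
    linarith

end Pool.Agent.V5helper66.Karp
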