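import Mathlib
import Pool.Agent.V5helper66.Karp.Good

set_option autoImplicit false

/-! A positive proportion of the primes in `(2 ^ i, 2 ^ (i + 1)]` is good. -/

namespace Pool.Agent.V5helper66.Karp

open Finset Filter Topology

theorem exists_J (C : ℝ) : ∃ J : ℕ, 2 ≤ J ∧ 4 * C * (((J : ℝ) + 3) / 2 ^ (J + 1)) ≤ 1 / 16 := by
  have h1 : Tendsto (fun J : ℕ => ((J : ℝ) + 3) / 2 ^ (J + 1)) atTop (𝓝 0) := by
    have h2 : Tendsto (fun n : ℕ => (n : ℝ) ^ 1 / 2 ^ n) atTop (𝓝 0) :=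
      tendsto_pow_const_div_const_pow_of_one_lt 1 (by norm_num)
    have h3 : Tendsto (fun n : ℕ => (1 : ℝ) / 2 ^ n) atTop (𝓝 0) := by
      have := tendsto_pow_atTop_nhds_zero_of_lt_one (r := (1 / 2 : ℝ)) (by norm_num) (by norm_num)
      refine this.congr fun n => ?_
      rw [div_pow, one_pow]
    have h4 := (h2.mul_const (1 / 2 : ℝ)).add (h3.mul_const (3 / 2 : ℝ))
    simp only [zero_mul, add_zero] at h4
    refine h4.congr fun n => ?_
    rw [pow_succ (2 : ℝ) n]
    field_simp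
  have h5 := h1.const_mul (4 * C)
  rw [mul_zero] at h5
  obtain ⟨J, hJ1, hJ2⟩ := ((h5.eventually (gt_mem_nhds (show (0 : ℝ) < 1 / 16 by norm_num))).and
    (eventually_ge_atTop 2)).exists
  exact ⟨J, hJ2, hJ1.le⟩

theorem eventually_big (φ : ℝ) : ∀ᶠ i : ℕ in atTop,
    64 * φ * (i : ℝ) ^ 2 ≤ Real.sqrt ((2 : ℝ) ^ i) := by
  have h2 : Tendsto (fun n : ℕ => (n : ℝ) ^ 4 / 2 ^ n) atTop (𝓝 0) :=
    tendsto_pow_const_div_const_pow_of_one_lt 4 (by norm_num)
  have h3 := h2.const_mul ((64 * φ) ^ 2)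
  rw [mul_zero] at h3
  filter_upwards [h3.eventually (gt_mem_nhds (show (0 : ℝ) < 1 by norm_num))] with i hi
  apply Real.le_sqrt_of_sq_le
  have h4 : (0 : ℝ) < 2 ^ i := by positivity
  rw [← mul_div_assoc, div_lt_one h4] at hi
  calc (64 * φ * (i : ℝ) ^ 2) ^ 2 = (64 * φ) ^ 2 * (i : ℝ) ^ 4 := by ring
    _ ≤ _ := hi.le

theorem good_count : ∃ J : ℕ, ∃ i₀ : ℕ, ∀ i : ℕ, i₀ ≤ i → ∀ e : ℕ, 2 ^ e ≤ 2 * i →
    (2 : ℝ) ^ i / (8 * ((qJ J).totient : ℝ) * i) ≤ ((GP' J e (2 ^ i)).card : ℝ) := by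
  classical
  obtain ⟨C, hC, hBT⟩ := ap_upper
  obtain ⟨J, hJ2, hJ⟩ := exists_J C
  set φ : ℝ := ((qJ J).totient : ℝ) with hφd
  have hφ : 0 < φ := by
    rw [hφd]
    exact_mod_cast Nat.totient_pos.2 (qJ_pos J)
  obtain ⟨X₀, hX₀⟩ := ap_lower (qJ J) 2 (qJ_pos J) (two_coprime J)
  obtain ⟨i₁, hi₁⟩ := eventually_atTop.1 (eventually_big φ)
  refine ⟨J, max (max X₀ i₁) 1, fun i hi e he => ?_⟩
  have hiX : X₀ ≤ 2 ^ i := by
    have h1 : X₀ ≤ i := ((le_max_left _ _).trans (le_max_left _ _)).trans hi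
    exact h1.trans (Nat.lt_two_pow_self).le
  have hi1 : 1 ≤ i := (le_max_right _ _).trans hi
  have hbig := hi₁ i (((le_max_right _ _).trans (le_max_left _ _)).trans hi)
  set X : ℕ := 2 ^ i with hX
  have hX2 : 2 ≤ X := by
    rw [hX]
    calc 2 = 2 ^ 1 := rfl
      _ ≤ 2 ^ i := Nat.pow_le_pow_right (by norm_num) hi1
  have hXr : (X : ℝ) = 2 ^ i := by
    rw [hX]
    push_cast
    rfl
  have hX0 : (0 : ℝ) < X := by
    rw [hXr]
    positivity
  have hiR : (1 : ℝ) ≤ i := by exact_mod_cast hi1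
  have hl2 : (1 : ℝ) / 2 < Real.log 2 := by
    have := Real.log_two_gt_d9
    linarith
  have hl2' : Real.log 2 < 1 := by
    have := Real.log_two_lt_d9
    linarith
  have hL : Real.log X = i * Real.log 2 := by
    rw [hXr, Real.log_pow]
  have hL0 : 0 < Real.log X := by
    rw [hL]
    nlinarith
  have hL1 : Real.log X ≤ i := by
    rw [hL]
    nlinarith
  have hA := hX₀ X hiX
  have hlog2X : Real.log (2 * X) ≤ 2 * Real.log X := by
    rw [Real.log_mul (by norm_num) hX0.ne', hL]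
    nlinarith
  have hA2 : (X : ℝ) / (4 * φ * Real.log X) ≤ ((PI (qJ J) 2 X).card : ℝ) := by
    rw [div_le_iff₀ (by positivity)]
    have h1 : (X : ℝ) / (2 * φ) ≤ ((PI (qJ J) 2 X).card : ℝ) * (2 * Real.log X) :=
      hA.trans (mul_le_mul_of_nonneg_left hlog2X (Nat.cast_nonneg _))
    rw [div_le_iff₀ (by positivity)] at h1
    calc (X : ℝ) ≤ _ := h1
      _ = _ := by ring
  -- the bad primes
  have hsub : (PI (qJ J) 2 X).card ≤ (GP' J e X).card +
      ∑ l ∈ FP J e, ((PI (qJ J) 2 X).filter (fun p => l ∣ p - 1)).card := by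
    have h1 : PI (qJ J) 2 X ⊆ GP' J e X ∪
        (FP J e).biUnion (fun l => (PI (qJ J) 2 X).filter (fun p => l ∣ p - 1)) := by
      intro p hp
      rw [mem_union]
      by_cases h : ∀ l ∈ FP J e, ¬ l ∣ p - 1
      · left
        unfold GP'
        rw [mem_filter]
        exact ⟨hp, h⟩
      · right
        push Not at h
        obtain ⟨l, hl, hlp⟩ := h
        rw [mem_biUnion]
        exact ⟨l, hl, mem_filter.2 ⟨hp, hlp⟩⟩
    refine (card_le_card h1).trans ((card_union_le _ _).trans ?_)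
    exact Nat.add_le_add_left card_biUnion_le _
  have hsubR : ((PI (qJ J) 2 X).card : ℝ) ≤ ((GP' J e X).card : ℝ) +
      ∑ l ∈ FP J e, (((PI (qJ J) 2 X).filter (fun p => l ∣ p - 1)).card : ℝ) := by
    exact_mod_cast hsub
  have hbad : ∑ l ∈ FP J e, (((PI (qJ J) 2 X).filter (fun p => l ∣ p - 1)).card : ℝ) ≤
      X / (16 * φ * Real.log X) + 2 * i * (Real.sqrt X + 1) := by
    have h1 : ∀ l ∈ FP J e, (((PI (qJ J) 2 X).filter (fun p => l ∣ p - 1)).card : ℝ) ≤
        4 * C * X / (φ * Real.log X) * (1 / ((l : ℝ) - 1)) + (Real.sqrt X + 1) := by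
      intro l hl
      obtain ⟨hl1, hl2⟩ := fp_coprime J e l hl
      exact one_class hC hBT (qJ J) l X (qJ_pos J) hl1 hl2 hX2
    refine (sum_le_sum h1).trans ?_
    rw [sum_add_distrib, ← mul_sum, sum_const, nsmul_eq_mul]
    apply add_le_add
    · have h2 := fp_sum J hJ2 e
      have h3 : 0 ≤ 4 * C * X / (φ * Real.log X) := by
        have : 0 < C := by linarith
        positivity
      calc 4 * C * X / (φ * Real.log X) * ∑ l ∈ FP J e, (1 : ℝ) / ((l : ℝ) - 1) ≤
          4 * C * X / (φ * Real.log X) * (((J : ℝ) + 3) / 2 ^ (J + 1)) :=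
            mul_le_mul_of_nonneg_left h2 h3
        _ = (4 * C * (((J : ℝ) + 3) / 2 ^ (J + 1))) * (X / (φ * Real.log X)) := by ring
        _ ≤ 1 / 16 * (X / (φ * Real.log X)) := by
            apply mul_le_mul_of_nonneg_right hJ
            positivity
        _ = _ := by
            field_simp
    · apply mul_le_mul_of_nonneg_right
      · have h2 : (FP J e).card ≤ 2 * i := (fp_card J e).trans he
        exact_mod_cast h2
      · positivity
  have hsm : 2 * (i : ℝ) * (Real.sqrt X + 1) ≤ X / (16 * φ * Real.log X) := by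
    rw [le_div_iff₀ (by positivity)]
    have hs1 : 1 ≤ Real.sqrt X := by
      rw [Real.one_le_sqrt]
      have : 1 ≤ X := by omega
      exact_mod_cast this
    have hs2 : Real.sqrt X * Real.sqrt X = X := Real.mul_self_sqrt hX0.le
    rw [← hXr] at hbig
    have h1 : 2 * (i : ℝ) * (Real.sqrt X + 1) * (16 * φ * Real.log X) ≤
        2 * (i : ℝ) * (2 * Real.sqrt X) * (16 * φ * i) := by
      apply mul_le_mul
      · apply mul_le_mul_of_nonneg_left _ (by positivity)
        linarith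
      · apply mul_le_mul_of_nonneg_left hL1 (by positivity)
      · positivity
      · positivity
    have h2 : 2 * (i : ℝ) * (2 * Real.sqrt X) * (16 * φ * i) =
        (64 * φ * (i : ℝ) ^ 2) * Real.sqrt X := by ring
    rw [h2] at h1
    refine h1.trans ?_
    calc (64 * φ * (i : ℝ) ^ 2) * Real.sqrt X ≤ Real.sqrt X * Real.sqrt X :=
          mul_le_mul_of_nonneg_right hbig (Real.sqrt_nonneg _)
      _ = X := hs2
  have e1 : (X : ℝ) / (4 * φ * Real.log X) = 4 * (X / (16 * φ * Real.log X)) := by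
    field_simp
    ring
  have e2 : (X : ℝ) / (8 * φ * Real.log X) = 2 * (X / (16 * φ * Real.log X)) := by
    field_simp
    ring
  have e3 : (2 : ℝ) ^ i / (8 * φ * i) ≤ (X : ℝ) / (8 * φ * Real.log X) := by
    rw [← hXr]
    apply div_le_div_of_nonneg_left hX0.le (by positivity)
    apply mul_le_mul_of_nonneg_left hL1 (by positivity)
  refine e3.trans ?_
  rw [e2]
  rw [e1] at hA2
  linarith

end Pool.Agent.V5helper66.Karp
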