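import Mathlib

set_option autoImplicit false

/-! The numbers without a prime factor in a given set, by the variance of the number of prime
factors. -/

namespace Pool.Agent.V5helper66.Karp

open Finset

theorem turan (P : Finset ℕ) (hP : ∀ p ∈ P, p.Prime) (N : ℕ) (hPN : P.card ≤ N) :
    (((Ioc 0 N).filter (fun n => ∀ p ∈ P, ¬ p ∣ n)).card : ℝ) * (∑ p ∈ P, (1 : ℝ) / p) ≤
      3 * N := by
  classical
  set E : ℝ := ∑ p ∈ P, (1 : ℝ) / p with hE
  have hE0 : 0 ≤ E := sum_nonneg fun p _ => by positivity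
  rcases hE0.eq_or_lt with hE1 | hE1
  · rw [← hE1, mul_zero]
    positivity
  set ω : ℕ → ℝ := fun n => ∑ p ∈ P, if p ∣ n then (1 : ℝ) else 0 with hω
  have hNR : (0 : ℝ) ≤ N := Nat.cast_nonneg N
  have hcnt : ∀ d : ℕ, ∑ n ∈ Ioc 0 N, (if d ∣ n then (1 : ℝ) else 0) = ((N / d : ℕ) : ℝ) := by
    intro d
    rw [← sum_filter, sum_const, nsmul_eq_mul, mul_one, Nat.Ioc_filter_dvd_card_eq_div]
  have h1 : ∑ n ∈ Ioc 0 N, ω n = ∑ p ∈ P, ((N / p : ℕ) : ℝ) := by
    rw [hω]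
    simp only
    rw [sum_comm]
    exact sum_congr rfl fun p _ => hcnt p
  have h2 : (N : ℝ) * E - P.card ≤ ∑ n ∈ Ioc 0 N, ω n := by
    rw [h1, hE, mul_sum]
    have h3 : ((P.card : ℕ) : ℝ) = ∑ p ∈ P, (1 : ℝ) := by simp
    rw [h3, ← sum_sub_distrib]
    apply sum_le_sum
    intro p hp
    have hp0 : 0 < p := (hP p hp).pos
    have h4 : N < p * (N / p + 1) := Nat.lt_mul_div_succ N hp0
    have h5 : (N : ℝ) < p * (((N / p : ℕ) : ℝ) + 1) := by exact_mod_cast h4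
    have h6 : (0 : ℝ) < p := by exact_mod_cast hp0
    rw [mul_one_div, sub_le_iff_le_add, div_le_iff₀ h6]
    linarith
  have h3 : ∑ n ∈ Ioc 0 N, ω n ^ 2 ≤ N * E ^ 2 + N * E := by
    have h4 : ∑ n ∈ Ioc 0 N, ω n ^ 2 =
        ∑ p ∈ P, ∑ p' ∈ P, ∑ n ∈ Ioc 0 N, (if p ∣ n ∧ p' ∣ n then (1 : ℝ) else 0) := by
      have h5 : ∀ n, ω n ^ 2 = ∑ p ∈ P, ∑ p' ∈ P, (if p ∣ n ∧ p' ∣ n then (1 : ℝ) else 0) := by
        intro n
        rw [hω]
        simp only
        rw [sq, sum_mul_sum]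
        refine sum_congr rfl fun p _ => sum_congr rfl fun p' _ => ?_
        by_cases ha : p ∣ n <;> by_cases hb : p' ∣ n <;> simp [ha, hb]
      rw [sum_congr rfl fun n _ => h5 n, sum_comm]
      refine sum_congr rfl fun p _ => ?_
      rw [sum_comm]
    rw [h4]
    have h5 : ∀ p ∈ P, ∀ p' ∈ P, ∑ n ∈ Ioc 0 N, (if p ∣ n ∧ p' ∣ n then (1 : ℝ) else 0) ≤
        N * ((1 / p) * (1 / p')) + (if p = p' then (N : ℝ) * (1 / p) else 0) := by
      intro p hp p' hp'
      have hp0 : (0 : ℝ) < p := by exact_mod_cast (hP p hp).pos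
      have hp0' : (0 : ℝ) < p' := by exact_mod_cast (hP p' hp').pos
      by_cases h : p = p'
      · subst h
        rw [if_pos rfl]
        have h6 : ∑ n ∈ Ioc 0 N, (if p ∣ n ∧ p ∣ n then (1 : ℝ) else 0) = ((N / p : ℕ) : ℝ) := by
          rw [← hcnt p]
          refine sum_congr rfl fun n _ => ?_
          simp only [and_self]
        rw [h6]
        have h7 : ((N / p : ℕ) : ℝ) ≤ N * (1 / p) := by
          rw [mul_one_div]
          exact Nat.cast_div_le
        have h8 : (0 : ℝ) ≤ N * ((1 / p) * (1 / p)) := by positivity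
        linarith
      · rw [if_neg h, add_zero]
        have hcop : Nat.Coprime p p' := (Nat.coprime_primes (hP p hp) (hP p' hp')).2 h
        have h6 : ∑ n ∈ Ioc 0 N, (if p ∣ n ∧ p' ∣ n then (1 : ℝ) else 0) =
            ((N / (p * p') : ℕ) : ℝ) := by
          rw [← hcnt (p * p')]
          refine sum_congr rfl fun n _ => ?_
          have h7 : (p ∣ n ∧ p' ∣ n) ↔ p * p' ∣ n :=
            ⟨fun h => hcop.mul_dvd_of_dvd_of_dvd h.1 h.2,
              fun h => ⟨(Dvd.intro _ rfl).trans h, (Dvd.intro_left _ rfl).trans h⟩⟩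
          simp only [h7]
        rw [h6]
        have h7 : ((N / (p * p') : ℕ) : ℝ) ≤ N / ((p * p' : ℕ) : ℝ) := Nat.cast_div_le
        refine h7.trans (le_of_eq ?_)
        push_cast
        field_simp
    refine (sum_le_sum fun p hp => sum_le_sum fun p' hp' => h5 p hp p' hp').trans ?_
    have h6 : ∑ p ∈ P, ∑ p' ∈ P, ((N : ℝ) * ((1 / p) * (1 / p')) +
        (if p = p' then (N : ℝ) * (1 / p) else 0)) = N * E ^ 2 + N * E := by
      simp only [sum_add_distrib]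
      congr 1
      · rw [hE, sq, sum_mul_sum, mul_sum]
        refine sum_congr rfl fun p _ => ?_
        rw [mul_sum]
      · rw [hE, mul_sum]
        refine sum_congr rfl fun p hp => ?_
        rw [sum_ite_eq, if_pos hp]
    exact h6.le
  have h4 : ∑ n ∈ Ioc 0 N, (ω n - E) ^ 2 ≤ 3 * N * E := by
    have h5 : ∑ n ∈ Ioc 0 N, (ω n - E) ^ 2 =
        ∑ n ∈ Ioc 0 N, ω n ^ 2 - 2 * E * ∑ n ∈ Ioc 0 N, ω n + N * E ^ 2 := by
      have h6 : ∀ n, (ω n - E) ^ 2 = ω n ^ 2 - 2 * E * ω n + E ^ 2 := fun n => by ring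
      rw [sum_congr rfl fun n _ => h6 n, sum_add_distrib, sum_sub_distrib, ← mul_sum, sum_const,
        Nat.card_Ioc, nsmul_eq_mul, Nat.sub_zero]
    rw [h5]
    have h7 : (P.card : ℝ) ≤ N := by exact_mod_cast hPN
    nlinarith
  have h5 : (((Ioc 0 N).filter (fun n => ∀ p ∈ P, ¬ p ∣ n)).card : ℝ) * E ^ 2 ≤
      ∑ n ∈ Ioc 0 N, (ω n - E) ^ 2 := by
    have h6 : (((Ioc 0 N).filter (fun n => ∀ p ∈ P, ¬ p ∣ n)).card : ℝ) * E ^ 2 =
        ∑ n ∈ (Ioc 0 N).filter (fun n => ∀ p ∈ P, ¬ p ∣ n), (ω n - E) ^ 2 := by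
      rw [← nsmul_eq_mul, ← sum_const]
      refine sum_congr rfl fun n hn => ?_
      rw [mem_filter] at hn
      have h7 : ω n = 0 := by
        rw [hω]
        simp only
        exact sum_eq_zero fun p hp => if_neg (hn.2 p hp)
      rw [h7]
      ring
    rw [h6]
    apply sum_le_sum_of_subset_of_nonneg (filter_subset _ _)
    intro n _ _
    positivity
  have h6 : (((Ioc 0 N).filter (fun n => ∀ p ∈ P, ¬ p ∣ n)).card : ℝ) * E ^ 2 ≤ 3 * N * E :=
    h5.trans h4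
  have h7 : ((((Ioc 0 N).filter (fun n => ∀ p ∈ P, ¬ p ∣ n)).card : ℝ) * E) * E ≤ (3 * N) * E := by
    linarith
  exact le_of_mul_le_mul_right h7 hE1

end Pool.Agent.V5helper66.Karp
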