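import Mathlib
import Pool.Agent.V5helper66.Karp.Good2
import Pool.Agent.V5helper66.Karp.Turan

set_option autoImplicit false

/-! Almost all integers have a good prime factor of suitable size. -/

namespace Pool.Agent.V5helper66.Karp

open Finset Filter Topology

theorem sum_dyadic (u : ℕ) (hu : 1 ≤ u) (h : ℕ) :
    (h : ℝ) / 2 ≤ ∑ i ∈ Ico u (2 ^ h * u), (1 : ℝ) / i := by
  induction h with
  | zero => simp
  | succ h ih =>
    have h1 : u ≤ 2 ^ h * u := Nat.le_mul_of_pos_left _ (by positivity)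
    have h2 : 2 ^ h * u ≤ 2 ^ (h + 1) * u := Nat.mul_le_mul_right _
      (Nat.pow_le_pow_right (by norm_num) (by omega))
    rw [← sum_Ico_consecutive _ h1 h2]
    have h3 : (1 : ℝ) / 2 ≤ ∑ i ∈ Ico (2 ^ h * u) (2 ^ (h + 1) * u), (1 : ℝ) / i := by
      have h4 : ∀ i ∈ Ico (2 ^ h * u) (2 ^ (h + 1) * u),
          (1 : ℝ) / ((2 ^ (h + 1) * u : ℕ) : ℝ) ≤ (1 : ℝ) / i := by
        intro i hi
        rw [mem_Ico] at hi
        have h5 : 0 < i := by
          have : 0 < 2 ^ h * u := by positivity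
          omega
        apply one_div_le_one_div_of_le
        · exact_mod_cast h5
        · exact_mod_cast hi.2.le
      refine le_trans ?_ (sum_le_sum h4)
      rw [sum_const, Nat.card_Ico, nsmul_eq_mul]
      have h5 : 2 ^ (h + 1) * u - 2 ^ h * u = 2 ^ h * u := by
        have h6 : 2 ^ (h + 1) * u = 2 * (2 ^ h * u) := by
          rw [pow_succ]
          ring
        omega
      rw [h5]
      push_cast
      have h6 : (0 : ℝ) < u := by exact_mod_cast hu
      have h7 : (0 : ℝ) < 2 ^ h := by positivity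
      rw [pow_succ]
      apply le_of_eq
      field_simp
    push_cast
    linarith

/-- `n` has a suitable prime factor -/
def Gd (B : ℝ) (n : ℕ) : Prop :=
  ∃ p e : ℕ, p.Prime ∧ p ∣ n ∧ B ≤ p ∧ B ≤ 2 ^ 2 ^ e ∧ Nat.Coprime (p - 1) (2 ^ 2 ^ e - 1) ∧
    p * (2 * ((p - 1) * (2 ^ 2 ^ e - 1)) + 1) ≤ n

theorem density (η : ℝ) (hη : 0 < η) : ∃ ε : ℝ, 0 < ε ∧ ∃ N₀ : ℕ, ∀ N : ℕ, N₀ ≤ N →
    ∃ S : Finset ℕ, (S.card : ℝ) ≤ η * N ∧ ∀ n ∈ Ioc 0 N, n ∉ S → Gd ((N : ℝ) ^ ε) n := by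
  classical
  obtain ⟨J, i₀, hgood⟩ := good_count
  set φ : ℝ := ((qJ J).totient : ℝ) with hφd
  have hφ : 0 < φ := by
    rw [hφd]
    exact_mod_cast Nat.totient_pos.2 (qJ_pos J)
  obtain ⟨h, hh⟩ := exists_nat_ge (192 * φ / η)
  set D : ℕ := 2 ^ (h + 5) with hD
  have hD0 : 0 < D := by positivity
  refine ⟨1 / 2 ^ (h + 6), by positivity, ?_⟩
  obtain ⟨N₁, hN₁⟩ := exists_nat_ge (4 / η ^ 2)
  set m₀ : ℕ := D * (i₀ + 1) + 16 * (2 ^ (h + 1) + 3) with hm₀
  refine ⟨max (2 ^ (m₀ + 1)) (N₁ + 1), fun N hN => ?_⟩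
  have hNm : 2 ^ (m₀ + 1) ≤ N := (le_max_left _ _).trans hN
  have hNN : N₁ + 1 ≤ N := (le_max_right _ _).trans hN
  have hN0 : N ≠ 0 := by omega
  have hNR : (0 : ℝ) < N := by exact_mod_cast Nat.pos_of_ne_zero hN0
  set m := Nat.log 2 N with hm
  have hm1 : 2 ^ m ≤ N := Nat.pow_log_le_self 2 hN0
  have hm2 : N < 2 ^ (m + 1) := Nat.lt_pow_succ_log_self (by norm_num) N
  have hm3 : m₀ ≤ m := by
    have : m₀ + 1 < m + 1 := (Nat.pow_lt_pow_iff_right (by norm_num : 1 < 2)).1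
      (lt_of_le_of_lt hNm hm2)
    omega
  set u := m / D + 1 with hu
  have hu1 : 1 ≤ u := Nat.le_add_left _ _
  have huD : m < D * u := by
    rw [hu]
    exact Nat.lt_mul_div_succ m hD0
  have huD2 : D * u ≤ m + D := by
    rw [hu, mul_add, mul_one]
    have := Nat.mul_div_le m D
    omega
  have hi₀u : i₀ ≤ u := by
    by_contra hcon
    push Not at hcon
    have h1 : D * u ≤ D * i₀ := Nat.mul_le_mul_left _ hcon.le
    have h2 : D * (i₀ + 1) = D * i₀ + D := by ring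
    omega
  set e := Nat.clog 2 u with he
  have he1 : u ≤ 2 ^ e := Nat.le_pow_clog (by norm_num) u
  have he2 : 2 ^ e ≤ 2 * u := by
    rcases Nat.eq_or_lt_of_le hu1 with h1 | h1
    · rw [he, ← h1]
      simp
    · have h2 : 2 ^ (Nat.clog 2 u).pred < u := Nat.pow_pred_clog_lt_self (by norm_num) h1
      have h3 : 0 < Nat.clog 2 u := Nat.clog_pos (by norm_num) h1
      rw [he]
      obtain ⟨k, hk⟩ := Nat.exists_eq_succ_of_ne_zero h3.ne'
      rw [hk] at h2 ⊢
      rw [Nat.pred_succ] at h2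
      rw [Nat.succ_eq_add_one, pow_succ]
      omega
  -- the exponent bounds
  have hpow : D = 32 * 2 ^ h := by
    rw [hD, pow_add]
    ring
  have hU1 : 32 * (2 ^ h * u) ≤ m + 32 * 2 ^ h := by
    calc 32 * (2 ^ h * u) = D * u := by rw [hpow]; ring
      _ ≤ m + D := huD2
      _ = _ := by rw [hpow]
  have h2h : 1 ≤ 2 ^ h := Nat.one_le_two_pow
  have hU2 : u ≤ 2 ^ h * u := Nat.le_mul_of_pos_left _ (by positivity)
  have hm4 : 16 * (2 ^ (h + 1) + 3) ≤ m := by omega
  have hm5 : 32 * 2 ^ h + 48 ≤ m := by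
    rw [pow_succ] at hm4
    omega
  set P : Finset ℕ := (Ico u (2 ^ h * u)).biUnion (fun i => GP' J e (2 ^ i)) with hP
  have hPmem : ∀ p ∈ P, ∃ i ∈ Ico u (2 ^ h * u), p ∈ GP' J e (2 ^ i) := by
    intro p hp
    rw [hP, mem_biUnion] at hp
    exact hp
  have hPprime : ∀ p ∈ P, p.Prime := by
    intro p hp
    obtain ⟨i, _, hi⟩ := hPmem p hp
    exact (gp_coprime J e _ p hi).1
  have hPup : ∀ p ∈ P, p ≤ 2 ^ (2 ^ h * u) := by
    intro p hp
    obtain ⟨i, hi1, hi⟩ := hPmem p hp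
    rw [mem_Ico] at hi1
    have h1 := (gp_coprime J e _ p hi).2.2.1
    calc p ≤ 2 * 2 ^ i := h1
      _ = 2 ^ (i + 1) := by rw [pow_succ]; ring
      _ ≤ 2 ^ (2 ^ h * u) := Nat.pow_le_pow_right (by norm_num) hi1.2
  have hPlow : ∀ p ∈ P, 2 ^ u ≤ p := by
    intro p hp
    obtain ⟨i, hi1, hi⟩ := hPmem p hp
    rw [mem_Ico] at hi1
    have h1 := (gp_coprime J e _ p hi).2.1
    exact (Nat.pow_le_pow_right (by norm_num) hi1.1).trans h1.le
  have hPcard : P.card ≤ N := by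
    have h1 : P ⊆ Ioc 0 (2 ^ (2 ^ h * u)) := by
      intro p hp
      rw [mem_Ioc]
      exact ⟨(hPprime p hp).pos, hPup p hp⟩
    have h2 := card_le_card h1
    rw [Nat.card_Ioc, Nat.sub_zero] at h2
    refine h2.trans (le_trans ?_ hm1)
    exact Nat.pow_le_pow_right (by norm_num) (by omega)
  set E : ℝ := ∑ p ∈ P, (1 : ℝ) / p with hE
  have hElow : (h : ℝ) / (32 * φ) ≤ E := by
    have hdisj : (↑(Ico u (2 ^ h * u)) : Set ℕ).PairwiseDisjoint (fun i => GP' J e (2 ^ i)) := by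
      intro i _ j _ hij
      rw [Function.onFun, Finset.disjoint_left]
      intro p hp hp'
      have h1 := gp_coprime J e _ p hp
      have h2 := gp_coprime J e _ p hp'
      rcases lt_or_gt_of_ne hij with h3 | h3
      · have h4 : 2 * 2 ^ i ≤ 2 ^ j := by
          calc 2 * 2 ^ i = 2 ^ (i + 1) := by rw [pow_succ]; ring
            _ ≤ 2 ^ j := Nat.pow_le_pow_right (by norm_num) h3
        have h5 := h1.2.2.1
        have h6 := h2.2.1
        omega
      · have h4 : 2 * 2 ^ j ≤ 2 ^ i := by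
          calc 2 * 2 ^ j = 2 ^ (j + 1) := by rw [pow_succ]; ring
            _ ≤ 2 ^ i := Nat.pow_le_pow_right (by norm_num) h3
        have h5 := h2.2.2.1
        have h6 := h1.2.1
        omega
    rw [hE, hP, sum_biUnion hdisj]
    have h1 : ∀ i ∈ Ico u (2 ^ h * u), 1 / (16 * φ) * (1 / (i : ℝ)) ≤
        ∑ p ∈ GP' J e (2 ^ i), (1 : ℝ) / p := by
      intro i hi
      rw [mem_Ico] at hi
      have hi0 : (0 : ℝ) < i := by
        have : 0 < i := by omega
        exact_mod_cast this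
      have h2 := hgood i (hi₀u.trans hi.1) e (by omega)
      have h3 : ∀ p ∈ GP' J e (2 ^ i), (1 : ℝ) / (2 * 2 ^ i) ≤ 1 / p := by
        intro p hp
        have h4 := gp_coprime J e _ p hp
        apply one_div_le_one_div_of_le
        · exact_mod_cast h4.1.pos
        · have h5 := h4.2.2.1
          exact_mod_cast h5
      refine le_trans ?_ (sum_le_sum h3)
      rw [sum_const, nsmul_eq_mul]
      have h4 : (0 : ℝ) < 2 ^ i := by positivity
      calc 1 / (16 * φ) * (1 / (i : ℝ)) = (2 : ℝ) ^ i / (8 * φ * i) * (1 / (2 * 2 ^ i)) := by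
            field_simp
            norm_num
        _ ≤ _ := mul_le_mul_of_nonneg_right h2 (by positivity)
    refine le_trans ?_ (sum_le_sum h1)
    rw [← mul_sum]
    have h2 := sum_dyadic u hu1 h
    calc (h : ℝ) / (32 * φ) = 1 / (16 * φ) * ((h : ℝ) / 2) := by
          field_simp
          ring
      _ ≤ _ := mul_le_mul_of_nonneg_left h2 (by positivity)
  have hE6 : 6 / η ≤ E := by
    refine le_trans ?_ hElow
    rw [div_le_div_iff₀ hη (by positivity)]
    rw [div_le_iff₀ hη] at hh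
    linarith
  have hE0 : 0 < E := lt_of_lt_of_le (by positivity) hE6
  have htur := turan P hPprime N hPcard
  rw [← hE] at htur
  set S₁ := (Ioc 0 N).filter (fun n => ∀ p ∈ P, ¬ p ∣ n) with hS₁
  have hS₁c : (S₁.card : ℝ) ≤ η / 2 * N := by
    have h1 : (S₁.card : ℝ) * (6 / η) ≤ 3 * N :=
      (mul_le_mul_of_nonneg_left hE6 (Nat.cast_nonneg _)).trans htur
    rw [mul_div_assoc', div_le_iff₀ hη] at h1
    linarith
  refine ⟨S₁ ∪ range (2 ^ (m / 2)), ?_, ?_⟩
  · have h1 : ((S₁ ∪ range (2 ^ (m / 2))).card : ℝ) ≤ (S₁.card : ℝ) + ((2 ^ (m / 2) : ℕ) : ℝ) := by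
      have h2 := card_union_le S₁ (range (2 ^ (m / 2)))
      rw [card_range] at h2
      exact_mod_cast h2
    have h2 : ((2 ^ (m / 2) : ℕ) : ℝ) ≤ η / 2 * N := by
      have h3 : (2 ^ (m / 2)) ^ 2 ≤ N := by
        rw [← pow_mul]
        exact (Nat.pow_le_pow_right (by norm_num) (by omega)).trans hm1
      have h4 : ((2 ^ (m / 2) : ℕ) : ℝ) ^ 2 ≤ N := by exact_mod_cast h3
      have h5 : (N : ℝ) ≤ (η / 2 * N) ^ 2 := by
        have h6 : 4 / η ^ 2 ≤ N := by
          have h7 : (N₁ : ℝ) ≤ N := by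
            have : N₁ ≤ N := by omega
            exact_mod_cast this
          linarith
        rw [div_le_iff₀ (by positivity)] at h6
        have h7 : (1 : ℝ) ≤ N * η ^ 2 / 4 := by linarith
        calc (N : ℝ) = 1 * N := (one_mul _).symm
          _ ≤ (N * η ^ 2 / 4) * N := mul_le_mul_of_nonneg_right h7 hNR.le
          _ = (η / 2 * N) ^ 2 := by ring
      exact le_of_sq_le_sq (h4.trans h5) (by positivity)
    linarith
  · intro n hn hnS
    rw [mem_union, not_or, mem_range, not_lt] at hnS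
    obtain ⟨hnS1, hnS2⟩ := hnS
    rw [hS₁, mem_filter, not_and] at hnS1
    have h1 := hnS1 hn
    push Not at h1
    obtain ⟨p, hp, hpn⟩ := h1
    have hp1 := hPprime p hp
    have hp2 := hPup p hp
    have hp3 := hPlow p hp
    obtain ⟨i, _, hi⟩ := hPmem p hp
    have hp4 := (gp_coprime J e _ p hi).2.2.2
    have hB : (N : ℝ) ^ ((1 : ℝ) / 2 ^ (h + 6)) ≤ 2 ^ u := by
      have h2 : (N : ℝ) ≤ (2 : ℝ) ^ ((m : ℝ) + 1) := by
        have h3 : (N : ℝ) ≤ ((2 ^ (m + 1) : ℕ) : ℝ) := by exact_mod_cast hm2.le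
        refine h3.trans (le_of_eq ?_)
        push_cast
        rw [← Real.rpow_natCast]
        push_cast
        rfl
      calc (N : ℝ) ^ ((1 : ℝ) / 2 ^ (h + 6)) ≤ ((2 : ℝ) ^ ((m : ℝ) + 1)) ^ ((1 : ℝ) / 2 ^ (h + 6)) :=
            Real.rpow_le_rpow hNR.le h2 (by positivity)
        _ = (2 : ℝ) ^ (((m : ℝ) + 1) * (1 / 2 ^ (h + 6))) := by
            rw [← Real.rpow_mul (by norm_num)]
        _ ≤ (2 : ℝ) ^ (u : ℝ) := by
            apply Real.rpow_le_rpow_of_exponent_le (by norm_num)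
            rw [mul_one_div, div_le_iff₀ (by positivity)]
            have h3 : m + 1 ≤ u * 2 ^ (h + 6) := by
              have h4 : 2 ^ (h + 6) = 2 * D := by
                rw [hD, pow_succ 2 (h + 5)]
                ring
              rw [h4]
              calc m + 1 ≤ D * u := huD
                _ ≤ 2 * (D * u) := Nat.le_mul_of_pos_left _ (by norm_num)
                _ = u * (2 * D) := by ring
            exact_mod_cast h3
        _ = 2 ^ u := Real.rpow_natCast _ _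
    refine ⟨p, e, hp1, hpn, ?_, ?_, hp4, ?_⟩
    · refine hB.trans ?_
      exact_mod_cast hp3
    · refine hB.trans ?_
      exact pow_le_pow_right₀ (by norm_num) he1
    · refine le_trans ?_ hnS2
      have h2 : 2 ^ 2 ^ e - 1 ≤ 2 ^ (2 * u) :=
        (Nat.sub_le _ _).trans (Nat.pow_le_pow_right (by norm_num) he2)
      have h3 : 2 * ((p - 1) * (2 ^ 2 ^ e - 1)) + 1 ≤ 2 * (p * 2 ^ (2 * u)) := by
        have h4 : (p - 1) * (2 ^ 2 ^ e - 1) ≤ (p - 1) * 2 ^ (2 * u) := Nat.mul_le_mul_left _ h2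
        have h5 : (p - 1) * 2 ^ (2 * u) + 2 ^ (2 * u) = p * 2 ^ (2 * u) := by
          obtain ⟨p', rfl⟩ : ∃ p', p = p' + 1 := ⟨p - 1, by have := hp1.pos; omega⟩
          rw [Nat.add_sub_cancel]
          ring
        have h6 : 1 ≤ 2 ^ (2 * u) := Nat.one_le_two_pow
        omega
      calc p * (2 * ((p - 1) * (2 ^ 2 ^ e - 1)) + 1) ≤ p * (2 * (p * 2 ^ (2 * u))) :=
            Nat.mul_le_mul_left _ h3
        _ ≤ 2 ^ (2 ^ h * u) * (2 * (2 ^ (2 ^ h * u) * 2 ^ (2 * u))) := by gcongr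
        _ = 2 ^ (2 * (2 ^ h * u) + 2 * u + 1) := by
            rw [pow_succ, pow_add, two_mul (2 ^ h * u), pow_add]
            ring
        _ ≤ 2 ^ (m / 2) := by
            apply Nat.pow_le_pow_right (by norm_num)
            omega

end Pool.Agent.V5helper66.Karp
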