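import Mathlib
import Pool.Agent.V5helper66.Karp.Fam

set_option autoImplicit false
set_option linter.unusedSectionVars false

/-! Large multiples of a prime power `p ^ c ≥ b` with `p - 1` coprime to `2 ^ 2 ^ e - 1`. -/

namespace Pool.Agent.V5helper66.Karp

open Finset Pool.Agent.H98R2.Ev Pool.Agent.H98R2.Nb Pool.Agent.TH410.KV

theorem fam_mult (b e : ℕ) (hbe : b ≤ 2 ^ 2 ^ e) {p c : ℕ} (hp : p.Prime) (hc : 1 ≤ c)
    (hbp : b ≤ p ^ c) (hcop : Nat.Coprime (p - 1) (2 ^ 2 ^ e - 1)) (n : ℕ)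
    (hn : p ^ c * (2 * ((p - 1) * (2 ^ 2 ^ e - 1)) + 1) ≤ n) (hdvd : p ^ c ∣ n)
    (𝓕 : Pool.Agent.TH410.KV.Fam) (hne : 𝓕.Nonempty)
    (hb : ∀ F ∈ 𝓕, F.1 ≤ b) (h1 : ∀ F ∈ 𝓕, ¬ F.2.Colorable 1) :
    ¬ NE (univ : Finset (EV (Fin n))) (fun S => ¬ Has 𝓕 (toG S)) := by
  classical
  intro hNE
  set D : ℕ := 2 ^ 2 ^ e - 1 with hD
  have hpF : Fact (Nat.Prime p) := ⟨hp⟩
  have h2p : Fact (Nat.Prime 2) := ⟨Nat.prime_two⟩
  have hb' : ∀ F : 𝓕, F.1.1 ≤ b := fun F => hb F.1 F.2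
  have hex : ∃ i, ∃ F ∈ 𝓕, F.2.Colorable (2 ^ i) := by
    obtain ⟨F, hF⟩ := hne
    refine ⟨2 ^ e, F, hF, ?_⟩
    have h3 : F.2.Colorable (Fintype.card (Fin F.1)) := F.2.colorable_of_fintype
    rw [Fintype.card_fin] at h3
    exact h3.mono ((hb F hF).trans hbe)
  obtain ⟨F₀, hF₀, hcol⟩ := Nat.find_spec hex
  have hle : Nat.find hex ≤ 2 ^ e := by
    refine Nat.find_min' hex ?_
    obtain ⟨F, hF⟩ := hne
    refine ⟨F, hF, ?_⟩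
    have h3 : F.2.Colorable (Fintype.card (Fin F.1)) := F.2.colorable_of_fintype
    rw [Fintype.card_fin] at h3
    exact h3.mono ((hb F hF).trans hbe)
  have hpos : Nat.find hex ≠ 0 := by
    intro h0
    rw [h0, pow_zero] at hcol
    exact h1 F₀ hF₀ hcol
  obtain ⟨I, hI⟩ := Nat.exists_eq_succ_of_ne_zero hpos
  have h0' : ∀ F : 𝓕, ¬ F.1.2.Colorable (2 ^ I) := by
    intro F hF
    exact Nat.find_min hex (by omega : I < Nat.find hex) ⟨F.1, F.2, hF⟩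
  rw [hI] at hcol
  have hIb : I + 1 ≤ 2 ^ e := by omega
  have hD1 : 1 ≤ D := by
    have h3 : 2 ^ 1 ≤ 2 ^ 2 ^ e :=
      Nat.pow_le_pow_right (by norm_num) (Nat.one_le_pow _ _ (by norm_num))
    omega
  obtain ⟨R, hR⟩ := hdvd
  have hpc : 0 < p ^ c := pow_pos hp.pos c
  have hRbig : 2 * ((p - 1) * D) + 1 ≤ R := by
    rw [hR] at hn
    exact Nat.le_of_mul_le_mul_left hn hpc
  have hp1 : 1 ≤ p - 1 := by
    have := hp.two_le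
    omega
  obtain ⟨M, j₀, M₂, hM1, hM2, hM3⟩ := choose_M (p - 1) D 1 R hp1 hD1 hcop hRbig
  have hU : ∀ H : 𝓕, univ ∉ (xi : TY 𝓕).1 H := by
    intro H hH
    have h2 : univ ∈ ((J 2)^[0] (xi : TY 𝓕)).1 H := hH
    rw [xi_iter, pow_zero] at h2
    exact h1 H.1 H.2 h2
  have hL : Lb 𝓕 2 (cl 2 (xi : TY 𝓕) ^ 1 * cl 2 (xi : TY 𝓕) ^ 0) ≠ 0 := by
    rw [pow_one, pow_zero, mul_one, Lb_cl 2 _ hU]
    exact one_ne_zero
  let ℓ : Fin 0 → ℕ := fun j => j.elim0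
  have hℓP : ∀ j, Fact (ℓ j).Prime := fun j => j.elim0
  refine no_ne' (p := p) (q := 2) (Or.inl rfl) hb' h0' ⟨F₀, hF₀⟩ hcol c hc hbp
    e hIb 0 1 0 M j₀ M₂ le_rfl hM1 hM3 ℓ (fun i => i.elim0)
    (fun j => j.elim0) (fun j => j.elim0) (fun j => j.elim0)
    (fun j => j.elim0) (cl 2 (xi : TY 𝓕)) (fun j => j.elim0) hL n ?_ hNE
  rw [univ_eq_empty, sum_empty, add_zero, ← hM2]
  exact hR

end Pool.Agent.V5helper66.Karp
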