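import Mathlib
import Pool.Agent.V5helper66.Karp.Dens
import Pool.Agent.V5helper66.Karp.Mult
import Pool.Agent.V5helper66.Karp.Local

set_option autoImplicit false

/-! From good prime factors to properties with small minimal members. -/

namespace Pool.Agent.V5helper66.Karp

open Finset Filter Topology Pool.Agent.H98R2.Ev Pool.Agent.H98R2.Nb Pool.Agent.TH410.KV

theorem gd_fam {B : ℝ} {n : ℕ} (h : Gd B n) (b : ℕ) (hb : (b : ℝ) ≤ B)
    (𝓕 : Pool.Agent.TH410.KV.Fam) (hne : 𝓕.Nonempty)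
    (hb' : ∀ F ∈ 𝓕, F.1 ≤ b) (h1 : ∀ F ∈ 𝓕, ¬ F.2.Colorable 1) :
    ¬ NE (univ : Finset (EV (Fin n))) (fun S => ¬ Has 𝓕 (toG S)) := by
  obtain ⟨p, e, hp, hpn, hB1, hB2, hcop, hbig⟩ := h
  have hbp : b ≤ p := by
    have : (b : ℝ) ≤ p := hb.trans hB1
    exact_mod_cast this
  have hbe : b ≤ 2 ^ 2 ^ e := by
    have : (b : ℝ) ≤ 2 ^ 2 ^ e := hb.trans hB2
    exact_mod_cast this
  exact fam_mult b e hbe hp le_rfl (by rwa [pow_one]) hcop n (by rwa [pow_one]) (by rwa [pow_one])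
    𝓕 hne hb' h1

/-- the evasiveness of the properties with small minimal members -/
def AllEv (n b : ℕ) : Prop := ∀ P : SimpleGraph (Fin n) → Prop,
    (∀ G H : SimpleGraph (Fin n), G ≤ H → P G → P H) →
    (∀ (σ : Fin n ≃ Fin n) (G : SimpleGraph (Fin n)), P G → P (G.map σ.toEmbedding)) →
    (∃ G : SimpleGraph (Fin n), P G) →
    (∃ G : SimpleGraph (Fin n), ¬ P G) →
    ((∀ G : SimpleGraph (Fin n), P G → ∃ H ≤ G, P H ∧ H.support.ncard ≤ b) ∨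
      (∀ G : SimpleGraph (Fin n), ¬ P G → ∃ H, G ≤ H ∧ ¬ P H ∧ Hᶜ.support.ncard ≤ b)) →
    ∀ s : Finset (Sym2 (Fin n)) → SimpleGraph (Fin n) → Sym2 (Fin n),
      (∀ (Q : Finset (Sym2 (Fin n))) (G H : SimpleGraph (Fin n)),
          (∀ e ∈ Q, (e ∈ G.edgeSet ↔ e ∈ H.edgeSet)) → s Q G = s Q H) →
      ∃ G H : SimpleGraph (Fin n),
        (∀ e ∈ (fun Q : Finset (Sym2 (Fin n)) => insert (s Q G) Q)^[n.choose 2 - 1]
              (∅ : Finset (Sym2 (Fin n))),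
            (e ∈ G.edgeSet ↔ e ∈ H.edgeSet)) ∧ P G ∧ ¬ P H

theorem gd_allEv {B : ℝ} {n : ℕ} (hn : 2 ≤ n) (h : Gd B n) (b : ℕ) (hb : (b : ℝ) ≤ B) :
    AllEv n b := by
  intro P hmono hiso hex hne hloc s hs
  have hfam := gd_fam h b hb
  rcases hloc with hloc | hloc
  · exact local_evasive b hn hfam P hmono hiso hex hne hloc s hs
  · exact local_evasive_dual b hn hfam P hmono hiso hex hne hloc s hs

/-- **Density.** -/
theorem density_main (ε : ℕ → ℝ) (hε : Tendsto ε atTop (𝓝 0)) (bad : ℕ → Prop)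
    (hbad : ∀ n, 2 ≤ n → AllEv n ⌊(n : ℝ) ^ ε n⌋₊ → ¬ bad n) :
    Tendsto (fun N : ℕ => (({n : ℕ | (1 ≤ n ∧ n ≤ N) ∧ bad n}.ncard : ℕ) : ℝ) / N) atTop (𝓝 0) := by
  classical
  rw [Metric.tendsto_atTop]
  intro δ hδ
  obtain ⟨ε₀, hε₀, N₀, hN₀⟩ := density (δ / 2) (by positivity)
  obtain ⟨n₁, hn₁⟩ := eventually_atTop.1 (hε.eventually (gt_mem_nhds hε₀))
  set n₂ := max n₁ 2 with hn₂
  obtain ⟨N₁, hN₁⟩ := exists_nat_gt (2 * n₂ / δ)
  refine ⟨max (max N₀ N₁) 1, fun N hN => ?_⟩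
  have hNN₀ : N₀ ≤ N := ((le_max_left _ _).trans (le_max_left _ _)).trans hN
  have hNN₁ : N₁ ≤ N := ((le_max_right _ _).trans (le_max_left _ _)).trans hN
  have hN1 : 1 ≤ N := (le_max_right _ _).trans hN
  have hNR : (0 : ℝ) < N := by exact_mod_cast hN1
  obtain ⟨S, hS, hS2⟩ := hN₀ N hNN₀
  have hsub : {n : ℕ | (1 ≤ n ∧ n ≤ N) ∧ bad n} ⊆ ((S ∪ range n₂ : Finset ℕ) : Set ℕ) := by
    rintro n ⟨⟨h1, h2⟩, h3⟩
    rw [Finset.mem_coe, mem_union, mem_range]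
    by_contra hcon
    rw [not_or, not_lt] at hcon
    obtain ⟨h4, h5⟩ := hcon
    have h6 : 2 ≤ n := (le_max_right _ _).trans h5
    have h7 : n₁ ≤ n := (le_max_left _ _).trans h5
    have hgd := hS2 n (mem_Ioc.2 ⟨by omega, h2⟩) h4
    refine hbad n h6 (gd_allEv h6 hgd _ ?_) h3
    have h8 : (0 : ℝ) ≤ (n : ℝ) ^ ε n := by positivity
    refine (Nat.floor_le h8).trans ?_
    have h9 : (1 : ℝ) ≤ n := by exact_mod_cast h1
    have h10 : (n : ℝ) ≤ N := by exact_mod_cast h2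
    calc (n : ℝ) ^ ε n ≤ (n : ℝ) ^ ε₀ := Real.rpow_le_rpow_of_exponent_le h9 (hn₁ n h7).le
      _ ≤ (N : ℝ) ^ ε₀ := Real.rpow_le_rpow (by linarith) h10 hε₀.le
  have hcard : (({n : ℕ | (1 ≤ n ∧ n ≤ N) ∧ bad n}.ncard : ℕ) : ℝ) ≤ δ / 2 * N + n₂ := by
    have h1 := Set.ncard_le_ncard hsub (Finset.finite_toSet _)
    rw [Set.ncard_coe_finset] at h1
    have h2 := card_union_le S (range n₂)
    rw [card_range] at h2
    have h3 : (({n : ℕ | (1 ≤ n ∧ n ≤ N) ∧ bad n}.ncard : ℕ) : ℝ) ≤ (S.card : ℝ) + n₂ := by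
      exact_mod_cast h1.trans h2
    linarith
  rw [Real.dist_eq, sub_zero, abs_of_nonneg (by positivity), div_lt_iff₀ hNR]
  have h1 : 2 * n₂ / δ < N := lt_of_lt_of_le hN₁ (by exact_mod_cast hNN₁)
  rw [div_lt_iff₀ hδ] at h1
  linarith

end Pool.Agent.V5helper66.Karp
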