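import Mathlib
import Pool.Agent.V5helper66.Karp.Blk

set_option autoImplicit false
set_option linter.unusedSectionVars false

/-! Rotations of three and of five blocks. -/

namespace Pool.Agent.V5helper66.Karp

open Finset Pool.Agent.H98R2.Ev Pool.Agent.H98R2.Nb Pool.Agent.TH410.KV

section Mu

variable {F W : Type} [Field F] [Fintype W] [DecidableEq W] (m : ℕ)

/-- the multipliers for a rotation of `m` blocks -/
def muc (g : Fˣ) : ZMod m ⊕ W → Fˣ := Sum.elim (fun i => if i = 0 then g else 1) (fun _ => g)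

theorem muc_spec [NeZero m] (g : Fˣ) (i : ZMod m ⊕ W) :
    ∃ k : ℕ, ((rot m : Equiv.Perm (ZMod m ⊕ W)) ^ k) i = i ∧
      ∏ j ∈ range k, muc (W := W) m g (((rot m : Equiv.Perm (ZMod m ⊕ W)) ^ j) i) = g := by
  rcases i with i | w
  · refine ⟨m, ?_, ?_⟩
    · rw [rot_pow_inl, CharP.cast_eq_zero, add_zero]
    · rw [Finset.prod_eq_single (-i).val]
      · rw [rot_pow_inl, ZMod.natCast_zmod_val]
        simp [muc]
      · intro j hj hne
        rw [rot_pow_inl]
        unfold muc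
        rw [Sum.elim_inl, if_neg]
        intro h
        apply hne
        have h1 : (j : ZMod m) = -i := by
          rw [eq_neg_iff_add_eq_zero, add_comm]
          exact h
        rw [← h1, ZMod.val_cast_of_lt (mem_range.1 hj)]
      · intro h
        exact absurd (mem_range.2 (ZMod.val_lt _)) h
  · refine ⟨1, ?_, ?_⟩
    · rw [rot_pow_inr]
    · simp [muc]

end Mu

section Crits

variable {F : Type} [Field F] [Fintype F] [DecidableEq F]

theorem exists_gen (F : Type) [Field F] [Fintype F] : ∃ g : Fˣ, ∀ u : Fˣ, ∃ k : ℕ, u = g ^ k := by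
  obtain ⟨g, hg⟩ := IsCyclic.exists_generator (α := Fˣ)
  refine ⟨g, fun u => ?_⟩
  obtain ⟨k, hk⟩ := (mem_powers_iff_mem_zpowers).2 (hg u)
  exact ⟨k, hk.symm⟩

theorem ev15_one {ι : Type} [DecidableEq ι] (e : EV ι) : ev15 (1 : Equiv.Perm ι) e = e := by
  apply Subtype.ext
  change Sym2.map id e.1 = e.1
  rw [Sym2.map_id]
  rfl

/-- all blocks are fixed -/
theorem crit_id (p q : ℕ) [Fact p.Prime] [Fact q.Prime] [CharP F p]
    {𝓕 : Pool.Agent.TH410.KV.Fam} (F₀ : 𝓕) (hb : ∀ H : 𝓕, H.1.1 ≤ Fintype.card F)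
    (h0 : ∀ H ∈ 𝓕, ¬ H.2.Colorable 1) {n M : ℕ} (hn : n = M * Fintype.card F)
    (hne : NE (univ : Finset (EV (Fin n))) (fun S => ¬ Has 𝓕 (toG S))) :
    Lb 𝓕 q (cl q (xi : TY 𝓕) ^ M) = 0 := by
  classical
  obtain ⟨g, hg⟩ := exists_gen F
  have hne2 := ne_transport (V := Fin M × F) (by
    rw [Fintype.card_prod, Fintype.card_fin, hn]) 𝓕 hne
  have h1 := crit_tau (ι := Fin M) (Ω := EV (Fin M)) p q F₀ hb h0 1 (fun _ => g) g hg
    (fun i => ⟨1, by simp, by simp⟩) id (fun e => ev15_one e) Function.surjective_id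
    (fun e e' h => ⟨0, by
      rw [pow_zero]
      have h2 : e = e' := h
      rw [h2]
      change e'.1 = Sym2.map id e'.1
      rw [Sym2.map_id]
      rfl⟩) hne2
  have h2 : cl q (xi : TY 𝓕) ^ M = ∏ _v : Fin M, cl q (xi : TY 𝓕) := by
    rw [prod_const, card_univ, Fintype.card_fin]
  rw [h2, Lb_prod]
  unfold NN
  rw [← h1]
  refine Finset.sum_congr rfl fun A _ => ?_
  have h3 : pre id A = A := by
    ext e
    rw [mem_pre]
    rfl
  rw [h3]

theorem sty_xi {𝓕 : Pool.Agent.TH410.KV.Fam} (m : ℕ) (W : Type) :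
    (fun _ : ZMod m ⊕ W => (xi : TY 𝓕)) = sty m xi (fun _ => xi) := by
  funext v
  rcases v with i | w <;> rfl

/-- three blocks are rotated -/
theorem crit_three (p q : ℕ) [Fact p.Prime] [Fact q.Prime] [CharP F p]
    {𝓕 : Pool.Agent.TH410.KV.Fam} (F₀ : 𝓕) (hb : ∀ H : 𝓕, H.1.1 ≤ Fintype.card F)
    (h0 : ∀ H ∈ 𝓕, ¬ H.2.Colorable 1) {n w : ℕ} (hn : n = (w + 3) * Fintype.card F)
    (hne : NE (univ : Finset (EV (Fin n))) (fun S => ¬ Has 𝓕 (toG S))) :
    Lb 𝓕 q (cl q (xi : TY 𝓕) ^ (w + 1)) = Lb 𝓕 q (cl q (J 3 (xi : TY 𝓕)) * cl q (xi : TY 𝓕) ^ w) := by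
  classical
  obtain ⟨g, hg⟩ := exists_gen F
  have hne2 := ne_transport (V := (ZMod 3 ⊕ Fin w) × F) (by
    rw [Fintype.card_prod, Fintype.card_sum, Fintype.card_fin, ZMod.card, hn, add_comm w 3]) 𝓕 hne
  have h1 := crit_tau (ι := ZMod 3 ⊕ Fin w) (Ω := EV (Option (Fin w)) ⊕ Unit) p q F₀ hb h0 (rot 3)
    (muc 3 g) g hg (muc_spec 3 g) (orb 3) (orb_rote 3) (orb_surj 3 (Or.inr rfl))
    (fun e e' h => by
      obtain ⟨i, hi⟩ := orb_tr 3 (Or.inr rfl) e e' h
      exact ⟨i, by rw [hi, rote_pow]⟩) hne2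
  have h2 : ∀ t : TY 𝓕, cl q t * cl q (xi : TY 𝓕) ^ w =
      ∏ v : Option (Fin w), cl q (oty t (fun _ => (xi : TY 𝓕)) v) := by
    intro t
    rw [Fintype.prod_option]
    simp only [oty, Option.elim, prod_const, card_univ, Fintype.card_fin]
  rw [pow_succ', h2, h2, Lb_prod, Lb_prod]
  unfold NN
  rw [← sub_eq_zero, ← Finset.sum_sub_distrib, ← h1,
    ← (Finset.sumEquiv (α := EV (Option (Fin w))) (β := Unit)).symm.toEquiv.sum_comp,
    Fintype.sum_prod_type]
  refine Finset.sum_congr rfl fun S _ => ?_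
  have hu : (univ : Finset (Finset Unit)) = {∅, {()}} := by decide
  rw [hu, sum_pair (by decide), sty_xi]
  change _ = ind q (sty 3 xi (fun _ => xi)) (toG (pre (orb 3) (S.disjSum ∅))) * (-1) ^ (S.disjSum ∅).card +
    ind q (sty 3 xi (fun _ => xi)) (toG (pre (orb 3) (S.disjSum {()}))) * (-1) ^ (S.disjSum {()}).card
  rw [card_disjSum, card_disjSum, card_empty, card_singleton, add_zero, pow_succ,
    ind_congr q (merge0 3 xi (fun _ => xi) _ (toG S) (adj_pre0 3 S)),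
    ind_congr q (merge1 3 xi (fun _ => xi) _ (toG S) (adj_pre1 3 S))]
  ring

end Crits

end Pool.Agent.V5helper66.Karp
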