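import Mathlib
import Pool.Agent.V5helper66.Karp.Few

set_option autoImplicit false
set_option linter.unusedSectionVars false

/-! A rotation of five blocks. -/

namespace Pool.Agent.V5helper66.Karp

open Finset Pool.Agent.H98R2.Ev Pool.Agent.H98R2.Nb Pool.Agent.TH410.KV

/-- the class of the difference of two elements -/
def c5 (i j : ZMod 5) : Bool := decide (i - j = 1 ∨ j - i = 1)

theorem c5_comm : ∀ i j : ZMod 5, c5 i j = c5 j i := by decide

theorem c5_shift : ∀ i j : ZMod 5, c5 (i + 1) (j + 1) = c5 i j := by decide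

set_option synthInstance.maxSize 100000 in
theorem c5_tr : ∀ i j i' j' : ZMod 5, i ≠ j → i' ≠ j' → c5 i j = c5 i' j' →
    ∃ k : ZMod 5, (i + k = i' ∧ j + k = j') ∨ (i + k = j' ∧ j + k = i') := by decide

theorem c5_dbl : ∀ i j : ZMod 5, i ≠ j → c5 (2 * i) (2 * j) = !(c5 i j) := by decide

section

variable {W : Type}

/-- the class of a pair -/
def d5 (x y : ZMod 5 ⊕ W) : Bool :=
  x.elim (fun i => y.elim (fun j => c5 i j) (fun _ => false)) (fun _ => false)

theorem d5_comm (x y : ZMod 5 ⊕ W) : d5 x y = d5 y x := by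
  rcases x with i | v <;> rcases y with j | w
  · exact c5_comm i j
  · rfl
  · rfl
  · rfl

/-- the class of a pair -/
def e5 (e : Sym2 (ZMod 5 ⊕ W)) : Bool := Sym2.lift ⟨d5, d5_comm⟩ e

theorem e5_mk (x y : ZMod 5 ⊕ W) : e5 s(x, y) = d5 x y := rfl

variable [Fintype W] [DecidableEq W]

/-- the orbit of a pair -/
def orb5 (e : EV (ZMod 5 ⊕ W)) : EV (Option W) ⊕ Bool :=
  if h : (Sym2.map (col 5) e.1).IsDiag then Sum.inr (e5 e.1) else Sum.inl ⟨_, h⟩

theorem orb5_inl (e : EV (ZMod 5 ⊕ W)) (e' : EV (Option W)) :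
    orb5 e = Sum.inl e' ↔ Sym2.map (col 5) e.1 = e'.1 := by
  unfold orb5
  by_cases h : (Sym2.map (col 5) e.1).IsDiag
  · rw [dif_pos h]
    constructor
    · intro h'
      cases h'
    · intro h'
      exact absurd (h' ▸ h) e'.2
  · rw [dif_neg h]
    constructor
    · intro h'
      rw [← Sum.inl_injective h']
    · intro h'
      exact congrArg Sum.inl (Subtype.ext h')

theorem orb5_inr (e : EV (ZMod 5 ⊕ W)) (u : Bool) :
    orb5 e = Sum.inr u ↔ (Sym2.map (col 5) e.1).IsDiag ∧ e5 e.1 = u := by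
  unfold orb5
  by_cases h : (Sym2.map (col 5) e.1).IsDiag
  · rw [dif_pos h]
    constructor
    · intro h'
      exact ⟨h, Sum.inr_injective h'⟩
    · intro h'
      exact congrArg Sum.inr h'.2
  · rw [dif_neg h]
    constructor
    · intro h'
      cases h'
    · intro h'
      exact absurd h'.1 h

theorem d5_rot (x y : ZMod 5 ⊕ W) : d5 (rot 5 x) (rot 5 y) = d5 x y := by
  rcases x with i | v <;> rcases y with j | w
  · exact c5_shift i j
  · rfl
  · rfl
  · rfl

theorem orb5_rote (e : EV (ZMod 5 ⊕ W)) : orb5 (rote 5 e) = orb5 e := by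
  have key : Sym2.map (col 5) (rote 5 e).1 = Sym2.map (col 5) e.1 := by
    change Sym2.map (col 5) (Sym2.map (rot 5) e.1) = _
    rw [Sym2.map_map]
    congr 1
    funext x
    exact col_rot 5 x
  have key2 : e5 (rote 5 e).1 = e5 e.1 := by
    change e5 (Sym2.map (rot 5) e.1) = _
    obtain ⟨e, he⟩ := e
    induction e using Sym2.ind with
    | _ x y =>
    rw [Sym2.map_mk, e5_mk, e5_mk, d5_rot]
  rcases h : orb5 e with e' | u
  · rw [orb5_inl] at h ⊢
    rw [key, h]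
  · rw [orb5_inr] at h ⊢
    rw [key, key2]
    exact h

theorem orb5_surj : Function.Surjective (orb5 (W := W)) := by
  rintro (⟨e, he⟩ | b)
  · induction e using Sym2.ind with
    | _ a b =>
    have hab : a ≠ b := fun h => he (Sym2.mk_isDiag_iff.2 h)
    let sec : Option W → ZMod 5 ⊕ W := fun v => v.elim (Sum.inl 0) Sum.inr
    have hsec : ∀ v, col 5 (sec v) = v := by
      rintro (_ | w) <;> rfl
    have hne : sec a ≠ sec b := fun h => hab (by rw [← hsec a, ← hsec b, h])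
    refine ⟨⟨s(sec a, sec b), fun h => hne (Sym2.mk_isDiag_iff.1 h)⟩, ?_⟩
    rw [orb5_inl, Sym2.map_mk, hsec, hsec]
  · have h01 : ∃ j : ZMod 5, (0 : ZMod 5) ≠ j ∧ c5 0 j = b := by
      cases b <;> decide
    obtain ⟨j, h01, hj⟩ := h01
    refine ⟨⟨s(Sum.inl 0, Sum.inl j), fun h => h01 (Sum.inl_injective (Sym2.mk_isDiag_iff.1 h))⟩, ?_⟩
    rw [orb5_inr, Sym2.map_mk]
    exact ⟨Sym2.mk_isDiag_iff.2 rfl, hj⟩

theorem orb5_tr (e e' : EV (ZMod 5 ⊕ W)) (h : orb5 e = orb5 e') :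
    ∃ i : ℕ, e'.1 = Sym2.map ((rot 5 : Equiv.Perm (ZMod 5 ⊕ W)) ^ i : Equiv.Perm _) e.1 := by
  obtain ⟨e, he⟩ := e
  obtain ⟨e', he'⟩ := e'
  induction e using Sym2.ind with
  | _ x y =>
  induction e' using Sym2.ind with
  | _ x' y' =>
  have hxy : x ≠ y := fun h => he (Sym2.mk_isDiag_iff.2 h)
  have hxy' : x' ≠ y' := fun h => he' (Sym2.mk_isDiag_iff.2 h)
  rcases h1 : orb5 ⟨s(x, y), he⟩ with e2 | u
  · have h2 := h1
    rw [h] at h2
    rw [orb5_inl] at h1 h2
    simp only [Sym2.map_mk] at h1 h2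
    have h3 := e2.2
    rw [← h1] at h3
    have hne : col 5 x ≠ col 5 y := fun h => h3 (Sym2.mk_isDiag_iff.2 h)
    rw [← h2] at h1
    rcases Sym2.eq_iff.1 h1 with ⟨h4, h5⟩ | ⟨h4, h5⟩
    · obtain ⟨m, h6, h7⟩ := tr_aux 5 x y x' y' h4 h5 hne
      exact ⟨m, by rw [Sym2.map_mk, h6, h7]⟩
    · obtain ⟨m, h6, h7⟩ := tr_aux 5 x y y' x' h4 h5 hne
      exact ⟨m, by rw [Sym2.map_mk, h6, h7]; exact Sym2.eq_swap⟩
  · have h2 := h1
    rw [h] at h2
    rw [orb5_inr] at h1 h2
    simp only [Sym2.map_mk, Sym2.mk_isDiag_iff] at h1 h2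
    obtain ⟨i, j, rfl, rfl, hij⟩ := inner_of_diag 5 x y hxy h1.1
    obtain ⟨i', j', rfl, rfl, hij'⟩ := inner_of_diag 5 x' y' hxy' h2.1
    obtain ⟨k, hk⟩ := c5_tr i j i' j' hij hij' (h1.2.trans h2.2.symm)
    refine ⟨k.val, ?_⟩
    rw [Sym2.map_mk, rot_pow_inl, rot_pow_inl, ZMod.natCast_zmod_val]
    rcases hk with ⟨h3, h4⟩ | ⟨h3, h4⟩
    · rw [h3, h4]
    · rw [h3, h4]
      exact Sym2.eq_swap

/-- adjacency in the invariant graphs -/
theorem adj_pre5 (S : Finset (EV (Option W))) (B : Finset Bool) (x y : ZMod 5 ⊕ W) :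
    (toG (pre orb5 (S.disjSum B))).Adj x y ↔
      (x ≠ y ∧ col 5 x = none ∧ col 5 y = none ∧ d5 x y ∈ B) ∨
        (toG S).Adj (col 5 x) (col 5 y) := by
  rw [toG_adj, toG_adj]
  constructor
  · rintro ⟨h, h1⟩
    have hxy : x ≠ y := fun h' => h (Sym2.mk_isDiag_iff.2 h')
    rw [mem_pre] at h1
    rcases h2 : orb5 ⟨s(x, y), h⟩ with e | u
    · right
      rw [h2, inl_mem_disjSum] at h1
      rw [orb5_inl, Sym2.map_mk] at h2
      refine ⟨by rw [h2]; exact e.2, ?_⟩
      convert h1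
    · left
      rw [h2, inr_mem_disjSum] at h1
      rw [orb5_inr, Sym2.map_mk, Sym2.mk_isDiag_iff] at h2
      obtain ⟨h2, h3⟩ := h2
      obtain ⟨i, j, rfl, rfl, _⟩ := inner_of_diag 5 x y hxy h2
      exact ⟨hxy, rfl, rfl, by rw [← h3] at h1; exact h1⟩
  · rintro (⟨hxy, hx, hy, hd⟩ | ⟨h, h1⟩)
    · refine ⟨fun h' => hxy (Sym2.mk_isDiag_iff.1 h'), ?_⟩
      rw [mem_pre, (orb5_inr _ (d5 x y)).2 ⟨by
        rw [Sym2.map_mk, Sym2.mk_isDiag_iff, hx, hy], rfl⟩, inr_mem_disjSum]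
      exact hd
    · have hne : col 5 x ≠ col 5 y := fun h' => h (Sym2.mk_isDiag_iff.2 h')
      have h3 : ¬ (s(x, y) : Sym2 (ZMod 5 ⊕ W)).IsDiag :=
        fun h' => hne (congrArg _ (Sym2.mk_isDiag_iff.1 h'))
      refine ⟨h3, ?_⟩
      rw [mem_pre, (orb5_inl ⟨s(x, y), h3⟩ ⟨s(col 5 x, col 5 y), h⟩).2 (by rw [Sym2.map_mk]),
        inl_mem_disjSum]
      exact h1

/-- doubling -/
def dbl : Equiv.Perm (ZMod 5 ⊕ W) :=
  Equiv.sumCongr ⟨fun i => 2 * i, fun i => 3 * i, by decide, by decide⟩ (Equiv.refl W)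

theorem col_dbl (x : ZMod 5 ⊕ W) : col 5 (dbl x) = col 5 x := by
  rcases x with i | w <;> rfl

theorem dbl_pre (S : Finset (EV (Option W))) :
    (toG (pre orb5 (S.disjSum {false}))).comap (dbl (W := W)) =
      toG (pre orb5 (S.disjSum {true})) := by
  ext x y
  rw [SimpleGraph.comap_adj, adj_pre5, adj_pre5, col_dbl, col_dbl]
  refine or_congr ?_ Iff.rfl
  constructor
  · rintro ⟨h1, h2, h3, h4⟩
    have hxy : x ≠ y := fun h => h1 (by rw [h])
    refine ⟨hxy, h2, h3, ?_⟩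
    rcases x with i | v
    · rcases y with j | w
      · have hij : i ≠ j := fun h => hxy (by rw [h])
        rw [mem_singleton] at h4 ⊢
        have h5 : c5 (2 * i) (2 * j) = false := h4
        rw [c5_dbl i j hij] at h5
        change c5 i j = true
        simpa using h5
      · simp [col] at h3
    · simp [col] at h2
  · rintro ⟨h1, h2, h3, h4⟩
    refine ⟨fun h => h1 (Equiv.injective _ h), h2, h3, ?_⟩
    rcases x with i | v
    · rcases y with j | w
      · have hij : i ≠ j := fun h => h1 (by rw [h])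
        rw [mem_singleton] at h4 ⊢
        have h5 : c5 i j = true := h4
        change c5 (2 * i) (2 * j) = false
        rw [c5_dbl i j hij, h5]
        rfl
      · simp [col] at h3
    · simp [col] at h2

end

/-- five blocks are rotated -/
theorem crit_five {F : Type} [Field F] [Fintype F] [DecidableEq F] (p : ℕ) [Fact p.Prime]
    [CharP F p] {𝓕 : Pool.Agent.TH410.KV.Fam} (F₀ : 𝓕) (hb : ∀ H : 𝓕, H.1.1 ≤ Fintype.card F)
    (h0 : ∀ H ∈ 𝓕, ¬ H.2.Colorable 1) (h5 : F₀.1.2.Colorable 5) {n w : ℕ}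
    (hn : n = (w + 5) * Fintype.card F)
    (hne : NE (univ : Finset (EV (Fin n))) (fun S => ¬ Has 𝓕 (toG S))) :
    Lb 𝓕 2 (cl 2 (xi : TY 𝓕) ^ (w + 1)) = 0 := by
  classical
  have : NeZero (5 : ℕ) := ⟨by norm_num⟩
  obtain ⟨g, hg⟩ := exists_gen F
  have hne2 := ne_transport (V := (ZMod 5 ⊕ Fin w) × F) (by
    rw [Fintype.card_prod, Fintype.card_sum, Fintype.card_fin, ZMod.card, hn, add_comm w 5]) 𝓕 hne
  have h1 := crit_tau (ι := ZMod 5 ⊕ Fin w) (Ω := EV (Option (Fin w)) ⊕ Bool) p 2 F₀ hb h0 (rot 5)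
    (muc 5 g) g hg (muc_spec 5 g) orb5 orb5_rote orb5_surj orb5_tr hne2
  have h2 : ∀ t : TY 𝓕, cl 2 t * cl 2 (xi : TY 𝓕) ^ w =
      ∏ v : Option (Fin w), cl 2 (oty t (fun _ => (xi : TY 𝓕)) v) := by
    intro t
    rw [Fintype.prod_option]
    simp only [oty, Option.elim, prod_const, card_univ, Fintype.card_fin]
  rw [pow_succ', h2, Lb_prod]
  unfold NN
  rw [← h1, ← (Finset.sumEquiv (α := EV (Option (Fin w))) (β := Bool)).symm.toEquiv.sum_comp,
    Fintype.sum_prod_type]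
  refine Finset.sum_congr rfl fun S _ => ?_
  have hu : (univ : Finset (Finset Bool)) = {∅, {true}, {false}, {true, false}} := by decide
  rw [hu, sum_insert (by decide), sum_insert (by decide), sum_pair (by decide), sty_xi]
  have c0 : ind 2 (sty 5 (xi : TY 𝓕) (fun _ => xi)) (toG (pre orb5 (S.disjSum ∅))) =
      ind 2 (oty (xi : TY 𝓕) (fun _ => xi)) (toG S) := by
    refine ind_congr 2 (merge0 5 xi (fun _ => xi) _ (toG S) fun x y => ?_)
    rw [adj_pre5]
    simp
  have c1 : ind 2 (sty 5 (xi : TY 𝓕) (fun _ => xi)) (toG (pre orb5 (S.disjSum {true}))) =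
      ind 2 (sty 5 (xi : TY 𝓕) (fun _ => xi)) (toG (pre orb5 (S.disjSum {false}))) := by
    rw [← dbl_pre]
    have h3 := bad_iso (dbl (W := Fin w)) (sty 5 (xi : TY 𝓕) (fun _ => xi))
      (toG (pre orb5 (S.disjSum {false})))
    have h4 : (fun v => sty 5 (xi : TY 𝓕) (fun _ => xi) (dbl (W := Fin w) v)) =
        sty 5 (xi : TY 𝓕) (fun _ => xi) := by
      funext v
      rcases v with i | w <;> rfl
    rw [h4] at h3
    exact ind_congr 2 h3
  have c2 : ind 2 (sty 5 (xi : TY 𝓕) (fun _ => xi)) (toG (pre orb5 (S.disjSum {true, false}))) =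
      0 := by
    have h3 : Bad (sty 5 (xi : TY 𝓕) (fun _ => xi)) (toG (pre orb5 (S.disjSum {true, false}))) := by
      rw [merge1 5 xi (fun _ => xi) _ (toG S) (fun x y => by
        rw [adj_pre5]
        have : d5 x y ∈ ({true, false} : Finset Bool) := by
          cases d5 x y <;> decide
        simp only [this, and_true])]
      refine bad_of_univ _ _ none F₀ ?_
      have h4 := (xi_iter 5 1 F₀).2 (by rw [pow_one]; exact h5)
      exact h4
    unfold ind
    rw [if_pos h3]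
  change _ = ind 2 (sty 5 xi (fun _ => xi)) (toG (pre orb5 (S.disjSum ∅))) * (-1) ^ (S.disjSum ∅).card +
    (ind 2 (sty 5 xi (fun _ => xi)) (toG (pre orb5 (S.disjSum {true}))) * (-1) ^ (S.disjSum {true}).card +
    (ind 2 (sty 5 xi (fun _ => xi)) (toG (pre orb5 (S.disjSum {false}))) * (-1) ^ (S.disjSum {false}).card +
    ind 2 (sty 5 xi (fun _ => xi)) (toG (pre orb5 (S.disjSum {true, false}))) * (-1) ^ (S.disjSum {true, false}).card))
  rw [c0, c1, c2, card_disjSum, card_empty, add_zero, zero_mul, add_zero, card_disjSum,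
    card_disjSum, card_singleton, card_singleton]
  have h2z : ∀ z : ZMod 2, z + z = 0 := by decide
  rw [h2z, add_zero]

end Pool.Agent.V5helper66.Karp
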