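import Mathlib
import Pool.Agent.V5helper66.Karp.Five

set_option autoImplicit false
set_option linter.unusedSectionVars false

/-! Families with a member of chromatic number at most four. -/

namespace Pool.Agent.V5helper66.Karp

open Finset Pool.Agent.H98R2.Ev Pool.Agent.H98R2.Nb Pool.Agent.TH410.KV

variable {𝓕 : Pool.Agent.TH410.KV.Fam}

/-- membership in a filter, for any decidability instance -/
theorem flt {α : Type} {s : Finset α} {P : α → Prop} {inst : DecidablePred P} {x : α}
    (h : x ∈ @Finset.filter α P inst s) : x ∈ s ∧ P x := Finset.mem_filter.1 h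

theorem colorable_of_bad {ι : Type} {G : SimpleGraph ι} {m : ℕ}
    (h : Bad (fun _ : ι => (xi : TY 𝓕)) G) (hG : G.Colorable m) :
    ∃ F : 𝓕, F.1.2.Colorable m := by
  classical
  obtain ⟨F, κ, h1, h2⟩ := h
  obtain ⟨C⟩ := hG
  refine ⟨F, ⟨SimpleGraph.Coloring.mk (fun x => C (κ x)) ?_⟩⟩
  intro x y hxy heq
  by_cases hκ : κ x = κ y
  · exact h1 (κ y) x (by simp [hκ]) y (by simp) hxy
  · exact C.valid (h2 x y hxy hκ) heq

theorem dec_three : ∀ a b x y : Fin 3, a ≠ b → x ≠ y → ¬ (x = a ∨ x = b) → ¬ (y = a ∨ y = b) →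
    False := by decide

/-- three blocks -/
theorem count_three (h2 : ∀ F : 𝓕, ¬ F.1.2.Colorable 2) (F₀ : 𝓕) (h3 : F₀.1.2.Colorable 3) :
    Lb 𝓕 2 (cl 2 (xi : TY 𝓕) ^ 3) = 1 := by
  classical
  have e1 : cl 2 (xi : TY 𝓕) ^ 3 = ∏ _v : Fin 3, cl 2 (xi : TY 𝓕) := by
    rw [prod_const, card_univ, Fintype.card_fin]
  rw [e1, Lb_prod]
  unfold NN
  have key : ∀ S : Finset (EV (Fin 3)), ind 2 (fun _ => (xi : TY 𝓕)) (toG S) * (-1) ^ S.card =
      if S = univ then 0 else 1 := by
    intro S
    have hm : (-1 : ZMod 2) = 1 := by decide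
    rw [hm, one_pow, mul_one]
    unfold ind
    by_cases hS : S = univ
    · rw [if_pos hS, if_pos]
      obtain ⟨C⟩ := h3
      refine ⟨F₀, fun x => C x, fun v x hx y hy hxy => ?_, fun x y hxy hne => ?_⟩
      · have hx2 : C x = v := (flt hx).2
        have hy2 : C y = v := (flt hy).2
        exact C.valid hxy (hx2.trans hy2.symm)
      · rw [toG_adj]
        refine ⟨fun h => hne (Sym2.mk_isDiag_iff.1 h), ?_⟩
        rw [hS]
        exact mem_univ _
    · rw [if_neg hS, if_neg]
      intro hbad
      have hex : ∃ e : EV (Fin 3), e ∉ S := by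
        by_contra hcon
        push Not at hcon
        exact hS (eq_univ_iff_forall.2 hcon)
      obtain ⟨⟨e, he⟩, heS⟩ := hex
      induction e using Sym2.ind with
      | _ a b =>
      have hab : a ≠ b := fun h => he (Sym2.mk_isDiag_iff.2 h)
      obtain ⟨F, hF⟩ := colorable_of_bad (m := 2) hbad
        ⟨SimpleGraph.Coloring.mk (fun x => if x = a ∨ x = b then (0 : Fin 2) else 1) (by
          intro x y hxy heq
          have hne : x ≠ y := hxy.ne
          rw [toG_adj] at hxy
          obtain ⟨h', hmem⟩ := hxy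
          by_cases hx : x = a ∨ x = b
          · by_cases hy : y = a ∨ y = b
            · apply heS
              have e2 : s(a, b) = s(x, y) := by
                rcases hx with rfl | rfl <;> rcases hy with rfl | rfl
                · exact absurd rfl hne
                · rfl
                · exact Sym2.eq_swap
                · exact absurd rfl hne
              convert hmem using 2
            · simp only [hx, hy, if_true, if_false] at heq
              exact absurd heq (by decide)
          · by_cases hy : y = a ∨ y = b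
            · simp only [hx, hy, if_true, if_false] at heq
              exact absurd heq (by decide)
            · exact dec_three a b x y hab hne hx hy)⟩
      exact h2 F hF
  rw [Finset.sum_congr rfl fun S _ => key S]
  have e2 : ∑ S : Finset (EV (Fin 3)), (if S = univ then (0 : ZMod 2) else 1) =
      ∑ S : Finset (EV (Fin 3)), (1 - if S = univ then (1 : ZMod 2) else 0) := by
    refine Finset.sum_congr rfl fun S _ => ?_
    split_ifs <;> simp
  rw [e2, Finset.sum_sub_distrib, Finset.sum_ite_eq' univ univ (fun _ => (1 : ZMod 2)),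
    if_pos (mem_univ _), sum_const, card_univ, Fintype.card_finset]
  have hc : Fintype.card (EV (Fin 3)) = 3 := by decide
  rw [hc]
  decide

/-- a block of type `J 3 xi` and three further blocks -/
theorem count_join (h3 : ∀ F : 𝓕, ¬ F.1.2.Colorable 3) (F₀ : 𝓕) (h4 : F₀.1.2.Colorable 4) :
    Lb 𝓕 2 (cl 2 (J 3 (xi : TY 𝓕)) * cl 2 (xi : TY 𝓕) ^ 3) = 0 := by
  classical
  have e1 : cl 2 (J 3 (xi : TY 𝓕)) * cl 2 (xi : TY 𝓕) ^ 3 =
      ∏ v : Option (Fin 3), cl 2 (oty (J 3 xi) (fun _ => (xi : TY 𝓕)) v) := by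
    rw [Fintype.prod_option]
    simp only [oty, Option.elim, prod_const, card_univ, Fintype.card_fin]
  rw [e1, Lb_prod]
  unfold NN
  have key : ∀ G : SimpleGraph (Option (Fin 3)),
      Bad (oty (J 3 xi) (fun _ => (xi : TY 𝓕))) G ↔ ∃ w, G.Adj none (some w) := by
    intro G
    constructor
    · rintro ⟨F, κ, k1, k2⟩
      by_contra hcon
      push Not at hcon
      obtain ⟨ρ, hρ⟩ : _ ∈ Jn (ZMod 3) (xi : TY 𝓕).1 F := k1 none
      let c : Fin F.1.1 → ZMod 3 := fun x => (κ x).elim (ρ x) (fun w => w)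
      refine h3 F ⟨SimpleGraph.Coloring.mk c ?_⟩
      intro x y hxy heq
      rcases hx : κ x with _ | v
      · rcases hy : κ y with _ | w
        · simp only [c, hx, hy, Option.elim] at heq
          exact hρ (ρ y) x (by simp [hx, heq]) y (by simp [hy]) hxy
        · have h5 := k2 x y hxy (by rw [hx, hy]; simp)
          rw [hx, hy] at h5
          exact hcon w h5
      · rcases hy : κ y with _ | w
        · have h5 := k2 x y hxy (by rw [hx, hy]; simp)
          rw [hx, hy] at h5
          exact hcon v h5.symm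
        · simp only [c, hx, hy, Option.elim] at heq
          have hvw : v = w := heq
          subst hvw
          have h5 := k1 (some v)
          exact h5 x (by simp [hx]) y (by simp [hy]) hxy
    · rintro ⟨w, hw⟩
      obtain ⟨C⟩ := h4
      refine ⟨F₀, fun x => if C x = 3 then some w else none, fun v => ?_, fun x y hxy hne => ?_⟩
      · rcases v with _ | v
        · change _ ∈ Jn (ZMod 3) (xi : TY 𝓕).1 F₀
          refine ⟨fun x => ((C x : ℕ) : ZMod 3), fun i x hx y hy hxy => ?_⟩
          have hx0 := flt hx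
          have hy0 := flt hy
          have hx1 : (if C x = 3 then some w else none) = none := (flt hx0.1).2
          have hy1 : (if C y = 3 then some w else none) = none := (flt hy0.1).2
          have hx2 : ((C x : ℕ) : ZMod 3) = i := hx0.2
          have hy2 : ((C y : ℕ) : ZMod 3) = i := hy0.2
          have hx3 : C x ≠ 3 := by
            intro h
            rw [if_pos h] at hx1
            cases hx1
          have hy3 : C y ≠ 3 := by
            intro h
            rw [if_pos h] at hy1
            cases hy1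
          apply C.valid hxy
          have hdec : ∀ a b : Fin 4, a ≠ 3 → b ≠ 3 → ((a : ℕ) : ZMod 3) = ((b : ℕ) : ZMod 3) →
              a = b := by decide
          exact hdec _ _ hx3 hy3 (hx2.trans hy2.symm)
        · change _ ∈ (xi : TY 𝓕).1 F₀
          intro x hx y hy hxy
          have hx2 : (if C x = 3 then some w else none) = some v := (flt hx).2
          have hy2 : (if C y = 3 then some w else none) = some v := (flt hy).2
          have hx3 : C x = 3 := by
            by_contra h
            rw [if_neg h] at hx2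
            cases hx2
          have hy3 : C y = 3 := by
            by_contra h
            rw [if_neg h] at hy2
            cases hy2
          exact C.valid hxy (hx3.trans hy3.symm)
      · by_cases hx : C x = 3
        · by_cases hy : C y = 3
          · simp only [hx, hy, if_true] at hne
            exact absurd rfl hne
          · simp only [hx, hy, if_true, if_false]
            exact hw.symm
        · by_cases hy : C y = 3
          · simp only [hx, hy, if_true, if_false]
            exact hw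
          · simp only [hx, hy, if_false] at hne
            exact absurd rfl hne
  have hm : (-1 : ZMod 2) = 1 := by decide
  have he0 : ¬ (s(some 0, some 1) : Sym2 (Option (Fin 3))).IsDiag := by decide
  let e₀ : EV (Option (Fin 3)) := ⟨s(some 0, some 1), he0⟩
  have hadj : ∀ (S T : Finset (EV (Option (Fin 3)))), (∀ e, e ≠ e₀ → (e ∈ S ↔ e ∈ T)) →
      (Bad (oty (J 3 xi) (fun _ => (xi : TY 𝓕))) (toG S) ↔
        Bad (oty (J 3 xi) (fun _ => (xi : TY 𝓕))) (toG T)) := by
    intro S T hST
    rw [key, key]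
    have hn : ∀ (w : Fin 3) (h : ¬ (s(none, some w) : Sym2 (Option (Fin 3))).IsDiag),
        (⟨s(none, some w), h⟩ : EV (Option (Fin 3))) ≠ e₀ := by
      intro w h h'
      have h5 : (s(none, some w) : Sym2 (Option (Fin 3))) = s(some 0, some 1) :=
        congrArg Subtype.val h'
      simp at h5
    refine exists_congr fun w => ?_
    rw [toG_adj, toG_adj]
    refine exists_congr fun h => ?_
    exact hST _ (hn w h)
  refine Finset.sum_involution (fun S _ => if e₀ ∈ S then S.erase e₀ else insert e₀ S) ?_ ?_ ?_ ?_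
  · intro S _
    have h5 : ind 2 (oty (J 3 xi) (fun _ => (xi : TY 𝓕)))
        (toG (if e₀ ∈ S then S.erase e₀ else insert e₀ S)) =
        ind 2 (oty (J 3 xi) (fun _ => (xi : TY 𝓕))) (toG S) := by
      refine ind_congr 2 (hadj _ _ fun e he => ?_)
      split_ifs
      · simp [he]
      · simp [he]
    rw [h5, hm, one_pow, one_pow, mul_one]
    exact (by decide : ∀ z : ZMod 2, z + z = 0) _
  · intro S _ _ h
    by_cases hS : e₀ ∈ S
    · rw [if_pos hS] at h
      rw [← h] at hS
      exact absurd hS (notMem_erase _ _)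
    · rw [if_neg hS] at h
      rw [← h] at hS
      exact hS (mem_insert_self _ _)
  · intro S _
    exact mem_univ _
  · intro S _
    by_cases hS : e₀ ∈ S
    · simp only [hS, if_true, notMem_erase, if_false]
      exact insert_erase hS
    · simp only [hS, if_false, mem_insert_self, if_true]
      exact erase_insert hS

/-- **Families with a member of chromatic number at most four.** -/
theorem fam_few (p : ℕ) [hp : Fact p.Prime] (c M n r : ℕ) (hc : 1 ≤ c) (hn : n = M * p ^ c)
    (hM1 : 1 ≤ M) (hr : r ≤ 4) (hM : M = 1 ∨ r ≤ M) (𝓕 : Pool.Agent.TH410.KV.Fam)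
    (hb : ∀ F ∈ 𝓕, F.1 ≤ p ^ c) (h1 : ∀ F ∈ 𝓕, ¬ F.2.Colorable 1)
    (hcol : ∃ F ∈ 𝓕, F.2.Colorable r) :
    ¬ NE (univ : Finset (EV (Fin n))) (fun S => ¬ Has 𝓕 (toG S)) := by
  classical
  intro hNE
  have h2p : Fact (Nat.Prime 2) := ⟨Nat.prime_two⟩
  have hfin : Fintype (GaloisField p c) := Fintype.ofFinite _
  have hcard : Fintype.card (GaloisField p c) = p ^ c := by
    rw [← Nat.card_eq_fintype_card]
    exact GaloisField.card p c (by omega)
  rw [← hcard] at hn
  have hb' : ∀ H : 𝓕, H.1.1 ≤ Fintype.card (GaloisField p c) := by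
    intro H
    rw [hcard]
    exact hb H.1 H.2
  obtain ⟨F₁, hF₁, hF₁c⟩ := hcol
  have hU : ∀ H : 𝓕, univ ∉ (xi : TY 𝓕).1 H := by
    intro H hH
    have h2 : univ ∈ ((J 2)^[0] (xi : TY 𝓕)).1 H := hH
    rw [xi_iter, pow_zero] at h2
    exact h1 H.1 H.2 h2
  have hnt : Nontrivial (AA 𝓕 2) := nontrivial_AA 2 _ hU
  have hch : CharP (AA 𝓕 2) 2 := charP_AA 2
  have hone : Lb 𝓕 2 (cl 2 (xi : TY 𝓕)) = 1 := Lb_cl 2 _ hU
  by_cases hA : ∃ F : 𝓕, F.1.2.Colorable 2
  · obtain ⟨F₀, hF₀⟩ := hA
    have hDe : (De 2 ^ 1) (cl 2 (xi : TY 𝓕)) = 0 := by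
      rw [De_cl 2 (Or.inl rfl)]
      exact cl_zero 2 _ F₀ ((xi_iter 2 1 F₀).2 (by rw [pow_one]; exact hF₀))
    have hper : cl 2 (xi : TY 𝓕) ^ 2 = cl 2 (xi : TY 𝓕) :=
      pow_period (e := 0) 2 hDe (by norm_num)
    have h3 := crit_id p 2 F₀ hb' h1 hn hNE
    obtain ⟨j, rfl⟩ := Nat.exists_eq_add_of_le hM1
    have h4 := pow_add_period (K := 2) (by norm_num) hper 1 le_rfl j
    rw [show (2 - 1 : ℕ) = 1 from rfl, mul_one] at h4
    rw [h4, pow_one, hone] at h3
    exact one_ne_zero h3
  · push Not at hA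
    have hr3 : 3 ≤ r := by
      by_contra hcon
      exact hA ⟨F₁, hF₁⟩ (hF₁c.mono (by omega))
    have h4 : F₁.2.Colorable 4 := hF₁c.mono hr
    have hDe : (De 2 ^ 2) (cl 2 (xi : TY 𝓕)) = 0 := by
      rw [De_cl 2 (Or.inl rfl)]
      exact cl_zero 2 _ ⟨F₁, hF₁⟩ ((xi_iter 2 2 ⟨F₁, hF₁⟩).2 h4)
    have hper : cl 2 (xi : TY 𝓕) ^ 4 = cl 2 (xi : TY 𝓕) :=
      pow_period (e := 1) 2 hDe (by norm_num)
    have hper' : ∀ m : ℕ, 1 ≤ m → ∀ j : ℕ, cl 2 (xi : TY 𝓕) ^ (m + j * 3) =
        cl 2 (xi : TY 𝓕) ^ m := fun m hm j => pow_add_period (K := 4) (by norm_num) hper m hm j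
    -- one modulo three
    have hmod1 : M % 3 ≠ 1 := by
      intro hmod
      have h5 := crit_id p 2 ⟨F₁, hF₁⟩ hb' h1 hn hNE
      have e1 : M = 1 + M / 3 * 3 := by omega
      rw [e1, hper' 1 le_rfl, pow_one, hone] at h5
      exact one_ne_zero h5
    have hM3 : r ≤ M := by
      rcases hM with h | h
      · rw [h] at hmod1
        exact absurd rfl hmod1
      · exact h
    by_cases hB : ∃ F : 𝓕, F.1.2.Colorable 3
    · obtain ⟨F₀, hF₀⟩ := hB
      have h3 := count_three hA F₀ hF₀
      rcases Nat.lt_or_ge (M % 3) 1 with hmod | hmod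
      · have h5 := crit_id p 2 F₀ hb' h1 hn hNE
        have e1 : M = 3 + (M / 3 - 1) * 3 := by omega
        rw [e1, hper' 3 (by norm_num), h3] at h5
        exact one_ne_zero h5
      · obtain ⟨w, rfl⟩ : ∃ w, M = w + 3 := ⟨M - 3, by omega⟩
        have h5 := crit_three p 2 F₀ hb' h1 hn hNE
        have h6 : cl 2 (J 3 (xi : TY 𝓕)) = 0 :=
          cl_zero 2 _ F₀ ((xi_iter 3 1 F₀).2 (by rw [pow_one]; exact hF₀))
        rw [h6, zero_mul, map_zero] at h5
        have e1 : w + 1 = 3 + ((w + 1) / 3 - 1) * 3 := by omega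
        rw [e1, hper' 3 (by norm_num), h3] at h5
        exact one_ne_zero h5
    · push Not at hB
      have hr4 : 4 ≤ r := by
        by_contra hcon
        exact hB ⟨F₁, hF₁⟩ (hF₁c.mono (by omega))
      rcases Nat.lt_or_ge (M % 3) 1 with hmod | hmod
      · obtain ⟨w, rfl⟩ : ∃ w, M = w + 3 := ⟨M - 3, by omega⟩
        have h5 := crit_three p 2 ⟨F₁, hF₁⟩ hb' h1 hn hNE
        have e1 : w + 1 = 1 + (w / 3) * 3 := by omega
        have e2 : w = 3 + (w / 3 - 1) * 3 := by omega
        have e3 : cl 2 (xi : TY 𝓕) ^ w = cl 2 (xi : TY 𝓕) ^ 3 := by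
          conv_lhs => rw [e2]
          exact hper' 3 (by norm_num) _
        rw [e1, hper' 1 le_rfl, pow_one, hone, e3, count_join hB ⟨F₁, hF₁⟩ h4] at h5
        exact one_ne_zero h5
      · obtain ⟨w, rfl⟩ : ∃ w, M = w + 5 := ⟨M - 5, by omega⟩
        have h5 := crit_five p ⟨F₁, hF₁⟩ hb' h1 (h4.mono (by norm_num)) hn hNE
        have e1 : w + 1 = 1 + (w / 3) * 3 := by omega
        rw [e1, hper' 1 le_rfl, pow_one, hone] at h5
        exact one_ne_zero h5

end Pool.Agent.V5helper66.Karp
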